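import Pool.Agent.K7.H67.RC.Last

/-! Certificates (generated). -/

set_option autoImplicit false
set_option linter.unusedSimpArgs false

namespace Pool.Agent.K7.H67.RC

open PowerSeries Finset


lemma st2_G0 {f : ℤ⟦X⟧} (hf : C (4 : ℤ) ∣ (1 - k) * (1 + k) * f - x ^ 0 * ((-1) * k)) :
    C (4 : ℤ) ∣ (1 + k) ^ 4 * U ℤ 2 f - x ^ 0 * (k + (2) * k ^ 2 + (-1) * k ^ 3) := by
  have h := ustep 4 (d := (1 + k) ^ 4) (p := k + (2) * k ^ 2 + (-1) * k ^ 3) (q := (-1) + (-1) * k ^ 2) 0 hf (by simp [k_const, K_const]) (by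
    refine cancel_unit (u := (1 + K) ^ 0 * (1 + k) ^ 0) (by simp [k_const, K_const]) ?_
    simp only [map_mul, map_add, map_sub, map_pow, map_one, map_ofNat, map_neg, map_zero, Vk]
    rw [c_eq]
    exact ⟨(-4) * k * K + (8) * k ^ 2 * K + (3) * k ^ 3 + k ^ 3 * K + (-2) * k ^ 4 + (-4) * k ^ 4 * K + (-1) * k ^ 5 + (-1) * k ^ 5 * K,
      by linear_combination ((2) * K + (-13) * k + (-4) * k * K + (-1) * k * K ^ 2 + (8) * k ^ 2 + (4) * k ^ 3) * hG⟩)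
  exact conv 4 (2 * 0) 0 0 (by norm_num) h.2 (by simp [k_const, K_const]) ⟨0, by
    rw [map_ofNat]
    ring⟩

lemma st2_F1 {f : ℤ⟦X⟧} (hf : C (8 : ℤ) ∣ (1 + k) ^ 2 * f - x ^ 3 * ((-1) + (3) * k)) :
    C (8 : ℤ) ∣ (1 - k) ^ 2 * (1 + k) ^ 1 * U ℤ 2 f - x ^ 4 * (k + (-3) * k ^ 2) := by
  have h := ustep 8 (d := (1 - k) ^ 2 * (1 + k) ^ 1) (p := k ^ 3 + (-3) * k ^ 4) (q := (-1) * k + (3) * k ^ 2) 3 hf (by simp [k_const, K_const]) (by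
    refine cancel_unit (u := (1 + K) ^ 0 * (1 + k) ^ 0) (by simp [k_const, K_const]) ?_
    simp only [map_mul, map_add, map_sub, map_pow, map_one, map_ofNat, map_neg, map_zero, Vk]
    rw [c_eq]
    exact ⟨(-1) * k * K + (2) * k ^ 2 * K + k ^ 3 + (8) * k ^ 3 * K + k ^ 4 + k ^ 4 * K + (-4) * k ^ 5 + (-12) * k ^ 5 * K + (-6) * k ^ 6 + (-10) * k ^ 6 * K + (-2) * k ^ 7 + (-2) * k ^ 7 * K,
      by linear_combination ((-1) * K + (3) * K ^ 2 + (-9) * k + (-11) * k * K + (6) * k * K ^ 2 + (-5) * k ^ 2 + (-22) * k ^ 2 * K + (3) * k ^ 2 * K ^ 2 + (32) * k ^ 3 + (-16) * k ^ 3 * K + (48) * k ^ 4 + (16) * k ^ 5) * hG⟩)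
  exact conv 8 (2 * 3) 4 2 (by norm_num) h.2 (by simp [k_const, K_const]) ⟨k ^ 4 + (-4) * k ^ 5 + (3) * k ^ 6 + (-1) * k ^ 8 + (4) * k ^ 9 + (-3) * k ^ 10, by
    rw [map_ofNat]
    ring⟩

lemma st2_D1 {f : ℤ⟦X⟧} (hf : C (4 : ℤ) ∣ (1 - k) * (1 + k) * f - x ^ 3 * ((1))) :
    C (4 : ℤ) ∣ (1 + k) ^ 4 * U ℤ 2 f - x ^ 4 * ((1) + k ^ 2) := by
  have h := ustep 4 (d := (1 + k) ^ 4) (p := k ^ 2 + k ^ 4) (q := k + (2) * k ^ 2 + (-1) * k ^ 3) 3 hf (by simp [k_const, K_const]) (by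
    refine cancel_unit (u := (1 + K) ^ 0 * (1 + k) ^ 0) (by simp [k_const, K_const]) ?_
    simp only [map_mul, map_add, map_sub, map_pow, map_one, map_ofNat, map_neg, map_zero, Vk]
    rw [c_eq]
    exact ⟨(-1) * K + (2) * k * K + k ^ 2 + (2) * k ^ 2 * K + (2) * k ^ 3 * K + (-1) * k ^ 4 + (-9) * k ^ 4 * K + (-3) * k ^ 5 + (-1) * k ^ 5 * K + (2) * k ^ 6 + (4) * k ^ 6 * K + k ^ 7 + k ^ 7 * K,
      by linear_combination ((-4) + (-2) * K + k + k * K ^ 2 + (4) * k ^ 2 + (12) * k ^ 3 + (4) * k ^ 3 * K + (-8) * k ^ 4 + (-4) * k ^ 5) * hG⟩)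
  exact conv 4 (2 * 3) 4 2 (by norm_num) h.2 (by simp [k_const, K_const]) ⟨(2) * k ^ 3 + (8) * k ^ 4 + (16) * k ^ 5 + (24) * k ^ 6 + (28) * k ^ 7 + (24) * k ^ 8 + (16) * k ^ 9 + (8) * k ^ 10 + (2) * k ^ 11, by
    rw [map_ofNat]
    ring⟩

lemma st2_D2 {f : ℤ⟦X⟧} (hf : C (8 : ℤ) ∣ (1 + k) ^ 2 * f - x ^ 1 * ((1) + (-1) * k)) :
    C (8 : ℤ) ∣ (1 - k) ^ 2 * (1 + k) ^ 1 * U ℤ 2 f - x ^ 3 * ((4) + (-1) * k + (-1) * k ^ 2) := by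
  have h := ustep 8 (d := (1 + k) ^ 3) (p := (4) * k + (-1) * k ^ 2 + (-1) * k ^ 3) (q := (1) + (-3) * k) 1 hf (by simp [k_const, K_const]) (by
    refine cancel_unit (u := (1 + K) ^ 0 * (1 + k) ^ 0) (by simp [k_const, K_const]) ?_
    simp only [map_mul, map_add, map_sub, map_pow, map_one, map_ofNat, map_neg, map_zero, Vk]
    rw [c_eq]
    exact ⟨(-1) * k ^ 2 + (-5) * k ^ 2 * K + (-2) * k ^ 3 + (-2) * k ^ 3 * K,
      by linear_combination ((5) + K + (15) * k + (3) * k * K) * hG⟩)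
  exact conv 8 (2 * 1) 3 1 (by norm_num) h.2 (by simp [k_const, K_const]) ⟨0, by
    rw [map_ofNat]
    ring⟩

lemma st2_F3 {f : ℤ⟦X⟧} (hf : C (8 : ℤ) ∣ (1 + k) * f - x ^ 4 * ((1))) :
    C (8 : ℤ) ∣ (1 - k) ^ 2 * (1 + k) ^ 1 * U ℤ 2 f - x ^ 2 * ((1) + k + (4) * k ^ 2) := by
  have h := ustep 8 (d := (1 - k) ^ 2 * (1 + k) ^ 1) (p := k ^ 2 + k ^ 3 + (4) * k ^ 4) (q := (3) * k ^ 2 + (-1) * k ^ 3) 4 hf (by simp [k_const, K_const]) (by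
    refine cancel_unit (u := (1 + K) ^ 0 * (1 + k) ^ 0) (by simp [k_const, K_const]) ?_
    simp only [map_mul, map_add, map_sub, map_pow, map_one, map_ofNat, map_neg, map_zero, Vk]
    rw [c_eq]
    exact ⟨(-1) * K + (3) * k * K + k ^ 2 + (2) * k ^ 2 * K + (-1) * k ^ 3 + (-6) * k ^ 3 * K + (-2) * k ^ 4 + (-2) * k ^ 4 * K + k ^ 5 + (3) * k ^ 5 * K + k ^ 6 + k ^ 6 * K,
      by linear_combination ((-8) + (-7) * K + (-3) * K ^ 2 + (8) * k + (-2) * k * K + (-2) * k * K ^ 2 + (17) * k ^ 2 + (6) * k ^ 2 * K + k ^ 2 * K ^ 2 + (-8) * k ^ 3 + (-8) * k ^ 4) * hG⟩)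
  exact conv 8 (2 * 4) 2 2 (by norm_num) h.2 (by simp [k_const, K_const]) ⟨k ^ 3 + (3) * k ^ 5 + (-4) * k ^ 6 + (-1) * k ^ 7 + (-3) * k ^ 9 + (4) * k ^ 10, by
    rw [map_ofNat]
    ring⟩

lemma st2_F4 {f : ℤ⟦X⟧} (hf : C (4 : ℤ) ∣ (1 - k) * (1 + k) * f - x ^ 2 * (k)) :
    C (4 : ℤ) ∣ (1 + k) ^ 4 * U ℤ 2 f - x ^ 1 * (k + k ^ 3) := by
  have h := ustep 4 (d := (1 + k) ^ 4) (p := k ^ 2 + k ^ 4) (q := k + (2) * k ^ 2 + (-1) * k ^ 3) 2 hf (by simp [k_const, K_const]) (by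
    refine cancel_unit (u := (1 + K) ^ 0 * (1 + k) ^ 0) (by simp [k_const, K_const]) ?_
    simp only [map_mul, map_add, map_sub, map_pow, map_one, map_ofNat, map_neg, map_zero, Vk]
    rw [c_eq]
    exact ⟨(-1) * K + (2) * k * K + k ^ 2 + (2) * k ^ 2 * K + (2) * k ^ 3 * K + (-1) * k ^ 4 + (-9) * k ^ 4 * K + (-3) * k ^ 5 + (-1) * k ^ 5 * K + (2) * k ^ 6 + (4) * k ^ 6 * K + k ^ 7 + k ^ 7 * K,
      by linear_combination ((-4) + (-2) * K + k + k * K ^ 2 + (4) * k ^ 2 + (12) * k ^ 3 + (4) * k ^ 3 * K + (-8) * k ^ 4 + (-4) * k ^ 5) * hG⟩)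
  exact conv 4 (2 * 2) 1 1 (by norm_num) h.2 (by simp [k_const, K_const]) ⟨k ^ 3 + (4) * k ^ 4 + (7) * k ^ 5 + (8) * k ^ 6 + (7) * k ^ 7 + (4) * k ^ 8 + k ^ 9, by
    rw [map_ofNat]
    ring⟩

lemma st2_D4 {f : ℤ⟦X⟧} (hf : C (8 : ℤ) ∣ (1 + k) ^ 2 * f - x ^ 2 * ((3) + k)) :
    C (8 : ℤ) ∣ (1 - k) ^ 2 * (1 + k) ^ 1 * U ℤ 2 f - x ^ 1 * ((3) + (-1) * k) := by
  have h := ustep 8 (d := (1 + k) ^ 3) (p := (3) * k + (-1) * k ^ 2) (q := (-3) * k + k ^ 2) 2 hf (by simp [k_const, K_const]) (by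
    refine cancel_unit (u := (1 + K) ^ 0 * (1 + k) ^ 0) (by simp [k_const, K_const]) ?_
    simp only [map_mul, map_add, map_sub, map_pow, map_one, map_ofNat, map_neg, map_zero, Vk]
    rw [c_eq]
    exact ⟨(2) * k ^ 2 * K + (-1) * k ^ 3 + (-5) * k ^ 3 * K + (-3) * k ^ 4 + (-5) * k ^ 4 * K + (-1) * k ^ 5 + (-1) * k ^ 5 * K,
      by linear_combination ((3) + (-1) * K + (9) * k + (-3) * k * K + (24) * k ^ 2 + (8) * k ^ 3) * hG⟩)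
  exact conv 8 (2 * 2) 1 1 (by norm_num) h.2 (by simp [k_const, K_const]) ⟨0, by
    rw [map_ofNat]
    ring⟩


end Pool.Agent.K7.H67.RC
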