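import Pool.Agent.K7.H67.RC.Last

/-! Certificates (generated). -/

set_option autoImplicit false
set_option linter.unusedSimpArgs false

namespace Pool.Agent.K7.H67.RC

open PowerSeries Finset


lemma st3_G0 {f : ℤ⟦X⟧} (hf : C (4 : ℤ) ∣ (1 + k) ^ 4 * f - x ^ 0 * (k + (2) * k ^ 2 + (-1) * k ^ 3)) :
    U ℤ 2 (f - V ℤ 2 (U ℤ 2 f)) = 0 ∧ C (4 : ℤ) ∣ V ℤ 2 ((1 + k) ^ 4 * x ^ (2 * 0)) * (f - V ℤ 2 (U ℤ 2 f)) - V ℤ 2 ((1) + k ^ 2) * c := by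
  exact odd_part 4 0 (ustep 4 (d := (1 + k) ^ 4) (p := k + (2) * k ^ 2 + (-1) * k ^ 3) (q := (1) + k ^ 2) 0 hf (by simp [k_const, K_const]) (by
    refine cancel_unit (u := (1 + K) ^ 0 * (1 + k) ^ 0) (by simp [k_const, K_const]) ?_
    simp only [map_mul, map_add, map_sub, map_pow, map_one, map_ofNat, map_neg, map_zero, Vk]
    rw [c_eq]
    exact ⟨(-1) * K + (-4) * k ^ 2 * K + (-2) * k ^ 3 + (-14) * k ^ 3 * K + k ^ 4 + (28) * k ^ 4 * K + (12) * k ^ 5 + (14) * k ^ 5 * K + (-4) * k ^ 6 + (-14) * k ^ 6 * K + (-6) * k ^ 7 + (-8) * k ^ 7 * K + (-1) * k ^ 8 + (-1) * k ^ 8 * K,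
      by linear_combination ((-2) + k + (4) * k * K + k * K ^ 2 + (-8) * k ^ 2 + (4) * k ^ 2 * K + (2) * k ^ 2 * K ^ 2 + (-49) * k ^ 3 + (-16) * k ^ 3 * K + (-1) * k ^ 3 * K ^ 2 + (16) * k ^ 4 + (-4) * k ^ 4 * K + (24) * k ^ 5 + (4) * k ^ 6) * hG⟩))

lemma cA_G0 : C (8 : ℤ) ∣ (1 + k) ^ 8 * (1 + k) ^ (2 * 0) * (((1) + k ^ 2) ^ 2 * (k * (1 + k - k ^ 2))) -
    ((1 + k) ^ 4) ^ 2 * (k ^ 0 * (1 - k) ^ (2 * 0)) * (k + k ^ 2 + k ^ 3 + (2) * k ^ 4 + (-1) * k ^ 5 + k ^ 6 + (-1) * k ^ 7) := by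
  refine ⟨0, ?_⟩
  rw [map_ofNat]
  ring

lemma cB_G0 : C (8 : ℤ) ∣ V ℤ 2 ((1 + k) ^ 5) * (k ^ 0 * (k + k ^ 2 + k ^ 3 + (2) * k ^ 4 + (-1) * k ^ 5 + k ^ 6 + (-1) * k ^ 7)) -
    (1 + k) ^ 8 * (V ℤ 2 (C (4 : ℤ) * (0)) + V ℤ 2 ((1) + (-1) * k + (3) * k ^ 2 + k ^ 3) * c) := by
  refine cancel_unit (u := (1 + K) ^ 1 * (1 + k) ^ 0) (by simp [k_const, K_const]) ?_
  simp only [map_mul, map_add, map_sub, map_pow, map_one, map_ofNat, map_neg, map_zero, Vk]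
  rw [c_eq]
  exact ⟨(-1) * K + (3) * k * K + (-25) * k ^ 2 * K + (-5) * k ^ 3 + (44) * k ^ 3 * K + (13) * k ^ 4 + (110) * k ^ 4 * K + (-23) * k ^ 5 + (-112) * k ^ 5 * K + (-115) * k ^ 6 + (-258) * k ^ 6 * K + (-104) * k ^ 7 + (-463) * k ^ 7 * K + (-66) * k ^ 8 + (-70) * k ^ 8 * K + (179) * k ^ 9 + (473) * k ^ 9 * K + (241) * k ^ 10 + (469) * k ^ 10 * K + (120) * k ^ 11 + (208) * k ^ 11 * K + (2) * k ^ 12 + (-50) * k ^ 12 * K + (-60) * k ^ 13 + (-124) * k ^ 13 * K + (-42) * k ^ 14 + (-62) * k ^ 14 * K + (-11) * k ^ 15 + (-13) * k ^ 15 * K + (-1) * k ^ 16 + (-1) * k ^ 16 * K,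
      by linear_combination ((-7) + (-7) * K + (-5) * K ^ 2 + (-1) * K ^ 3 + (13) * k + (-14) * k * K + (-22) * k * K ^ 2 + (-2) * k * K ^ 3 + k * K ^ 4 + (-158) * k ^ 2 + (-197) * k ^ 2 * K + (-163) * k ^ 2 * K ^ 2 + (-31) * k ^ 2 * K ^ 3 + k ^ 2 * K ^ 4 + (113) * k ^ 3 + (-276) * k ^ 3 * K + (-366) * k ^ 3 * K ^ 2 + (-80) * k ^ 3 * K ^ 3 + k ^ 3 * K ^ 4 + (865) * k ^ 4 + (35) * k ^ 4 * K + (-455) * k ^ 4 * K ^ 2 + (-115) * k ^ 4 * K ^ 3 + (2) * k ^ 4 * K ^ 4 + (803) * k ^ 5 + (386) * k ^ 5 * K + (-418) * k ^ 5 * K ^ 2 + (-138) * k ^ 5 * K ^ 3 + (-1) * k ^ 5 * K ^ 4 + (520) * k ^ 6 + (969) * k ^ 6 * K + (-65) * k ^ 6 * K ^ 2 + (-77) * k ^ 6 * K ^ 3 + k ^ 6 * K ^ 4 + (-1433) * k ^ 7 + (544) * k ^ 7 * K + (62) * k ^ 7 * K ^ 2 + (-44) * k ^ 7 * K ^ 3 + (-1) * k ^ 7 * K ^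 4 + (-1928) * k ^ 8 + (80) * k ^ 8 * K + (112) * k ^ 8 * K ^ 2 + (-8) * k ^ 8 * K ^ 3 + (-960) * k ^ 9 + (-192) * k ^ 9 * K + (56) * k ^ 9 * K ^ 2 + (-16) * k ^ 10 + (-208) * k ^ 10 * K + (8) * k ^ 10 * K ^ 2 + (480) * k ^ 11 + (-72) * k ^ 11 * K + (336) * k ^ 12 + (-8) * k ^ 12 * K + (88) * k ^ 13 + (8) * k ^ 14) * hG⟩

lemma st3_F1 {f : ℤ⟦X⟧} (hf : C (8 : ℤ) ∣ (1 - k) ^ 2 * (1 + k) ^ 1 * f - x ^ 4 * (k + (-3) * k ^ 2)) :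
    U ℤ 2 (f - V ℤ 2 (U ℤ 2 f)) = 0 ∧ C (8 : ℤ) ∣ V ℤ 2 ((1 + k) ^ 4 * x ^ (2 * 4)) * (f - V ℤ 2 (U ℤ 2 f)) - V ℤ 2 (k ^ 2 + (-2) * k ^ 3 + (3) * k ^ 4) * c := by
  exact odd_part 8 4 (ustep 8 (d := (1 + k) ^ 4) (p := k ^ 3 + (4) * k ^ 4 + k ^ 5) (q := k ^ 2 + (-2) * k ^ 3 + (3) * k ^ 4) 4 hf (by simp [k_const, K_const]) (by
    refine cancel_unit (u := (1 + K) ^ 0 * (1 + k) ^ 0) (by simp [k_const, K_const]) ?_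
    simp only [map_mul, map_add, map_sub, map_pow, map_one, map_ofNat, map_neg, map_zero, Vk]
    rw [c_eq]
    exact ⟨(-1) * K + (7) * k * K + k ^ 2 + (-12) * k ^ 2 * K + (-5) * k ^ 3 + (-12) * k ^ 3 * K + (4) * k ^ 4 + (40) * k ^ 4 * K + (12) * k ^ 5 + (8) * k ^ 5 * K + (-13) * k ^ 6 + (-59) * k ^ 6 * K + (-14) * k ^ 7 + (8) * k ^ 7 * K + (16) * k ^ 8 + (30) * k ^ 8 * K + (4) * k ^ 9 + (-2) * k ^ 9 * K + (-4) * k ^ 10 + (-6) * k ^ 10 * K + (-1) * k ^ 11 + (-1) * k ^ 11 * K,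
      by linear_combination ((-8) + (-8) * K + (-6) * K ^ 2 + (-4) * K ^ 3 + (40) * k + (25) * k * K + (10) * k * K ^ 2 + k * K ^ 3 + (-32) * k ^ 2 + (3) * k ^ 2 * K + (12) * k ^ 2 * K ^ 2 + (7) * k ^ 2 * K ^ 3 + (-95) * k ^ 3 + (-55) * k ^ 3 * K + (-17) * k ^ 3 * K ^ 2 + (-1) * k ^ 3 * K ^ 3 + (101) * k ^ 4 + (7) * k ^ 4 * K + (-9) * k ^ 4 * K ^ 2 + (-3) * k ^ 4 * K ^ 3 + (112) * k ^ 5 + (48) * k ^ 5 * K + (8) * k ^ 5 * K ^ 2 + (-128) * k ^ 6 + (-16) * k ^ 6 * K + (-32) * k ^ 7 + (-8) * k ^ 7 * K + (32) * k ^ 8 + (8) * k ^ 9) * hG⟩))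

lemma cA_F1 : C (16 : ℤ) ∣ (1 + k) ^ 8 * (1 + k) ^ (2 * 4) * ((k ^ 2 + (-2) * k ^ 3 + (3) * k ^ 4) ^ 2 * (k * (1 + k - k ^ 2))) -
    ((1 + k) ^ 4) ^ 2 * (k ^ 4 * (1 - k) ^ (2 * 4)) * (k + (-3) * k ^ 2 + (5) * k ^ 3 + (2) * k ^ 4 + (3) * k ^ 5 + (5) * k ^ 6 + (7) * k ^ 7) := by
  refine ⟨k ^ 6 + (5) * k ^ 7 + (16) * k ^ 8 + (48) * k ^ 9 + (116) * k ^ 10 + (239) * k ^ 11 + (488) * k ^ 12 + (908) * k ^ 13 + (1414) * k ^ 14 + (1990) * k ^ 15 + (2712) * k ^ 16 + (3308) * k ^ 17 + (3212) * k ^ 18 + (2258) * k ^ 19 + (920) * k ^ 20 + (-124) * k ^ 21 + (-511) * k ^ 22 + (-395) * k ^ 23 + (-168) * k ^ 24 + (-44) * k ^ 25 + (-8) * k ^ 26 + (-1) * k ^ 27, ?_⟩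
  rw [map_ofNat]
  ring

lemma cB_F1 : C (16 : ℤ) ∣ V ℤ 2 ((1 + k) ^ 8) * (k ^ 4 * (k + (-3) * k ^ 2 + (5) * k ^ 3 + (2) * k ^ 4 + (3) * k ^ 5 + (5) * k ^ 6 + (7) * k ^ 7)) -
    (1 + k) ^ 8 * (V ℤ 2 (C (8 : ℤ) * (k ^ 7 + k ^ 8 + k ^ 9)) + V ℤ 2 (k ^ 2 + (2) * k ^ 3 + (-5) * k ^ 4 + (8) * k ^ 5 + (3) * k ^ 6 + (6) * k ^ 7 + (-7) * k ^ 8) * c) := by
  refine cancel_unit (u := (1 + K) ^ 0 * (1 + k) ^ 0) (by simp [k_const, K_const]) ?_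
  simp only [map_mul, map_add, map_sub, map_pow, map_one, map_ofNat, map_neg, map_zero, Vk]
  rw [c_eq]
  exact ⟨(-2) * K + (8) * k * K + (2) * k ^ 2 + (30) * k ^ 2 * K + (-4) * k ^ 3 + (-108) * k ^ 3 * K + (-34) * k ^ 4 + (-294) * k ^ 4 * K + (36) * k ^ 5 + (508) * k ^ 5 * K + (301) * k ^ 6 + (1603) * k ^ 6 * K + (107) * k ^ 7 + (519) * k ^ 7 * K + (-895) * k ^ 8 + (-5119) * k ^ 8 * K + (-1802) * k ^ 9 + (-3268) * k ^ 9 * K + (710) * k ^ 10 + (2360) * k ^ 10 * K + (1911) * k ^ 11 + (1967) * k ^ 11 * K + (1447) * k ^ 12 + (4429) * k ^ 12 * K + (2384) * k ^ 13 + (9802) * k ^ 13 * K + (1525) * k ^ 14 + (3509) * k ^ 14 * K + (-3346) * k ^ 15 + (-9950) * k ^ 15 * K + (-6209) * k ^ 16 + (-14587) * k ^ 16 * K + (-3990) * k ^ 17 + (-8348) * k ^ 17 * K + (338) * k ^ 18 + (1908)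 * k ^ 18 * K + (3479) * k ^ 19 + (7599) * k ^ 19 * K + (3511) * k ^ 20 + (6185) * k ^ 20 * K + (1764) * k ^ 21 + (2602) * k ^ 21 * K + (484) * k ^ 22 + (614) * k ^ 22 * K + (69) * k ^ 23 + (77) * k ^ 23 * K + (4) * k ^ 24 + (4) * k ^ 24 * K,
      by linear_combination ((-32) + (-32) * K + (-31) * K ^ 2 + (-29) * K ^ 3 + (-34) * K ^ 4 + (-26) * K ^ 5 + (-15) * K ^ 6 + (-1) * K ^ 7 + (64) * k + k * K + (-50) * k * K ^ 2 + (-95) * k * K ^ 3 + (-200) * k * K ^ 4 + (-177) * k * K ^ 5 + (-110) * k * K ^ 6 + (-1) * k * K ^ 7 + (544) * k ^ 2 + (491) * k ^ 2 * K + (383) * k ^ 2 * K ^ 2 + (162) * k ^ 2 * K ^ 3 + (-414) * k ^ 2 * K ^ 4 + (-497) * k ^ 2 * K ^ 5 + (-353) * k ^ 2 * K ^ 6 + (28) * k ^ 2 * K ^ 7 + (-575) * k ^ 3 + (386) * k ^ 3 * K + (1147) * k ^ 3 * K ^ 2 + (1204) *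 k ^ 3 * K ^ 3 + (-197) * k ^ 3 * K ^ 4 + (-722) * k ^ 3 * K ^ 5 + (-671) * k ^ 3 * K ^ 6 + (140) * k ^ 3 * K ^ 7 + (-4819) * k ^ 4 + (-3117) * k ^ 4 * K + (-40) * k ^ 4 * K ^ 2 + (2088) * k ^ 4 * K ^ 3 + (601) * k ^ 4 * K ^ 4 + (-517) * k ^ 4 * K ^ 5 + (-910) * k ^ 4 * K ^ 6 + (322) * k ^ 4 * K ^ 7 + (-1707) * k ^ 5 + (-6366) * k ^ 5 * K + (-3885) * k ^ 5 * K ^ 2 + (1130) * k ^ 5 * K ^ 3 + (1287) * k ^ 5 * K ^ 4 + (50) * k ^ 5 * K ^ 5 + (-1063) * k ^ 5 * K ^ 6 + (434) * k ^ 5 * K ^ 7 + (14322) * k ^ 6 + (-1427) * k ^ 6 * K + (-6785) * k ^ 6 * K ^ 2 + (-1738) * k ^ 6 * K ^ 3 + (1116) * k ^ 6 * K ^ 4 + (713) * k ^ 6 * K ^ 5 + (-1165) * k ^ 6 * K ^ 6 + (364) * k ^ 6 * K ^ 7 + (28835) * k ^ 7 + (15618) * k ^ 7 * K + (-895) * k ^ 7 * K ^ 2 + (-2372) * k ^ 7 * K ^ 3 + (961)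 * k ^ 7 * K ^ 4 + (1606) * k ^ 7 * K ^ 5 + (-1053) * k ^ 7 * K ^ 6 + (188) * k ^ 7 * K ^ 7 + (-11355) * k ^ 8 + (11621) * k ^ 8 * K + (1221) * k ^ 8 * K ^ 2 + (-4307) * k ^ 8 * K ^ 3 + (-649) * k ^ 8 * K ^ 4 + (2151) * k ^ 8 * K ^ 5 + (-689) * k ^ 8 * K ^ 6 + (55) * k ^ 8 * K ^ 7 + (-30569) * k ^ 9 + (7313) * k ^ 9 * K + (6323) * k ^ 9 * K ^ 2 + (-3915) * k ^ 9 * K ^ 3 + (-2811) * k ^ 9 * K ^ 4 + (1971) * k ^ 9 * K ^ 5 + (-287) * k ^ 9 * K ^ 6 + (7) * k ^ 9 * K ^ 7 + (-23152) * k ^ 10 + (4176) * k ^ 10 * K + (13456) * k ^ 10 * K ^ 2 + (320) * k ^ 10 * K ^ 3 + (-4080) * k ^ 10 * K ^ 4 + (1184) * k ^ 10 * K ^ 5 + (-64) * k ^ 10 * K ^ 6 + (-38144) * k ^ 11 + (-16352) * k ^ 11 * K + (12576) * k ^ 11 * K ^ 2 + (6000) * k ^ 11 * K ^ 3 + (-3392) * k ^ 11 * K ^ 4 + (464) * k ^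 11 * K ^ 5 + (-24400) * k ^ 12 + (-39472) * k ^ 12 * K + (-544) * k ^ 12 * K ^ 2 + (7696) * k ^ 12 * K ^ 3 + (-1984) * k ^ 12 * K ^ 4 + (64) * k ^ 12 * K ^ 5 + (53536) * k ^ 13 + (-29184) * k ^ 13 * K + (-11696) * k ^ 13 * K ^ 2 + (6304) * k ^ 13 * K ^ 3 + (-592) * k ^ 13 * K ^ 4 + (99344) * k ^ 14 + (960) * k ^ 14 * K + (-15280) * k ^ 14 * K ^ 2 + (3040) * k ^ 14 * K ^ 3 + (-64) * k ^ 14 * K ^ 4 + (63840) * k ^ 15 + (24880) * k ^ 15 * K + (-11072) * k ^ 15 * K ^ 2 + (720) * k ^ 15 * K ^ 3 + (-5408) * k ^ 16 + (30032) * k ^ 16 * K + (-4352) * k ^ 16 * K ^ 2 + (64) * k ^ 16 * K ^ 3 + (-55664) * k ^ 17 + (18208) * k ^ 17 * K + (-848) * k ^ 17 * K ^ 2 + (-56176) * k ^ 18 + (5920) * k ^ 18 * K + (-64) * k ^ 18 * K ^ 2 + (-28224) * k ^ 19 + (976) * k ^ 19 * K + (-7744) * k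 ^ 20 + (64) * k ^ 20 * K + (-1104) * k ^ 21 + (-64) * k ^ 22) * hG⟩

lemma st3_D1 {f : ℤ⟦X⟧} (hf : C (4 : ℤ) ∣ (1 + k) ^ 4 * f - x ^ 4 * ((1) + k ^ 2)) :
    U ℤ 2 (f - V ℤ 2 (U ℤ 2 f)) = 0 ∧ C (4 : ℤ) ∣ V ℤ 2 ((1 + k) ^ 4 * x ^ (2 * 4)) * (f - V ℤ 2 (U ℤ 2 f)) - V ℤ 2 ((2) * k ^ 3) * c := by
  exact odd_part 4 4 (ustep 4 (d := (1 + k) ^ 4) (p := k ^ 2 + (-1) * k ^ 3 + (-1) * k ^ 4 + (-1) * k ^ 5) (q := (2) * k ^ 3) 4 hf (by simp [k_const, K_const]) (by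
    refine cancel_unit (u := (1 + K) ^ 0 * (1 + k) ^ 0) (by simp [k_const, K_const]) ?_
    simp only [map_mul, map_add, map_sub, map_pow, map_one, map_ofNat, map_neg, map_zero, Vk]
    rw [c_eq]
    exact ⟨(-2) * k * K + (2) * k ^ 3 + (16) * k ^ 3 * K + (4) * k ^ 4 + (16) * k ^ 4 * K + (-6) * k ^ 5 + (-46) * k ^ 5 * K + (-20) * k ^ 6 + (-52) * k ^ 6 * K + (22) * k ^ 8 + (58) * k ^ 8 * K + (30) * k ^ 9 + (54) * k ^ 9 * K + (14) * k ^ 10 + (18) * k ^ 10 * K + (2) * k ^ 11 + (2) * k ^ 11 * K,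
      by linear_combination (K + K ^ 3 + (-8) * k + (-2) * k * K + (-4) * k * K ^ 2 + (4) * k * K ^ 3 + (-15) * k ^ 2 + (-12) * k ^ 2 * K + (-17) * k ^ 2 * K ^ 2 + (6) * k ^ 2 * K ^ 3 + (24) * k ^ 3 + (-2) * k ^ 3 * K + (-28) * k ^ 3 * K ^ 2 + (4) * k ^ 3 * K ^ 3 + (81) * k ^ 4 + (43) * k ^ 4 * K + (-21) * k ^ 4 * K ^ 2 + k ^ 4 * K ^ 3 + (56) * k ^ 5 * K + (-8) * k ^ 5 * K ^ 2 + (-88) * k ^ 6 + (40) * k ^ 6 * K + (-120) * k ^ 7 + (8) * k ^ 7 * K + (-56) * k ^ 8 + (-8) * k ^ 9) * hG⟩))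

lemma st3_D2 {f : ℤ⟦X⟧} (hf : C (8 : ℤ) ∣ (1 - k) ^ 2 * (1 + k) ^ 1 * f - x ^ 3 * ((4) + (-1) * k + (-1) * k ^ 2)) :
    U ℤ 2 (f - V ℤ 2 (U ℤ 2 f)) = 0 ∧ C (8 : ℤ) ∣ V ℤ 2 ((1 + k) ^ 4 * x ^ (2 * 3)) * (f - V ℤ 2 (U ℤ 2 f)) - V ℤ 2 ((4) * k + (-2) * k ^ 2) * c := by
  exact odd_part 8 3 (ustep 8 (d := (1 + k) ^ 4) (p := (-1) * k ^ 2 + (3) * k ^ 3 + (3) * k ^ 4 + k ^ 5) (q := (4) * k + (-2) * k ^ 2) 3 hf (by simp [k_const, K_const]) (by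
    refine cancel_unit (u := (1 + K) ^ 0 * (1 + k) ^ 0) (by simp [k_const, K_const]) ?_
    simp only [map_mul, map_add, map_sub, map_pow, map_one, map_ofNat, map_neg, map_zero, Vk]
    rw [c_eq]
    exact ⟨(-1) * K + (5) * k * K + k ^ 2 + (-8) * k ^ 2 * K + (-3) * k ^ 3 + (4) * k ^ 3 * K + (3) * k ^ 4 + k ^ 4 * K + (-1) * k ^ 5 + (-1) * k ^ 5 * K,
      by linear_combination ((-8) + (-5) * K + (-4) * K ^ 2 + (-1) * K ^ 3 + (28) * k + (17) * k * K + (6) * k * K ^ 2 + k * K ^ 3 + (-25) * k ^ 2 + (-5) * k ^ 2 * K + (3) * k ^ 2 * K ^ 2 + k ^ 2 * K ^ 3 + (7) * k ^ 3 + (-3) * k ^ 3 * K + (-3) * k ^ 3 * K ^ 2 + (-1) * k ^ 3 * K ^ 3) * hG⟩))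

lemma cA_D2 : C (8 : ℤ) ∣ (1 - k) ^ 2 * (1 + k) ^ 6 * (1 + k) ^ (2 * 3) * (((2) * k + (-1) * k ^ 2) ^ 2 * (k * (1 + k - k ^ 2))) -
    ((1 + k) ^ 4) ^ 2 * (k ^ 3 * (1 - k) ^ (2 * 3)) * ((4) + k ^ 2 + (-3) * k ^ 3 + (-1) * k ^ 4) := by
  refine ⟨(4) * k ^ 4 + (23) * k ^ 5 + (48) * k ^ 6 + (26) * k ^ 7 + (-66) * k ^ 8 + (-135) * k ^ 9 + (-70) * k ^ 10 + (76) * k ^ 11 + (128) * k ^ 12 + (41) * k ^ 13 + (-44) * k ^ 14 + (-38) * k ^ 15 + (-2) * k ^ 16 + (7) * k ^ 17 + (2) * k ^ 18, ?_⟩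
  rw [map_ofNat]
  ring

lemma cB_D2 : C (8 : ℤ) ∣ V ℤ 2 ((1 + k) ^ 7) * (k ^ 3 * ((4) + k ^ 2 + (-3) * k ^ 3 + (-1) * k ^ 4)) -
    (1 - k) ^ 2 * (1 + k) ^ 6 * (V ℤ 2 (C (4 : ℤ) * (k ^ 2 + k ^ 3 + k ^ 4)) + V ℤ 2 ((4) * k + k ^ 2 + (3) * k ^ 3 + (3) * k ^ 4 + k ^ 5) * c) := by
  refine cancel_unit (u := (1 + K) ^ 0 * (1 + k) ^ 0) (by simp [k_const, K_const]) ?_
  simp only [map_mul, map_add, map_sub, map_pow, map_one, map_ofNat, map_neg, map_zero, Vk]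
  rw [c_eq]
  exact ⟨(-3) * K + (-1) * k * K + (3) * k ^ 2 + (29) * k ^ 2 * K + (7) * k ^ 3 + (81) * k ^ 3 * K + (-13) * k ^ 4 + (-436) * k ^ 4 * K + (-93) * k ^ 5 + (362) * k ^ 5 * K + (234) * k ^ 6 + (290) * k ^ 6 * K + (-59) * k ^ 7 + (-65) * k ^ 7 * K + (-84) * k ^ 8 + (-370) * k ^ 8 * K + (-153) * k ^ 9 + (-465) * k ^ 9 * K + (16) * k ^ 10 + (500) * k ^ 10 * K + (268) * k ^ 11 + (452) * k ^ 11 * K + (-8) * k ^ 12 + (-236) * k ^ 12 * K + (-138) * k ^ 13 + (-214) * k ^ 13 * K + (-18) * k ^ 14 + (18) * k ^ 14 * K + (27) * k ^ 15 + (45) * k ^ 15 * K + (10) * k ^ 16 + (12) * k ^ 16 * K + k ^ 17 + k ^ 17 * K,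
      by linear_combination ((-24) + (-16) * K + (-11) * K ^ 2 + (-4) * K ^ 3 + (-1) * K ^ 4 + (-52) * k + (-47) * k * K + (-45) * k * K ^ 2 + (-19) * k * K ^ 3 + (-5) * k * K ^ 4 + (104) * k ^ 2 + (35) * k ^ 2 * K + (-34) * k ^ 2 * K ^ 2 + (-25) * k ^ 2 * K ^ 3 + (-8) * k ^ 2 * K ^ 4 + (745) * k ^ 3 + (627) * k ^ 3 * K + (351) * k ^ 3 * K ^ 2 + (133) * k ^ 3 * K ^ 3 + (32) * k ^ 3 * K ^ 4 + (4) * k ^ 3 * K ^ 5 + (-1875) * k ^ 4 + (-720) * k ^ 4 * K + (-143) * k ^ 4 * K ^ 2 + (-4) * k ^ 4 * K ^ 3 + (6) * k ^ 4 * K ^ 4 + (471) * k ^ 5 + (-94) * k ^ 5 * K + (9) * k ^ 5 * K ^ 2 + (43) * k ^ 5 * K ^ 3 + (18) * k ^ 5 * K ^ 4 + k ^ 5 * K ^ 5 + (672) * k ^ 6 + (-304) * k ^ 6 * K + (-324) * k ^ 6 * K ^ 2 + (-127) * k ^ 6 * K ^ 3 + (-26) * k ^ 6 * K ^ 4 + (-3) * k ^ 6 * K ^ 5 +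 (1224) * k ^ 7 + (604) * k ^ 7 * K + (79) * k ^ 7 * K ^ 2 + (-27) * k ^ 7 * K ^ 3 + (-11) * k ^ 7 * K ^ 4 + (-1) * k ^ 7 * K ^ 5 + (-128) * k ^ 8 + (480) * k ^ 8 * K + (208) * k ^ 8 * K ^ 2 + (32) * k ^ 8 * K ^ 3 + (-2144) * k ^ 9 + (-496) * k ^ 9 * K + (-24) * k ^ 9 * K ^ 2 + (8) * k ^ 9 * K ^ 3 + (64) * k ^ 10 + (-240) * k ^ 10 * K + (-48) * k ^ 10 * K ^ 2 + (1104) * k ^ 11 + (104) * k ^ 11 * K + (-8) * k ^ 11 * K ^ 2 + (144) * k ^ 12 + (64) * k ^ 12 * K + (-216) * k ^ 13 + (8) * k ^ 13 * K + (-80) * k ^ 14 + (-8) * k ^ 15) * hG⟩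

lemma st3_F3 {f : ℤ⟦X⟧} (hf : C (8 : ℤ) ∣ (1 - k) ^ 2 * (1 + k) ^ 1 * f - x ^ 2 * ((1) + k + (4) * k ^ 2)) :
    U ℤ 2 (f - V ℤ 2 (U ℤ 2 f)) = 0 ∧ C (8 : ℤ) ∣ V ℤ 2 ((1 + k) ^ 4 * x ^ (2 * 2)) * (f - V ℤ 2 (U ℤ 2 f)) - V ℤ 2 ((2) * k ^ 2 + (4) * k ^ 3) * c := by
  exact odd_part 8 2 (ustep 8 (d := (1 + k) ^ 4) (p := k + (-3) * k ^ 2 + (3) * k ^ 3 + k ^ 4) (q := (2) * k ^ 2 + (4) * k ^ 3) 2 hf (by simp [k_const, K_const]) (by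
    refine cancel_unit (u := (1 + K) ^ 0 * (1 + k) ^ 0) (by simp [k_const, K_const]) ?_
    simp only [map_mul, map_add, map_sub, map_pow, map_one, map_ofNat, map_neg, map_zero, Vk]
    rw [c_eq]
    exact ⟨(-1) * K + (5) * k * K + k ^ 2 + (-3) * k ^ 3 + (-20) * k ^ 3 * K + (-3) * k ^ 4 + (15) * k ^ 4 * K + (9) * k ^ 5 + (9) * k ^ 5 * K + (-2) * k ^ 6 + (-6) * k ^ 6 * K + (-2) * k ^ 7 + (-2) * k ^ 7 * K,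
      by linear_combination ((-7) + (-10) * K + (-5) * K ^ 2 + (25) * k + (10) * k * K + k * K ^ 2 + (28) * k ^ 2 + (28) * k ^ 2 * K + (10) * k ^ 2 * K ^ 2 + (-72) * k ^ 3 + (-16) * k ^ 3 * K + (16) * k ^ 4 + (16) * k ^ 5) * hG⟩))

lemma cA_F3 : C (8 : ℤ) ∣ (1 + k) ^ 8 * (1 + k) ^ (2 * 2) * ((k ^ 2 + (2) * k ^ 3) ^ 2 * (k * (1 + k - k ^ 2))) -
    ((1 + k) ^ 4) ^ 2 * (k ^ 2 * (1 - k) ^ (2 * 2)) * (k ^ 3 + (-3) * k ^ 4 + (-1) * k ^ 5 + (4) * k ^ 7) := by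
  refine ⟨(2) * k ^ 6 + (18) * k ^ 7 + (82) * k ^ 8 + (254) * k ^ 9 + (584) * k ^ 10 + (1007) * k ^ 11 + (1276) * k ^ 12 + (1135) * k ^ 13 + (626) * k ^ 14 + (96) * k ^ 15 + (-166) * k ^ 16 + (-172) * k ^ 17 + (-92) * k ^ 18 + (-33) * k ^ 19 + (-8) * k ^ 20 + (-1) * k ^ 21, ?_⟩
  rw [map_ofNat]
  ring

lemma cB_F3 : C (8 : ℤ) ∣ V ℤ 2 ((1 + k) ^ 7) * (k ^ 2 * (k ^ 3 + (-3) * k ^ 4 + (-1) * k ^ 5 + (4) * k ^ 7)) -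
    (1 + k) ^ 8 * (V ℤ 2 (C (4 : ℤ) * (k ^ 5 + k ^ 6 + k ^ 7)) + V ℤ 2 (k ^ 2 + (3) * k ^ 3 + (3) * k ^ 4 + k ^ 5 + (4) * k ^ 6) * c) := by
  refine cancel_unit (u := (1 + K) ^ 0 * (1 + k) ^ 0) (by simp [k_const, K_const]) ?_
  simp only [map_mul, map_add, map_sub, map_pow, map_one, map_ofNat, map_neg, map_zero, Vk]
  rw [c_eq]
  exact ⟨(-3) * K + k * K + (3) * k ^ 2 + (53) * k ^ 2 * K + (5) * k ^ 3 + (33) * k ^ 3 * K + (-37) * k ^ 4 + (-356) * k ^ 4 * K + (-91) * k ^ 5 + (-474) * k ^ 5 * K + (126) * k ^ 6 + (946) * k ^ 6 * K + (547) * k ^ 7 + (3023) * k ^ 7 * K + (220) * k ^ 8 + (-550) * k ^ 8 * K + (-1732) * k ^ 9 + (-6746) * k ^ 9 * K + (-2053) * k ^ 10 + (-5765) * k ^ 10 * K + (764) * k ^ 11 + (3972) * k ^ 11 * K + (3944) * k ^ 12 + (10244) * k ^ 12 * K + (3227) *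 k ^ 13 + (6425) * k ^ 13 * K + (13) * k ^ 14 + (-675) * k ^ 14 * K + (-2162) * k ^ 15 + (-4698) * k ^ 15 * K + (-2389) * k ^ 16 + (-4391) * k ^ 16 * K + (-1391) * k ^ 17 + (-2151) * k ^ 17 * K + (-450) * k ^ 18 + (-590) * k ^ 18 * K + (-75) * k ^ 19 + (-85) * k ^ 19 * K + (-5) * k ^ 20 + (-5) * k ^ 20 * K,
      by linear_combination ((-24) + (-24) * K + (-23) * K ^ 2 + (-20) * K ^ 3 + (-13) * K ^ 4 + (-8) * K ^ 5 + (-40) * k + (-87) * k * K + (-121) * k * K ^ 2 + (-131) * k * K ^ 3 + (-97) * k * K ^ 4 + (-68) * k * K ^ 5 + (296) * k ^ 2 + (83) * k ^ 2 * K + (-142) * k ^ 2 * K ^ 2 + (-305) * k ^ 2 * K ^ 3 + (-292) * k ^ 2 * K ^ 4 + (-256) * k ^ 2 * K ^ 5 + (729) * k ^ 3 + (715) * k ^ 3 * K + (347) * k ^ 3 * K ^ 2 + (-155) * k ^ 3 * K ^ 3 + (-400) * k ^ 3 * K ^ 4 + (-560)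 * k ^ 3 * K ^ 5 + (-1011) * k ^ 4 + (416) * k ^ 4 * K + (957) * k ^ 4 * K ^ 2 + (596) * k ^ 4 * K ^ 3 + (-38) * k ^ 4 * K ^ 4 + (-784) * k ^ 4 * K ^ 5 + (-4377) * k ^ 5 + (-2434) * k ^ 5 * K + (-27) * k ^ 5 * K ^ 2 + (1163) * k ^ 5 * K ^ 3 + (778) * k ^ 5 * K ^ 4 + (-727) * k ^ 5 * K ^ 5 + (-1760) * k ^ 6 + (-5136) * k ^ 6 * K + (-3280) * k ^ 6 * K ^ 2 + (129) * k ^ 6 * K ^ 3 + (1346) * k ^ 6 * K ^ 4 + (-451) * k ^ 6 * K ^ 5 + (13860) * k ^ 7 + (1176) * k ^ 7 * K + (-4093) * k ^ 7 * K ^ 2 + (-1667) * k ^ 7 * K ^ 3 + (1265) * k ^ 7 * K ^ 4 + (-177) * k ^ 7 * K ^ 5 + (16424) * k ^ 8 + (10368) * k ^ 8 * K + (-936) * k ^ 8 * K ^ 2 + (-2744) * k ^ 8 * K ^ 3 + (720) * k ^ 8 * K ^ 4 + (-40) * k ^ 8 * K ^ 5 + (-6112) * k ^ 9 + (11624) * k ^ 9 * K + (3856) * k ^ 9 * K ^ 2 + (-2168)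 * k ^ 9 * K ^ 3 + (280) * k ^ 9 * K ^ 4 + (-31552) * k ^ 10 + (1128) * k ^ 10 * K + (5160) * k ^ 10 * K ^ 2 + (-1200) * k ^ 10 * K ^ 3 + (40) * k ^ 10 * K ^ 4 + (-25816) * k ^ 11 + (-8080) * k ^ 11 * K + (3928) * k ^ 11 * K ^ 2 + (-360) * k ^ 11 * K ^ 3 + (-104) * k ^ 12 + (-9976) * k ^ 12 * K + (1840) * k ^ 12 * K ^ 2 + (-40) * k ^ 12 * K ^ 3 + (17296) * k ^ 13 + (-6808) * k ^ 13 * K + (440) * k ^ 13 * K ^ 2 + (19112) * k ^ 14 + (-2640) * k ^ 14 * K + (40) * k ^ 14 * K ^ 2 + (11128) * k ^ 15 + (-520) * k ^ 15 * K + (3600) * k ^ 16 + (-40) * k ^ 16 * K + (600) * k ^ 17 + (40) * k ^ 18) * hG⟩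

lemma st3_F4 {f : ℤ⟦X⟧} (hf : C (4 : ℤ) ∣ (1 + k) ^ 4 * f - x ^ 1 * (k + k ^ 3)) :
    U ℤ 2 (f - V ℤ 2 (U ℤ 2 f)) = 0 ∧ C (4 : ℤ) ∣ V ℤ 2 ((1 + k) ^ 4 * x ^ (2 * 1)) * (f - V ℤ 2 (U ℤ 2 f)) - V ℤ 2 ((2) * k) * c := by
  exact odd_part 4 1 (ustep 4 (d := (1 + k) ^ 4) (p := k + (-1) * k ^ 2 + k ^ 3 + k ^ 4) (q := (2) * k) 1 hf (by simp [k_const, K_const]) (by
    refine cancel_unit (u := (1 + K) ^ 0 * (1 + k) ^ 0) (by simp [k_const, K_const]) ?_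
    simp only [map_mul, map_add, map_sub, map_pow, map_one, map_ofNat, map_neg, map_zero, Vk]
    rw [c_eq]
    exact ⟨(-1) * K + (-2) * k * K + k ^ 2 + (5) * k ^ 2 * K + (2) * k ^ 3 + (-6) * k ^ 3 * K + (-2) * k ^ 4 + (-1) * k ^ 4 * K + k ^ 5 + (-11) * k ^ 5 * K + (-1) * k ^ 6 + (5) * k ^ 6 * K + (8) * k ^ 7 + (18) * k ^ 7 * K + (6) * k ^ 8 + (8) * k ^ 8 * K + k ^ 9 + k ^ 9 * K,
      by linear_combination ((-3) + (-2) * K + (-1) * K ^ 2 + (-8) * k + (-6) * k * K + (-4) * k * K ^ 2 + (9) * k ^ 2 + (2) * k ^ 2 * K + (-5) * k ^ 2 * K ^ 2 + (-4) * k ^ 3 + (6) * k ^ 3 * K + (-4) * k ^ 3 * K ^ 2 + (4) * k ^ 4 + (16) * k ^ 4 * K + (-32) * k ^ 5 + (4) * k ^ 5 * K + (-24) * k ^ 6 + (-4) * k ^ 7) * hG⟩))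

lemma st3_D4 {f : ℤ⟦X⟧} (hf : C (8 : ℤ) ∣ (1 - k) ^ 2 * (1 + k) ^ 1 * f - x ^ 1 * ((3) + (-1) * k)) :
    U ℤ 2 (f - V ℤ 2 (U ℤ 2 f)) = 0 ∧ C (8 : ℤ) ∣ V ℤ 2 ((1 + k) ^ 4 * x ^ (2 * 1)) * (f - V ℤ 2 (U ℤ 2 f)) - V ℤ 2 ((3) + (2) * k + k ^ 2) * c := by
  exact odd_part 8 1 (ustep 8 (d := (1 + k) ^ 4) (p := (-1) * k + (4) * k ^ 2 + (-1) * k ^ 3) (q := (3) + (2) * k + k ^ 2) 1 hf (by simp [k_const, K_const]) (by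
    refine cancel_unit (u := (1 + K) ^ 0 * (1 + k) ^ 0) (by simp [k_const, K_const]) ?_
    simp only [map_mul, map_add, map_sub, map_pow, map_one, map_ofNat, map_neg, map_zero, Vk]
    rw [c_eq]
    exact ⟨(-1) * K + (7) * k * K + k ^ 2 + (-12) * k ^ 2 * K + (-4) * k ^ 3 + (3) * k ^ 3 * K + (4) * k ^ 4 + (6) * k ^ 4 * K + (-2) * k ^ 5 * K + (-1) * k ^ 6 + (-1) * k ^ 6 * K,
      by linear_combination ((-6) + (35) * k + (14) * k * K + (3) * k * K ^ 2 + (-35) * k ^ 2 + (-10) * k ^ 2 * K + (-1) * k ^ 2 * K ^ 2 + (8) * k ^ 4) * hG⟩))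

lemma cA_D4 : C (16 : ℤ) ∣ (1 + k) ^ 8 * (1 + k) ^ (2 * 1) * (((3) + (2) * k + k ^ 2) ^ 2 * (k * (1 + k - k ^ 2))) -
    ((1 + k) ^ 4) ^ 2 * (k ^ 1 * (1 - k) ^ (2 * 1)) * ((-7) + (-7) * k + (-7) * k ^ 2 + (-6) * k ^ 3 + (7) * k ^ 4 + (-7) * k ^ 5 + (-1) * k ^ 6) := by
  refine ⟨k + (10) * k ^ 2 + (48) * k ^ 3 + (147) * k ^ 4 + (318) * k ^ 5 + (505) * k ^ 6 + (594) * k ^ 7 + (510) * k ^ 8 + (297) * k ^ 9 + (76) * k ^ 10 + (-56) * k ^ 11 + (-81) * k ^ 12 + (-48) * k ^ 13 + (-15) * k ^ 14 + (-2) * k ^ 15, ?_⟩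
  rw [map_ofNat]
  ring

lemma cB_D4 : C (16 : ℤ) ∣ V ℤ 2 ((1 + k) ^ 8) * (k ^ 1 * ((-7) + (-7) * k + (-7) * k ^ 2 + (-6) * k ^ 3 + (7) * k ^ 4 + (-7) * k ^ 5 + (-1) * k ^ 6)) -
    (1 + k) ^ 8 * (V ℤ 2 (C (8 : ℤ) * (k + k ^ 2 + k ^ 3)) + V ℤ 2 ((-7) + (2) * k + (3) * k ^ 2 + (8) * k ^ 3 + (-5) * k ^ 4 + (6) * k ^ 5 + k ^ 6) * c) := by
  refine cancel_unit (u := (1 + K) ^ 0 * (1 + k) ^ 0) (by simp [k_const, K_const]) ?_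
  simp only [map_mul, map_add, map_sub, map_pow, map_one, map_ofNat, map_neg, map_zero, Vk]
  rw [c_eq]
  exact ⟨(-2) * K + (-120) * k * K + (5) * k ^ 2 + (563) * k ^ 2 * K + (132) * k ^ 3 + (-602) * k ^ 3 * K + (-298) * k ^ 4 + (-512) * k ^ 4 * K + (216) * k ^ 5 + (1570) * k ^ 5 * K + (452) * k ^ 6 + (-786) * k ^ 6 * K + (-469) * k ^ 7 + (1835) * k ^ 7 * K + (495) * k ^ 8 + (-953) * k ^ 8 * K + (-1386) * k ^ 9 + (-4268) * k ^ 9 * K + (-730) * k ^ 10 + (1056) * k ^ 10 * K + (1080) * k ^ 11 + (454) * k ^ 11 * K + (-80) * k ^ 12 + (-982) * k ^ 12 * K + (420) * k ^ 13 + (2038) * k ^ 13 * K + (1244) * k ^ 14 + (2358) * k ^ 14 * K + (483) * k ^ 15 + (419) * k ^ 15 * K + (-133) * k ^ 16 + (-327) * k ^ 16 * K + (-122) * k ^ 17 + (-172) * k ^ 17 * K + (-27) * k ^ 18 + (-31) *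 k ^ 18 * K + (-2) * k ^ 19 + (-2) * k ^ 19 * K,
      by linear_combination ((-31) + (-21) * K + (-10) * K ^ 2 + (-2) * K ^ 3 + (-7) * K ^ 4 + (-1) * K ^ 5 + (-1923) * k + (-1684) * k * K + (-1213) * k * K ^ 2 + (-660) * k * K ^ 3 + (-321) * k * K ^ 4 + (-72) * k * K ^ 5 + (-7) * k * K ^ 6 + (5154) * k ^ 2 + (2271) * k ^ 2 * K + (621) * k ^ 2 * K ^ 2 + (30) * k ^ 2 * K ^ 3 + (-360) * k ^ 2 * K ^ 4 + (-85) * k ^ 2 * K ^ 5 + (-7) * k ^ 2 * K ^ 6 + (-2959) * k ^ 3 + (-418) * k ^ 3 * K + (267) * k ^ 3 * K ^ 2 + (368) * k ^ 3 * K ^ 3 + (-605) * k ^ 3 * K ^ 4 + (-126) * k ^ 3 * K ^ 5 + (-7) * k ^ 3 * K ^ 6 + (-6847) * k ^ 4 + (-3643) * k ^ 4 * K + (-736) * k ^ 4 * K ^ 2 + (818) * k ^ 4 * K ^ 3 + (-795) * k ^ 4 * K ^ 4 + (-159) * k ^ 4 * K ^ 5 + (-6) * k ^ 4 * K ^ 6 + (7699)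 * k ^ 5 + (976) * k ^ 5 * K + (1133) * k ^ 5 * K ^ 2 + (2700) * k ^ 5 * K ^ 3 + (-223) * k ^ 5 * K ^ 4 + (-44) * k ^ 5 * K ^ 5 + (7) * k ^ 5 * K ^ 6 + (-7864) * k ^ 6 + (-9535) * k ^ 6 * K + (-5871) * k ^ 6 * K ^ 2 + (434) * k ^ 6 * K ^ 3 + (-658) * k ^ 6 * K ^ 4 + (-155) * k ^ 6 * K ^ 5 + (-7) * k ^ 6 * K ^ 6 + (22183) * k ^ 7 + (5470) * k ^ 7 * K + (-1987) * k ^ 7 * K ^ 2 + (1576) * k ^ 7 * K ^ 3 + (37) * k ^ 7 * K ^ 4 + (-38) * k ^ 7 * K ^ 5 + (-1) * k ^ 7 * K ^ 6 + (11680) * k ^ 8 + (7264) * k ^ 8 * K + (-2048) * k ^ 8 * K ^ 2 + (912) * k ^ 8 * K ^ 3 + (176) * k ^ 8 * K ^ 4 + (-17280) * k ^ 9 + (736) * k ^ 9 * K + (-3760) * k ^ 9 * K ^ 2 + (-320) * k ^ 9 * K ^ 3 + (32) * k ^ 9 * K ^ 4 + (1280) * k ^ 10 + (7968) * k ^ 10 * K + (-688) * k ^ 10 * K ^ 2 + (-240) * k ^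 10 * K ^ 3 + (-6720) * k ^ 11 + (6192) * k ^ 11 * K + (736) * k ^ 11 * K ^ 2 + (-32) * k ^ 11 * K ^ 3 + (-19904) * k ^ 12 + (-240) * k ^ 12 * K + (304) * k ^ 12 * K ^ 2 + (-7728) * k ^ 13 + (-1280) * k ^ 13 * K + (32) * k ^ 13 * K ^ 2 + (2128) * k ^ 14 + (-368) * k ^ 14 * K + (1952) * k ^ 15 + (-32) * k ^ 15 * K + (432) * k ^ 16 + (32) * k ^ 17) * hG⟩


end Pool.Agent.K7.H67.RC
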