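import Pool.Agent.K7.H67.RC.St1
import Pool.Agent.K7.H67.RC.St2
import Pool.Agent.K7.H67.RC.St3

/-! The chains modulo eight. -/

set_option autoImplicit false

namespace Pool.Agent.K7.H67.RC

open PowerSeries Finset

lemma cancel_V {m : ℤ} {d o : ℤ⟦X⟧} (e : ℕ) (hd : constantCoeff d = 1)
    (h : C m ∣ V ℤ 2 (d * x ^ e) * o) : C m ∣ o := by
  have h1 : V ℤ 2 (d * x ^ e) * o = X ^ (2 * e) * (V ℤ 2 (d * xu ^ e) * o) := by
    rw [x_eq, mul_pow, map_mul, map_mul, map_mul, map_pow, V_X, ← pow_mul]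
    ring
  rw [h1] at h
  refine cancel_unit ?_ (cancel_Xpow _ h)
  rw [V_const, map_mul, hd, map_pow, xu_const, one_pow, one_mul]

lemma C_ne {m : ℤ} (hm : m ≠ 0) {f : ℤ⟦X⟧} (h : C m * f = 0) : f = 0 := by
  ext n
  have := congrArg (coeff n) h
  rw [coeff_C_mul, map_zero] at this
  rw [map_zero]
  exact (mul_eq_zero.1 this).resolve_left hm

/-- halving an odd part -/
lemma half {m : ℤ} {o d q : ℤ⟦X⟧} (e : ℕ) (hd : constantCoeff d = 1) (ho : U ℤ 2 o = 0)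
    (h : C (2 * m) ∣ V ℤ 2 (d * x ^ e) * o - V ℤ 2 (C 2 * q) * c) :
    ∃ o', o = C 2 * o' ∧ U ℤ 2 o' = 0 ∧ C m ∣ V ℤ 2 (d * x ^ e) * o' - V ℤ 2 q * c := by
  rw [map_mul (V ℤ 2) (C 2) q, V_C] at h
  have h1 : C 2 ∣ V ℤ 2 (d * x ^ e) * o := by
    have e1 : V ℤ 2 (d * x ^ e) * o = (V ℤ 2 (d * x ^ e) * o - C 2 * V ℤ 2 q * c) + C 2 * (V ℤ 2 q * c) := by
      ring
    rw [e1]
    refine dvd_add (dvd_trans ?_ h) (dvd_mul_right _ _)
    rw [map_mul]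
    exact dvd_mul_right _ _
  obtain ⟨o', ho'⟩ := cancel_V e hd h1
  refine ⟨o', ho', ?_, ?_⟩
  · rw [ho', U_C_mul] at ho
    exact C_ne (by norm_num) ho
  · apply dvd_cancel_C (a := 2) (by norm_num)
    have e2 : C 2 * (V ℤ 2 (d * x ^ e) * o' - V ℤ 2 q * c) =
      V ℤ 2 (d * x ^ e) * o - C 2 * V ℤ 2 q * c := by
      rw [ho']
      ring
    rw [e2]
    exact h

/-- halving a congruence -/
lemma half0 {m : ℤ} {f D N : ℤ⟦X⟧} (j : ℕ) (hD : constantCoeff D = 1)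
    (h : C (2 * m) ∣ D * f - x ^ j * (C 2 * N)) :
    ∃ g, f = C 2 * g ∧ C m ∣ D * g - x ^ j * N := by
  have h1 : C 2 ∣ D * f := by
    have e1 : D * f = (D * f - x ^ j * (C 2 * N)) + C 2 * (x ^ j * N) := by
      ring
    rw [e1]
    refine dvd_add (dvd_trans ?_ h) (dvd_mul_right _ _)
    rw [map_mul]
    exact dvd_mul_right _ _
  obtain ⟨g, hg⟩ := cancel_unit hD h1
  refine ⟨g, hg, ?_⟩
  apply dvd_cancel_C (a := 2) (by norm_num)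
  have e2 : C 2 * (D * g - x ^ j * N) = D * f - x ^ j * (C 2 * N) := by
    rw [hg]
    ring
  rw [e2]
  exact h

lemma kd : m2 k = k' := rfl

lemma e4 : (x' * b') ^ 4 = (X * a') ^ 4 := by rw [xb']

lemma dne (i j : ℕ) : (1 + k') ^ i * x' ^ j ≠ 0 :=
  mul_ne_zero (pow_ne_zero _ k1_ne) (pow_ne_zero _ x'_ne)

theorem last1' (r : ℕ) (ma mb : ℤ) (hma : ma = 2 ^ (r + 1)) (hmb : mb = 2 ^ (r + 2))
    {o d q : ℤ⟦X⟧} (j : ℕ) (ho : U ℤ 2 o = 0)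
    (h : C ma ∣ V ℤ 2 (d * x ^ (2 * j)) * o - V ℤ 2 q * c)
    (hd : constantCoeff d = 1) {DH NH dH wH qH : ℤ⟦X⟧} (jH nH : ℕ) (hn : 4 * j + jH = 5 * nH)
    (certA : C mb ∣ DH * (1 + k) ^ (2 * nH) * (q ^ 2 * (k * (1 + k - k ^ 2))) -
      d ^ 2 * (k ^ nH * (1 - k) ^ (2 * nH)) * NH)
    (hDH : constantCoeff DH = 1) (hdH : constantCoeff dH = 1)
    (certB : C mb ∣ V ℤ 2 dH * (k ^ jH * NH) -
      DH * (V ℤ 2 (C ma * wH) + V ℤ 2 qH * c))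
    {s T : (ZMod 2)⟦X⟧} (hs : m2 o = X * s ^ 4) (hs0 : s ≠ 0)
    (hw : ∀ w : (ZMod 2)⟦X⟧, m2 dH * x' ^ (2 * jH) * w = m2 wH → w = X * s * T ^ 2) (n : ℕ) :
    (2 : ℤ) ^ r ∣ coeff (4 * n + 3) o ∧ (2 : ℤ) ^ (r + 1) ∣ coeff (8 * n + 7) o := by
  subst hma
  subst hmb
  exact last1 r j ho h hd jH nH hn certA hDH hdH certB (by rw [V_four]; exact hs) hs0
    (fun w hw' => hw (m2 w) hw') n

lemma cK : constantCoeff ((1 + k) ^ 4) = 1 := by simp [k_const]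

/-- the coefficients of the iterated images -/
lemma coeff_UU (g : ℤ⟦X⟧) (n : ℕ) (hn : n % 2 = 1) :
    coeff n (U ℤ 2 g - V ℤ 2 (U ℤ 2 (U ℤ 2 g))) = coeff (2 * n) g := by
  rw [coeff_odd_part _ _ hn, coeff_U]

/-- the inverse of `1 + k` modulo two -/
noncomputable def ik : (ZMod 2)⟦X⟧ := m2 (iv (1 + k))

lemma hik : (1 + k') * ik = 1 := by
  have := congrArg m2 (mul_iv (f := 1 + k) (by simp [k_const]))
  rwa [map_mul, map_add, map_one] at this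

/-- the inverse of `b` modulo two -/
noncomputable def jb : (ZMod 2)⟦X⟧ := m2 (iv (V ℤ 5 sB))

lemma hjb : b' * jb = 1 := by
  have := congrArg m2 (mul_iv (f := V ℤ 5 sB) (by rw [V_const, sB_const]))
  rwa [map_mul, map_one] at this

lemma ik_ne : ik ≠ 0 := by
  intro h
  have := hik
  rw [h, mul_zero] at this
  exact zero_ne_one this

lemma jb_ne : jb ≠ 0 := by
  intro h
  have := hjb
  rw [h, mul_zero] at this
  exact zero_ne_one this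

lemma hik_pow (n : ℕ) : (1 + k') ^ n * ik ^ n = 1 := by rw [← mul_pow, hik, one_pow]

lemma hjb_pow (n : ℕ) : b' ^ n * jb ^ n = 1 := by rw [← mul_pow, hjb, one_pow]

lemma hxb_pow (n : ℕ) : x' ^ n * b' ^ n = X ^ n * a' ^ n := by rw [← mul_pow, xb', mul_pow]

theorem lv_F1 {g : ℤ⟦X⟧} (hg : C (8 : ℤ) ∣ (1 + k) ^ 2 * g - x ^ 3 * ((-1) + (3) * k)) (n : ℕ) :
    (4 : ℤ) ∣ coeff (8 * n + 6) g ∧ (8 : ℤ) ∣ coeff (16 * n + 14) g := by
  have h2 := st2_F1 hg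
  obtain ⟨ho, h3⟩ := st3_F1 h2
  have hm := o_m2 (by norm_num) 4 h3
  simp only [map_mul, map_add, map_pow, map_one, map_neg, map_ofNat, kd] at hm
  have hs : m2 (U ℤ 2 g - V ℤ 2 (U ℤ 2 (U ℤ 2 g))) = X * (X ^ 2 * a' ^ 2) ^ 4 := by
    rw [← pow_mul] at hm
    apply mul_left_cancel₀ (dne 8 16)
    refine hm.trans ?_
    have e : k' ^ 2 + (-2) * k' ^ 3 + 3 * k' ^ 4 = k' ^ 2 * (1 + k') ^ 2 := by
      linear_combination (-2 * k' ^ 3 + k' ^ 4) * two_eq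
    rw [star, e, kx']
    linear_combination ((1 + x' ^ 5) ^ 8 * x' ^ 16 * X ^ 5 * a' ^ 4) * e4
  have hl := last1' 2 8 16 (by norm_num) (by norm_num) 4 ho h3 cK 4 4 (by norm_num) cA_F1
    (by simp [k_const]) (by simp [k_const]) cB_F1 hs
    (mul_ne_zero (pow_ne_zero _ PowerSeries.X_ne_zero) (pow_ne_zero _ a'_ne))
    (T := x' ^ 11 * (X * a' * b' ^ 2) * ik ^ 2) (by
      intro w hw
      simp only [map_add, map_pow, map_one, kd] at hw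
      apply mul_left_cancel₀ (dne 8 8)
      refine hw.trans ?_
      have e5 : k' ^ 7 + k' ^ 8 + k' ^ 9 = k' ^ 6 * (k' * (1 + k' + k' ^ 2)) := by ring
      have e6 := hik_pow 4
      rw [e5, star]
      have e8 : k' ^ 6 = x' ^ 30 := by rw [kx']; ring
      rw [e8]
      linear_combination (-((1 + k') ^ 4 * x' ^ 30 * X ^ 5 * a' ^ 4 * b' ^ 4)) * e6) n
  have c1 := coeff_UU g (4 * n + 3) (by omega)
  have c2 := coeff_UU g (8 * n + 7) (by omega)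
  rw [show 8 * n + 6 = 2 * (4 * n + 3) by ring, show 16 * n + 14 = 2 * (8 * n + 7) by ring, ← c1, ← c2]
  norm_num at hl
  exact hl

theorem lv_D4 {g : ℤ⟦X⟧} (hg : C (8 : ℤ) ∣ (1 + k) ^ 2 * g - x ^ 2 * ((3) + k)) (n : ℕ) :
    (4 : ℤ) ∣ coeff (8 * n + 6) g ∧ (8 : ℤ) ∣ coeff (16 * n + 14) g := by
  have h2 := st2_D4 hg
  obtain ⟨ho, h3⟩ := st3_D4 h2
  have hm := o_m2 (by norm_num) 1 h3
  simp only [map_mul, map_add, map_pow, map_one, map_ofNat, kd] at hm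
  have hs : m2 (U ℤ 2 g - V ℤ 2 (U ℤ 2 (U ℤ 2 g))) = X * (b' ^ 2) ^ 4 := by
    rw [← pow_mul] at hm
    apply mul_left_cancel₀ (dne 8 4)
    refine hm.trans ?_
    have e : 3 + 2 * k' + k' ^ 2 = (1 + k') ^ 2 := by
      linear_combination two_eq
    rw [star, e]
    linear_combination (-((1 + k') ^ 8 * X * b' ^ 4)) * e4
  have hl := last1' 2 8 16 (by norm_num) (by norm_num) 1 ho h3 cK 1 1 (by norm_num) cA_D4
    (by simp [k_const]) (by simp [k_const]) cB_D4 hs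
    (pow_ne_zero _ b'_ne)
    (T := X * a' * b' ^ 2 * ik ^ 2) (by
      intro w hw
      simp only [map_add, map_pow, map_one, kd] at hw
      apply mul_left_cancel₀ (dne 8 2)
      refine hw.trans ?_
      have e5 : k' + k' ^ 2 + k' ^ 3 = (k' * (1 + k' + k' ^ 2)) := by ring
      have e6 := hik_pow 4
      have e7 := hxb_pow 2
      rw [e5, star]
      linear_combination (-((1 + k') ^ 4 * x' ^ 2 * X ^ 3 * a' ^ 2 * b' ^ 6)) * e6 -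
        ((1 + k') ^ 4 * X ^ 3 * a' ^ 2 * b' ^ 4) * e7) n
  have c1 := coeff_UU g (4 * n + 3) (by omega)
  have c2 := coeff_UU g (8 * n + 7) (by omega)
  rw [show 8 * n + 6 = 2 * (4 * n + 3) by ring, show 16 * n + 14 = 2 * (8 * n + 7) by ring, ← c1, ← c2]
  norm_num at hl
  exact hl

theorem lv_D2 {g : ℤ⟦X⟧} (hg : C (8 : ℤ) ∣ (1 + k) ^ 2 * g - x ^ 1 * ((1) + (-1) * k)) (n : ℕ) :
    (4 : ℤ) ∣ coeff (8 * n + 6) g ∧ (8 : ℤ) ∣ coeff (16 * n + 14) g := by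
  have h2 := st2_D2 hg
  obtain ⟨ho, h3⟩ := st3_D2 h2
  have hq : ((4) * k + (-2) * k ^ 2 : ℤ⟦X⟧) = C 2 * ((2) * k + (-1) * k ^ 2) := by
    rw [map_ofNat]
    ring
  rw [hq, show (8 : ℤ) = 2 * 4 by norm_num] at h3
  obtain ⟨o, ho', hU, h4⟩ := half (2 * 3) cK ho h3
  have hm := o_m2 (by norm_num) 3 h4
  simp only [map_mul, map_add, map_pow, map_one, map_neg, map_ofNat, kd] at hm
  have hs : m2 o = X * (X ^ 3 * a' ^ 3 * jb * ik) ^ 4 := by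
    rw [← pow_mul] at hm
    apply mul_left_cancel₀ (dne 8 12)
    refine hm.trans ?_
    have e : 2 * k' + (-1) * k' ^ 2 = k' ^ 2 := by
      linear_combination (k' - k' ^ 2) * two_eq
    have e1 := hik_pow 4
    have e2 := hjb_pow 4
    have e3 := hxb_pow 8
    have e5 : k' ^ 4 = x' ^ 20 := by rw [kx']; ring
    rw [star, e]
    linear_combination (X ^ 5 * (a' * b') ^ 4 * (1 + k') ^ 4) * e5 +
      (-((1 + k') ^ 4 * x' ^ 20 * X ^ 5 * a' ^ 4 * b' ^ 4)) * e2 +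
      ((1 + k') ^ 4 * x' ^ 12 * X ^ 5 * a' ^ 4 * jb ^ 4) * e3 +
      (-((1 + k') ^ 4 * x' ^ 12 * X ^ 13 * a' ^ 12 * jb ^ 4)) * e1
  have hl := last1' 1 4 8 (by norm_num) (by norm_num) 3 hU h4 cK 3 3 (by norm_num) cA_D2
    (by simp [k_const]) (by simp [k_const]) cB_D2 hs
    (mul_ne_zero (mul_ne_zero (mul_ne_zero (pow_ne_zero _ PowerSeries.X_ne_zero) (pow_ne_zero _ a'_ne)) jb_ne) ik_ne)
    (T := b' ^ 3 * ik) (by
      intro w hw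
      simp only [map_add, map_pow, map_one, kd] at hw
      apply mul_left_cancel₀ (dne 7 6)
      refine hw.trans ?_
      have e5 : k' ^ 2 + k' ^ 3 + k' ^ 4 = k' * (k' * (1 + k' + k' ^ 2)) := by ring
      have e1 := hik_pow 3
      have e2 := hjb
      have e3 := xb'
      rw [e5, star]
      linear_combination (X ^ 5 * (a' * b') ^ 4 * (1 + k') ^ 4) * kx' +
        (-((1 + k') ^ 7 * x' ^ 6 * X ^ 4 * a' ^ 3 * b' ^ 5 * ik ^ 3)) * e2 -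
        ((1 + k') ^ 4 * x' ^ 6 * X ^ 4 * a' ^ 3 * b' ^ 5) * e1 -
        ((1 + k') ^ 4 * x' ^ 5 * X ^ 4 * a' ^ 3 * b' ^ 4) * e3) n
  have c1 := coeff_UU g (4 * n + 3) (by omega)
  have c2 := coeff_UU g (8 * n + 7) (by omega)
  rw [show 8 * n + 6 = 2 * (4 * n + 3) by ring, show 16 * n + 14 = 2 * (8 * n + 7) by ring, ← c1, ← c2,
    ho', coeff_C_mul, coeff_C_mul]
  norm_num at hl
  obtain ⟨⟨u, hu⟩, ⟨v, hv⟩⟩ := hl
  rw [hu, hv]
  exact ⟨⟨u, by ring⟩, ⟨v, by ring⟩⟩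

theorem lv_F3 {g : ℤ⟦X⟧} (hg : C (8 : ℤ) ∣ (1 + k) * g - x ^ 4 * ((1))) (n : ℕ) :
    (4 : ℤ) ∣ coeff (8 * n + 6) g ∧ (8 : ℤ) ∣ coeff (16 * n + 14) g := by
  have h2 := st2_F3 hg
  obtain ⟨ho, h3⟩ := st3_F3 h2
  have hq : ((2) * k ^ 2 + (4) * k ^ 3 : ℤ⟦X⟧) = C 2 * (k ^ 2 + (2) * k ^ 3) := by
    rw [map_ofNat]
    ring
  rw [hq, show (8 : ℤ) = 2 * 4 by norm_num] at h3
  obtain ⟨o, ho', hU, h4⟩ := half (2 * 2) cK ho h3
  have hm := o_m2 (by norm_num) 2 h4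
  simp only [map_mul, map_add, map_pow, map_one, map_ofNat, kd] at hm
  have hs : m2 o = X * (X ^ 4 * a' ^ 4 * jb ^ 2 * ik) ^ 4 := by
    rw [← pow_mul] at hm
    apply mul_left_cancel₀ (dne 8 8)
    refine hm.trans ?_
    have e : k' ^ 2 + 2 * k' ^ 3 = k' ^ 2 := by
      linear_combination (k' ^ 3) * two_eq
    have e1 := hik_pow 4
    have e2 := hjb_pow 8
    have e3 := hxb_pow 12
    have e5 : k' ^ 4 = x' ^ 20 := by rw [kx']; ring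
    rw [star, e]
    linear_combination (X ^ 5 * (a' * b') ^ 4 * (1 + k') ^ 4) * e5 +
      (-((1 + k') ^ 4 * x' ^ 20 * X ^ 5 * a' ^ 4 * b' ^ 4)) * e2 +
      ((1 + k') ^ 4 * x' ^ 8 * X ^ 5 * a' ^ 4 * jb ^ 8) * e3 +
      (-((1 + k') ^ 4 * x' ^ 8 * X ^ 17 * a' ^ 16 * jb ^ 8)) * e1
  have hl := last1' 1 4 8 (by norm_num) (by norm_num) 2 hU h4 cK 2 2 (by norm_num) cA_F3
    (by simp [k_const]) (by simp [k_const]) cB_F3 hs
    (mul_ne_zero (mul_ne_zero (mul_ne_zero (pow_ne_zero _ PowerSeries.X_ne_zero) (pow_ne_zero _ a'_ne))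
      (pow_ne_zero _ jb_ne)) ik_ne)
    (T := x' ^ 8 * b' ^ 3 * ik) (by
      intro w hw
      simp only [map_add, map_pow, map_one, kd] at hw
      apply mul_left_cancel₀ (dne 7 4)
      refine hw.trans ?_
      have e5 : k' ^ 5 + k' ^ 6 + k' ^ 7 = k' ^ 4 * (k' * (1 + k' + k' ^ 2)) := by ring
      have e1 := hik_pow 3
      have e2 := hjb_pow 2
      have e6 : k' ^ 4 = x' ^ 20 := by rw [kx']; ring
      rw [e5, star]
      linear_combination (X ^ 5 * (a' * b') ^ 4 * (1 + k') ^ 4) * e6 +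
        (-((1 + k') ^ 7 * x' ^ 20 * X ^ 5 * a' ^ 4 * b' ^ 4 * ik ^ 3)) * e2 -
        ((1 + k') ^ 4 * x' ^ 20 * X ^ 5 * a' ^ 4 * b' ^ 4) * e1) n
  have c1 := coeff_UU g (4 * n + 3) (by omega)
  have c2 := coeff_UU g (8 * n + 7) (by omega)
  rw [show 8 * n + 6 = 2 * (4 * n + 3) by ring, show 16 * n + 14 = 2 * (8 * n + 7) by ring, ← c1, ← c2,
    ho', coeff_C_mul, coeff_C_mul]
  norm_num at hl
  obtain ⟨⟨u, hu⟩, ⟨v, hv⟩⟩ := hl
  rw [hu, hv]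
  exact ⟨⟨u, by ring⟩, ⟨v, by ring⟩⟩

theorem lv_G0 {g : ℤ⟦X⟧} (hg : C (4 : ℤ) ∣ (1 - k) * (1 + k) * g - x ^ 0 * ((-1) * k)) (n : ℕ) :
    (4 : ℤ) ∣ coeff (8 * n + 6) g := by
  have h2 := st2_G0 hg
  obtain ⟨ho, h3⟩ := st3_G0 h2
  have hm := o_m2 (by norm_num) 0 h3
  simp only [map_add, map_pow, map_one, kd] at hm
  have hs : m2 (U ℤ 2 g - V ℤ 2 (U ℤ 2 (U ℤ 2 g))) = X * V (ZMod 2) 4 (X * a' * b') := by
    rw [← pow_mul] at hm
    rw [V_four]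
    apply mul_left_cancel₀ (dne 8 0)
    refine hm.trans ?_
    have e : 1 + k' ^ 2 = (1 + k') ^ 2 := by
      linear_combination (-k') * two_eq
    rw [star, e]
    ring
  obtain ⟨H, hH, h5⟩ := sqstep (by norm_num) 0 ho h3
  have h6 := conv (2 * 4) (4 * 0) 0 0 (by norm_num) h5 (by simp [k_const]) cA_G0
  have h7 := (ustep (2 * 4) 0 h6 (by simp [k_const]) cB_G0).2
  rw [mul_zero, mul_zero, sub_zero, mul_assoc] at h7
  have h8 := cancel_x _ (cancel_unit (by simp [k_const]) h7)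
  have h9 := fin0 2 ho hH (by norm_num; exact h8) hs
    (mul_ne_zero (mul_ne_zero PowerSeries.X_ne_zero a'_ne) b'_ne) n
  have c1 := coeff_UU g (4 * n + 3) (by omega)
  rw [show 8 * n + 6 = 2 * (4 * n + 3) by ring, ← c1]
  norm_num at h9
  exact h9

lemma coeff_eighth (j n : ℕ) (h : j % 8 ≠ 7) (f : (ZMod 2)⟦X⟧) : coeff (8 * n + 7) (X ^ j * f ^ 8) = 0 := by
  have e : f ^ 8 = V (ZMod 2) 2 (V (ZMod 2) 2 (V (ZMod 2) 2 f)) := by
    rw [V_sq, V_sq, V_sq]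
    ring
  rw [coeff_X_pow_mul', e]
  split_ifs with h1
  · rw [coeff_V]
    split_ifs with h2
    · rw [coeff_V]
      split_ifs with h3
      · rw [coeff_V, if_neg (by omega)]
      · rfl
    · rfl
  · rfl

lemma cls7 {o w : (ZMod 2)⟦X⟧} (e : ℕ) (he : e % 8 = 1)
    (h : (1 + k') ^ 4 * o = X ^ e * w ^ 8 * k' ^ 2) (n : ℕ) : coeff (8 * n + 7) o = 0 := by
  have h1 := hik_pow 4
  have h2 := hik_pow 2
  have hst := star
  -- k' ik^2 = G + k'^2 ik^4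
  have h3 : k' * ik ^ 2 = X ^ 5 * (a' * b') ^ 4 + k' ^ 2 * ik ^ 4 := by
    have e1 : k' * (1 + k') ^ 2 = X ^ 5 * (a' * b') ^ 4 * (1 + k') ^ 4 + k' ^ 2 := by
      rw [← hst]
      ring
    calc k' * ik ^ 2 = (k' * (1 + k') ^ 2) * ik ^ 4 := by
          linear_combination (-(k' * ik ^ 2)) * h2
      _ = X ^ 5 * (a' * b') ^ 4 + k' ^ 2 * ik ^ 4 := by
          rw [e1]
          linear_combination (X ^ 5 * (a' * b') ^ 4) * h1
  have h4 : k' ^ 2 * ik ^ 4 = (X ^ 5 * (a' * b') ^ 4 + k' ^ 2 * ik ^ 4) ^ 2 := by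
    rw [← h3]
    ring
  have h5 : o = X ^ e * w ^ 8 * (k' ^ 2 * ik ^ 4) := by
    linear_combination (-o) * h1 + ik ^ 4 * h
  have h6 : (k' ^ 2 * ik ^ 4) = X ^ 10 * (a' * b') ^ 8 + (k' ^ 2 * ik ^ 4) ^ 2 := by
    linear_combination h4 + (X ^ 5 * (a' * b') ^ 4 * (k' ^ 2 * ik ^ 4)) * two_eq
  have h7 : o = X ^ (e + 10) * (w * (a' * b')) ^ 8 + X ^ (e + 20) * (w * (a' * b') ^ 2) ^ 8 +
      X ^ e * (w * (k' * ik ^ 2)) ^ 8 := by
    have h8 : (k' ^ 2 * ik ^ 4) ^ 2 = X ^ 20 * (a' * b') ^ 16 + (k' ^ 2 * ik ^ 4) ^ 4 := by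
      nth_rewrite 1 [h6]
      linear_combination (X ^ 10 * (a' * b') ^ 8 * (k' ^ 2 * ik ^ 4) ^ 2) * two_eq
    rw [h5, h6, h8]
    ring
  rw [h7, map_add, map_add, coeff_eighth _ _ (by omega), coeff_eighth _ _ (by omega),
    coeff_eighth _ _ (by omega)]
  simp

theorem lv_D1 {g : ℤ⟦X⟧} (hg : C (4 : ℤ) ∣ (1 - k) * (1 + k) * g - x ^ 3 * ((1))) (n : ℕ) :
    (2 : ℤ) ∣ coeff (8 * n + 6) g ∧ (4 : ℤ) ∣ coeff (16 * n + 14) g := by
  have h2 := st2_D1 hg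
  obtain ⟨ho, h3⟩ := st3_D1 h2
  have hq : ((2) * k ^ 3 : ℤ⟦X⟧) = C 2 * (k ^ 3) := by
    rw [map_ofNat]
  rw [hq, show (4 : ℤ) = 2 * 2 by norm_num] at h3
  obtain ⟨o, ho', hU, h4⟩ := half (2 * 4) cK ho h3
  have hm := o_m2 (by norm_num) 4 h4
  simp only [map_add, map_pow, map_one, kd] at hm
  have hs : (1 + k') ^ 4 * m2 o = X ^ 9 * a' ^ 8 * k' ^ 2 := by
    rw [← pow_mul] at hm
    apply mul_left_cancel₀ (dne 4 16)
    have e3 := hxb_pow 4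
    have e5 : k' ^ 4 = x' ^ 20 := by rw [kx']; ring
    have hm' : (1 + k') ^ 8 * x' ^ 16 * m2 o = k' ^ 6 * (X ^ 5 * (a' * b') ^ 4 * (1 + k') ^ 4) := by
      rw [← star]
      linear_combination hm
    linear_combination hm' + (k' ^ 2 * X ^ 5 * (a' * b') ^ 4 * (1 + k') ^ 4) * e5 +
      ((1 + k') ^ 4 * k' ^ 2 * x' ^ 16 * X ^ 5 * a' ^ 4) * e3
  have h7 := cls7 (o := m2 o) (w := a') 9 (by norm_num) hs n
  rw [coeff_m2] at h7
  have h8 : (2 : ℤ) ∣ coeff (8 * n + 7) o := (ZMod.intCast_zmod_eq_zero_iff_dvd _ 2).1 h7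
  have c1 := coeff_UU g (4 * n + 3) (by omega)
  have c2 := coeff_UU g (8 * n + 7) (by omega)
  rw [show 8 * n + 6 = 2 * (4 * n + 3) by ring, show 16 * n + 14 = 2 * (8 * n + 7) by ring, ← c1, ← c2,
    ho', coeff_C_mul, coeff_C_mul]
  obtain ⟨v, hv⟩ := h8
  rw [hv]
  exact ⟨dvd_mul_right _ _, ⟨v, by ring⟩⟩

theorem lv_F4 {g : ℤ⟦X⟧} (hg : C (4 : ℤ) ∣ (1 - k) * (1 + k) * g - x ^ 2 * (k)) (n : ℕ) :
    (2 : ℤ) ∣ coeff (8 * n + 6) g ∧ (4 : ℤ) ∣ coeff (16 * n + 14) g := by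
  have h2 := st2_F4 hg
  obtain ⟨ho, h3⟩ := st3_F4 h2
  have hq : ((2) * k : ℤ⟦X⟧) = C 2 * k := by
    rw [map_ofNat]
  rw [hq, show (4 : ℤ) = 2 * 2 by norm_num] at h3
  obtain ⟨o, ho', hU, h4⟩ := half (2 * 1) cK ho h3
  have hm := o_m2 (by norm_num) 1 h4
  simp only [map_add, map_pow, map_one, kd] at hm
  have hs : (1 + k') ^ 4 * m2 o = X ^ 1 * b' ^ 8 * k' ^ 2 := by
    rw [← pow_mul] at hm
    apply mul_left_cancel₀ (dne 4 4)
    have e3 := hxb_pow 4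
    have hm' : (1 + k') ^ 8 * x' ^ 4 * m2 o = k' ^ 2 * (X ^ 5 * (a' * b') ^ 4 * (1 + k') ^ 4) := by
      rw [← star]
      linear_combination hm
    linear_combination hm' - ((1 + k') ^ 4 * k' ^ 2 * X * b' ^ 4) * e3
  have h7 := cls7 (o := m2 o) (w := b') 1 (by norm_num) hs n
  rw [coeff_m2] at h7
  have h8 : (2 : ℤ) ∣ coeff (8 * n + 7) o := (ZMod.intCast_zmod_eq_zero_iff_dvd _ 2).1 h7
  have c1 := coeff_UU g (4 * n + 3) (by omega)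
  have c2 := coeff_UU g (8 * n + 7) (by omega)
  rw [show 8 * n + 6 = 2 * (4 * n + 3) by ring, show 16 * n + 14 = 2 * (8 * n + 7) by ring, ← c1, ← c2,
    ho', coeff_C_mul, coeff_C_mul]
  obtain ⟨v, hv⟩ := h8
  rw [hv]
  exact ⟨dvd_mul_right _ _, ⟨v, by ring⟩⟩

end Pool.Agent.K7.H67.RC
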