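import Pool.Agent.K7.H67.RC.Op

/-! Residue classes of exponents, modulo powers of two. -/

set_option autoImplicit false

namespace Pool.Agent.K7.H67.RC

open PowerSeries Finset

/-- reduction modulo two -/
noncomputable def m2 : ℤ⟦X⟧ →+* (ZMod 2)⟦X⟧ := PowerSeries.map (Int.castRingHom (ZMod 2))

lemma coeff_m2 (f : ℤ⟦X⟧) (n : ℕ) : coeff n (m2 f) = ((coeff n f : ℤ) : ZMod 2) := by
  unfold m2
  rw [PowerSeries.coeff_map]
  rfl

lemma m2_zero_iff (f : ℤ⟦X⟧) : m2 f = 0 ↔ C 2 ∣ f := by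
  rw [dvd_C_iff]
  constructor
  · intro h n
    have := congrArg (coeff n) h
    rw [coeff_m2, map_zero] at this
    exact (ZMod.intCast_zmod_eq_zero_iff_dvd _ 2).1 this
  · intro h
    ext n
    rw [coeff_m2, map_zero]
    exact (ZMod.intCast_zmod_eq_zero_iff_dvd _ 2).2 (h n)

lemma two_eq : (2 : (ZMod 2)⟦X⟧) = 0 := by
  have h : (C (2 : ZMod 2) : (ZMod 2)⟦X⟧) = 2 := map_ofNat _ 2
  rw [← h, show (2 : ZMod 2) = 0 from rfl, map_zero]

lemma V_sq (f : (ZMod 2)⟦X⟧) : V (ZMod 2) 2 f = f ^ 2 := by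
  have h := MvPowerSeries.map_frobenius_expand (R := ZMod 2) 2 (NeZero.ne 2) (f := f)
  rw [ZMod.frobenius_zmod] at h
  rw [← h]
  exact (congrFun (congrArg DFunLike.coe MvPowerSeries.map_id) _).symm

lemma V_four (f : (ZMod 2)⟦X⟧) : V (ZMod 2) 4 f = f ^ 4 := by
  have : NeZero (2 * 2) := ⟨by norm_num⟩
  have h := V_V (R := ZMod 2) 2 2 f
  have h2 : V (ZMod 2) (2 * 2) f = V (ZMod 2) 4 f := rfl
  rw [← h2, ← h, V_sq, V_sq]
  ring

lemma V_m2 (p : ℕ) [NeZero p] (f : ℤ⟦X⟧) : m2 (V ℤ p f) = V (ZMod 2) p (m2 f) := V_map _ _ _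

/-- the four dissection of an odd series -/
lemma four_form {R : Type*} [CommRing R] {f : R⟦X⟧} (h : U R 2 f = 0) :
    f = X * V R 4 (PowerSeries.mk fun n => coeff (4 * n + 1) f) +
      X ^ 3 * V R 4 (PowerSeries.mk fun n => coeff (4 * n + 3) f) := by
  ext n
  rw [map_add]
  have hn : n = 4 * (n / 4) + n % 4 := by omega
  have h4 : n % 4 = 0 ∨ n % 4 = 1 ∨ n % 4 = 2 ∨ n % 4 = 3 := by omega
  have h0 : ∀ m, coeff (2 * m) f = 0 := fun m => by
    have h1 := congrArg (coeff m) h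
    rwa [coeff_U, map_zero] at h1
  set q := n / 4
  rcases h4 with h4 | h4 | h4 | h4
  · rw [hn, h4, add_zero, show 4 * q = 2 * (2 * q) by ring, h0, ← show 4 * q = 2 * (2 * q) by ring]
    rcases q with _ | q
    · simp
    · rw [show 4 * (q + 1) = (4 * q + 3) + 1 by ring, coeff_succ_X_mul, coeff_V, if_neg (by omega),
        show 4 * q + 3 + 1 = (4 * q + 1) + 3 by ring, coeff_X_pow_mul, coeff_V, if_neg (by omega), add_zero]
  · rw [hn, h4, coeff_succ_X_mul, coeff_V, if_pos (by omega), coeff_mk, coeff_X_pow_mul']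
    rw [Nat.mul_div_cancel_left _ (by norm_num)]
    split_ifs with h5
    · rw [coeff_V, if_neg (by omega), add_zero]
    · rw [add_zero]
  · rw [hn, h4, show 4 * q + 2 = 2 * (2 * q + 1) by ring, h0, show 2 * (2 * q + 1) = (4 * q + 1) + 1 by ring,
      coeff_succ_X_mul, coeff_V, if_neg (by omega), coeff_X_pow_mul']
    split_ifs with h5
    · rw [coeff_V, if_neg (by omega), add_zero]
    · rw [add_zero]
  · rw [hn, h4, show 4 * q + 3 = (4 * q + 2) + 1 by ring, coeff_succ_X_mul, coeff_V, if_neg (by omega),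
      show 4 * q + 2 + 1 = 4 * q + 3 by ring, coeff_X_pow_mul, coeff_V, if_pos (by omega), coeff_mk,
      Nat.mul_div_cancel_left _ (by norm_num), zero_add]

/-- the square of an odd series at the exponents divisible by four -/
lemma sq_four {f H a b : ℤ⟦X⟧} (hf : f = X * V ℤ 4 a + X ^ 3 * V ℤ 4 b) (hH : f ^ 2 = V ℤ 2 H) :
    U ℤ 2 H = C 2 * (X * (a * b)) := by
  have : NeZero (2 * 2) := ⟨by norm_num⟩
  have hV : ∀ g : ℤ⟦X⟧, V ℤ 4 g = V ℤ 2 (V ℤ 2 g) := fun g => (V_V (R := ℤ) 2 2 g).symm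
  have h1 : V ℤ 2 H = V ℤ 2 (X * V ℤ 2 (a ^ 2) + X * V ℤ 2 (X * b ^ 2) + V ℤ 2 (C 2 * (X * (a * b)))) := by
    rw [← hH, hf, hV, hV]
    simp only [map_add, map_mul, map_pow, V_X, V_C]
    have h2 : (C 2 : ℤ⟦X⟧) = 2 := map_ofNat _ 2
    rw [h2]
    ring
  have h2 := V_inj 2 h1
  have hX : U ℤ 2 (X : ℤ⟦X⟧) = 0 := by
    ext n
    rw [coeff_U, coeff_X, map_zero, if_neg (by omega)]
  rw [h2, U_add, U_add, U_V, mul_comm X (V ℤ 2 _), U_V_mul, mul_comm X (V ℤ 2 _), U_V_mul, hX]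
  ring

lemma dvd_X_mul {m : ℤ} {f g : ℤ⟦X⟧} (h : C m ∣ X * f - X * g) : C m ∣ f - g := by
  rw [← mul_sub] at h
  exact cancel_X h

/-- cancellation of a constant factor -/
lemma dvd_cancel_C {a m : ℤ} (ha : a ≠ 0) {f : ℤ⟦X⟧} (h : C (a * m) ∣ C a * f) : C m ∣ f := by
  rw [dvd_C_iff] at h ⊢
  intro n
  have := h n
  rw [coeff_C_mul] at this
  exact (mul_dvd_mul_iff_left ha).1 this

/-- powers of two and a factor which is nonzero modulo two -/
lemma two_pow_dvd (r : ℕ) {a b : ℤ⟦X⟧} (ha : m2 a ≠ 0) (h : C ((2 : ℤ) ^ r) ∣ a * b) :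
    C ((2 : ℤ) ^ r) ∣ b := by
  induction r generalizing b with
  | zero => simp
  | succ r ih =>
    have h1 : C ((2 : ℤ) ^ r) ∣ a * b := by
      refine dvd_trans ?_ h
      rw [pow_succ, map_mul]
      exact dvd_mul_right _ _
    obtain ⟨t, rfl⟩ := ih h1
    have h2 : C ((2 : ℤ) ^ r * 2) ∣ C ((2 : ℤ) ^ r) * (a * t) := by
      rw [← pow_succ]
      have e : C ((2 : ℤ) ^ r) * (a * t) = a * (C ((2 : ℤ) ^ r) * t) := by ring
      rw [e]
      exact h
    have h3 := dvd_cancel_C (by positivity) h2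
    rw [← m2_zero_iff, map_mul] at h3
    rcases mul_eq_zero.1 h3 with h4 | h4
    · exact absurd h4 ha
    · obtain ⟨s, rfl⟩ := (m2_zero_iff _).1 h4
      refine ⟨s, ?_⟩
      rw [pow_succ, map_mul]
      ring

lemma m2_C_even {m : ℤ} (h : 2 ∣ m) : m2 (C m) = 0 := by
  rw [m2_zero_iff]
  obtain ⟨l, rfl⟩ := h
  rw [map_mul]
  exact dvd_mul_right _ _

/-- class separation modulo two -/
lemma sep_four {a b s : (ZMod 2)⟦X⟧} (h : X * V (ZMod 2) 4 a + X ^ 3 * V (ZMod 2) 4 b = X * V (ZMod 2) 4 s) :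
    a = s ∧ b = 0 := by
  constructor
  · ext n
    have h1 := congrArg (coeff (4 * n + 1)) h
    rw [map_add, coeff_succ_X_mul, coeff_succ_X_mul, coeff_V, coeff_V, if_pos (by omega), if_pos (by omega),
      coeff_X_pow_mul', Nat.mul_div_cancel_left _ (by norm_num)] at h1
    split_ifs at h1 with h2
    · rw [coeff_V, if_neg (by omega), add_zero] at h1
      exact h1
    · rw [add_zero] at h1
      exact h1
  · ext n
    have h1 := congrArg (coeff (4 * n + 3)) h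
    rw [map_add, coeff_X_pow_mul, coeff_V, if_pos (by omega), Nat.mul_div_cancel_left _ (by norm_num),
      show 4 * n + 3 = (4 * n + 2) + 1 by ring, coeff_succ_X_mul, coeff_succ_X_mul, coeff_V, coeff_V,
      if_neg (by omega), if_neg (by omega), zero_add] at h1
    rw [h1, map_zero]

/-- the first final step -/
theorem fin0 (r : ℕ) {o H : ℤ⟦X⟧} {s : (ZMod 2)⟦X⟧} (ho : U ℤ 2 o = 0) (hH : o ^ 2 = V ℤ 2 H)
    (h : C ((2 : ℤ) ^ (r + 1)) ∣ U ℤ 2 H) (hs : m2 o = X * V (ZMod 2) 4 s) (hs0 : s ≠ 0) (n : ℕ) :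
    (2 : ℤ) ^ r ∣ coeff (4 * n + 3) o := by
  have h4 := four_form ho
  set a := PowerSeries.mk fun n => coeff (4 * n + 1) o with ha
  set b := PowerSeries.mk fun n => coeff (4 * n + 3) o with hb
  have h1 := sq_four h4 hH
  rw [h1, pow_succ'] at h
  have h2 : C ((2 : ℤ) ^ r) ∣ X * (a * b) := dvd_cancel_C (by norm_num) h
  have h3 := cancel_X h2
  have h5 : m2 a = s := by
    rw [h4, map_add, map_mul, map_mul, V_m2, V_m2] at hs
    have hX : m2 X = X := PowerSeries.map_X _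
    rw [map_pow, hX] at hs
    exact (sep_four hs).1
  have h6 := two_pow_dvd r (by rw [h5]; exact hs0) h3
  have h7 := (dvd_C_iff _ _).1 h6 n
  rwa [hb, coeff_mk] at h7

/-- the second final step -/
theorem fin1 (r : ℕ) {o H w : ℤ⟦X⟧} {s T : (ZMod 2)⟦X⟧} (ho : U ℤ 2 o = 0) (hH : o ^ 2 = V ℤ 2 H)
    (h : C ((2 : ℤ) ^ (r + 2)) ∣ U ℤ 2 H - C ((2 : ℤ) ^ (r + 1)) * w)
    (hs : m2 o = X * V (ZMod 2) 4 s) (hs0 : s ≠ 0)
    (hw : m2 w = X * s * T ^ 2) (n : ℕ) :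
    (2 : ℤ) ^ r ∣ coeff (4 * n + 3) o ∧ (2 : ℤ) ^ (r + 1) ∣ coeff (8 * n + 7) o := by
  have h0 : C ((2 : ℤ) ^ (r + 1)) ∣ U ℤ 2 H := by
    have e : U ℤ 2 H = (U ℤ 2 H - C ((2 : ℤ) ^ (r + 1)) * w) + C ((2 : ℤ) ^ (r + 1)) * w := by ring
    rw [e]
    refine dvd_add (dvd_trans ?_ h) (dvd_mul_right _ _)
    rw [pow_succ (2 : ℤ) (r + 1), map_mul]
    exact dvd_mul_right _ _
  refine ⟨fin0 r ho hH h0 hs hs0 n, ?_⟩
  have h4 := four_form ho
  set a := PowerSeries.mk fun n => coeff (4 * n + 1) o with ha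
  set b := PowerSeries.mk fun n => coeff (4 * n + 3) o with hb
  have h1 := sq_four h4 hH
  have h5 : m2 a = s := by
    rw [h4, map_add, map_mul, map_mul, V_m2, V_m2] at hs
    have hX : m2 X = X := PowerSeries.map_X _
    rw [map_pow, hX] at hs
    exact (sep_four hs).1
  have hbr : C ((2 : ℤ) ^ r) ∣ b := by
    rw [dvd_C_iff]
    intro n
    rw [hb, coeff_mk]
    exact fin0 r ho hH h0 hs hs0 n
  obtain ⟨t, ht⟩ := hbr
  have h6 : C ((2 : ℤ) ^ (r + 1) * 2) ∣ C ((2 : ℤ) ^ (r + 1)) * (X * (a * t) - w) := by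
    rw [← pow_succ]
    have e : C ((2 : ℤ) ^ (r + 1)) * (X * (a * t) - w) = U ℤ 2 H - C ((2 : ℤ) ^ (r + 1)) * w := by
      rw [h1, ht, pow_succ', map_mul]
      ring
    rw [e]
    exact h
  have h7 := dvd_cancel_C (by positivity) h6
  rw [← m2_zero_iff, map_sub, sub_eq_zero, map_mul, map_mul, h5, hw] at h7
  have hX : m2 X = X := PowerSeries.map_X _
  rw [hX] at h7
  have h8 : m2 t = T ^ 2 := by
    have hne : (X : (ZMod 2)⟦X⟧) * s ≠ 0 := mul_ne_zero PowerSeries.X_ne_zero hs0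
    apply mul_left_cancel₀ hne
    rw [← h7]
    ring
  have h9 : coeff (8 * n + 7) o = coeff (2 * n + 1) b := by
    rw [hb, coeff_mk]
    congr 2
    ring
  rw [h9, ht, coeff_C_mul, pow_succ]
  apply mul_dvd_mul_left
  have h10 : coeff (2 * n + 1) (m2 t) = 0 := by
    rw [h8, ← V_sq, coeff_V, if_neg (by omega)]
  rw [coeff_m2] at h10
  exact (ZMod.intCast_zmod_eq_zero_iff_dvd _ 2).1 h10

end Pool.Agent.K7.H67.RC
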