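import Pool.Agent.K7.H67.RC.The

/-! Double series identities. -/

set_option autoImplicit false

namespace Pool.Agent.K7.H67.RC

open PowerSeries Finset

/-- exponent identity helper -/
lemma dq_add_eq {a b a' b' c d c' d' : ℤ} (m n u v : ℤ) (k : ℕ)
    (h1 : (a - b) % 2 = 0) (h2 : -a < b) (h3 : b < a)
    (h1' : (a' - b') % 2 = 0) (h2' : -a' < b') (h3' : b' < a')
    (g1 : (c - d) % 2 = 0) (g2 : -c < d) (g3 : d < c)
    (g1' : (c' - d') % 2 = 0) (g2' : -c' < d') (g3' : d' < c')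
    (h : a * m ^ 2 + b * m + (a' * n ^ 2 + b' * n) = c * u ^ 2 + d * u + (c' * v ^ 2 + d' * v) + 2 * k) :
    dq a b m + dq a' b' n = dq c d u + dq c' d' v + k := by
  have e1 := dq_spec h1 h2.le h3.le m
  have e2 := dq_spec h1' h2'.le h3'.le n
  have e3 := dq_spec g1 g2.le g3.le u
  have e4 := dq_spec g1' g2'.le g3'.le v
  omega

/-- reflection -/
def refl2 : ℤ × ℤ ≃ ℤ × ℤ where
  toFun := fun x => (-1 - x.2, -1 - x.1)
  invFun := fun x => (-1 - x.2, -1 - x.1)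
  left_inv := fun x => by
    ext <;> simp
  right_inv := fun x => by
    ext <;> simp

lemma sg_refl (n : ℤ) : sg (-1 - n) = - sg n := by
  apply sg_neg_eq
  omega

theorem ApB_eq : sAp * sB = sT3 * sB2 + X * (sT1 * sA2) := by
  unfold sAp sB sT3 sB2 sT1 sA2 T
  rw [← ser_mul, ← ser_mul, ← ser_mul, ser_split _ par]
  congr 1
  · refine ser_equiv (Equiv.refl _) ?_ ?_
    · rintro ⟨i, j⟩
      show dq _ _ _ + dq _ _ _ = dq _ _ _ + dq _ _ _
      symm
      refine (dq_add_eq (i + j) (i - j) i j 0 ?_ ?_ ?_ ?_ ?_ ?_ ?_ ?_ ?_ ?_ ?_ ?_ ?_) <;> norm_num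
      ring
    · rintro ⟨i, j⟩
      show sg i * sg j = 1 * sg (i - j)
      rw [one_mul, ← sg_add]
      apply sg_eq
      omega
  · rw [← pow_one (X : ℤ⟦X⟧), ← ser_shift]
    refine ser_equiv refl2 ?_ ?_
    · rintro ⟨i, j⟩
      show dq _ _ _ + dq _ _ _ + 1 = dq _ _ _ + dq _ _ _
      symm
      refine (dq_add_eq (i + j + 1) (i - j) (-1 - j) (-1 - i) 1 ?_ ?_ ?_ ?_ ?_ ?_ ?_ ?_ ?_ ?_ ?_ ?_ ?_) <;> norm_num
      ring
    · rintro ⟨i, j⟩
      show sg (-1 - j) * sg (-1 - i) = 1 * sg (i - j)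
      rw [one_mul, ← sg_add]
      apply sg_eq
      omega

theorem ABp_eq : sA * sBp = sT3 * sB2 - X * (sT1 * sA2) := by
  have e2 : ∀ f g : ℤ⟦X⟧, f - X * g = f + C (-1) * (X ^ 1 * g) := by
    intro f g
    rw [map_neg, map_one, pow_one]
    ring
  rw [e2]
  unfold sA sBp sT3 sB2 sT1 sA2 T
  rw [← ser_mul, ← ser_mul, ← ser_mul, ser_split _ par]
  congr 1
  · refine ser_equiv (Equiv.refl _) ?_ ?_
    · rintro ⟨i, j⟩
      show dq _ _ _ + dq _ _ _ = dq _ _ _ + dq _ _ _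
      symm
      refine (dq_add_eq (i + j) (i - j) i j 0 ?_ ?_ ?_ ?_ ?_ ?_ ?_ ?_ ?_ ?_ ?_ ?_ ?_) <;> norm_num
      ring
    · rintro ⟨i, j⟩
      show sg i * sg j = sg (i + j) * 1
      rw [mul_one, sg_add]
  · rw [← ser_shift, ← ser_smul]
    refine ser_equiv refl2 ?_ ?_
    · rintro ⟨i, j⟩
      show dq _ _ _ + dq _ _ _ + 1 = dq _ _ _ + dq _ _ _
      symm
      refine (dq_add_eq (i + j + 1) (i - j) (-1 - j) (-1 - i) 1 ?_ ?_ ?_ ?_ ?_ ?_ ?_ ?_ ?_ ?_ ?_ ?_ ?_) <;> norm_num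
      ring
    · rintro ⟨i, j⟩
      show -1 * (sg (-1 - j) * sg (-1 - i)) = sg (i + j + 1) * 1
      rw [mul_one, ← sg_add]
      have := sg_neg_eq (m := i + j + 1) (n := -1 - j + (-1 - i)) (by omega)
      rw [this]
      ring

/-- the splitting modulo five -/
def five : Fin 5 × (ℤ × ℤ) ≃ ℤ × ℤ where
  toFun := fun x => (2 * x.2.1 + x.2.2 + (x.1 : ℕ), 2 * x.2.2 - x.2.1)
  invFun := fun y =>
    (⟨((y.1 + 2 * y.2) % 5).toNat, by omega⟩,
      ((2 * (y.1 - (y.1 + 2 * y.2) % 5) - y.2) / 5, (y.1 + 2 * y.2) / 5))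
  left_inv := by
    rintro ⟨⟨t, ht⟩, a, b⟩
    simp only [Prod.mk.injEq, Fin.mk.injEq]
    refine ⟨?_, ?_, ?_⟩ <;> omega
  right_inv := by
    rintro ⟨m, n⟩
    simp only [Prod.mk.injEq]
    constructor <;> omega

lemma s3 (x : ℤ) : 2 * (dq 5 3 x : ℤ) = 5 * x ^ 2 + 3 * x :=
  dq_spec (a := 5) (b := 3) (by norm_num) (by norm_num) (by norm_num) x

lemma s1 (x : ℤ) : 2 * (dq 5 1 x : ℤ) = 5 * x ^ 2 + 1 * x :=
  dq_spec (a := 5) (b := 1) (by norm_num) (by norm_num) (by norm_num) x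

/-- translation and reflection -/
def rfl2 (s t : Bool) (u v : ℤ) : ℤ × ℤ ≃ ℤ × ℤ where
  toFun := fun x => (if s then u - x.1 else u + x.1, if t then v - x.2 else v + x.2)
  invFun := fun x => (if s then u - x.1 else x.1 - u, if t then v - x.2 else x.2 - v)
  left_inv := fun x => by
    ext <;> simp only [] <;> split_ifs <;> ring
  right_inv := fun x => by
    ext <;> simp only [] <;> split_ifs <;> ring

/-- `A B = B(q^5)^2 - q A(q^5) B(q^5) - q^2 A(q^5)^2` -/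
theorem AB_five : sA * sB = V ℤ 5 sB ^ 2 - X * (V ℤ 5 sA * V ℤ 5 sB) - X ^ 2 * V ℤ 5 sA ^ 2 := by
  have e2 : ∀ a b c : ℤ⟦X⟧, a - X * b - X ^ 2 * c = a + 0 + 0 + C (-1) * (X ^ 2 * c) +
      C (-1) * (X ^ 1 * b) := by
    intro a b c
    rw [map_neg, map_one]
    ring
  rw [e2]
  unfold sA sB T
  rw [← ser_mul, ← ser_dil, ← ser_dil, ser_fin 5 _ five, Fin.sum_univ_five]
  rw [sq (Fam.ser _), sq (Fam.ser _), ← ser_mul, ← ser_mul, ← ser_mul, ← ser_shift, ← ser_shift,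
    ← ser_smul, ← ser_smul]
  congr 1
  · congr 1
    · congr 1
      · congr 1
        · refine ser_equiv (Equiv.refl _) ?_ ?_
          · rintro ⟨a, b⟩
            show 5 * dq 5 1 a + 5 * dq 5 1 b = dq 5 3 (2 * a + b + ((0 : ℕ) : ℤ)) + dq 5 1 (2 * b - a)
            have h1 := s1 a
            have h2 := s1 b
            have h3 := s3 (2 * a + b + ((0 : ℕ) : ℤ))
            have h4 := s1 (2 * b - a)
            have : 2 * ((5 * dq 5 1 a + 5 * dq 5 1 b : ℕ) : ℤ) =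
              2 * ((dq 5 3 (2 * a + b + ((0 : ℕ) : ℤ)) + dq 5 1 (2 * b - a) : ℕ) : ℤ) := by
              push_cast at h3 ⊢
              linear_combination 5 * h1 + 5 * h2 - h3 - h4
            omega
          · rintro ⟨a, b⟩
            show sg a * sg b = sg (2 * a + b + ((0 : ℕ) : ℤ)) * sg (2 * b - a)
            rw [← sg_add, ← sg_add]
            apply sg_eq
            omega
        · refine ser_anti _ (rfl2 true false (-1) 0) ?_ ?_
          · rintro ⟨a, b⟩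
            show dq 5 3 (2 * (-1 - a) + (0 + b) + ((1 : ℕ) : ℤ)) + dq 5 1 (2 * (0 + b) - (-1 - a)) =
              dq 5 3 (2 * a + b + ((1 : ℕ) : ℤ)) + dq 5 1 (2 * b - a)
            have h1 := s3 (2 * (-1 - a) + (0 + b) + ((1 : ℕ) : ℤ))
            have h2 := s1 (2 * (0 + b) - (-1 - a))
            have h3 := s3 (2 * a + b + ((1 : ℕ) : ℤ))
            have h4 := s1 (2 * b - a)
            have : 2 * ((dq 5 3 (2 * (-1 - a) + (0 + b) + ((1 : ℕ) : ℤ)) + dq 5 1 (2 * (0 + b) - (-1 - a)) : ℕ) : ℤ) =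
              2 * ((dq 5 3 (2 * a + b + ((1 : ℕ) : ℤ)) + dq 5 1 (2 * b - a) : ℕ) : ℤ) := by
              push_cast at h1 h3 ⊢
              linear_combination h1 + h2 - h3 - h4
            omega
          · rintro ⟨a, b⟩
            show sg (2 * (-1 - a) + (0 + b) + ((1 : ℕ) : ℤ)) * sg (2 * (0 + b) - (-1 - a)) =
              -(sg (2 * a + b + ((1 : ℕ) : ℤ)) * sg (2 * b - a))
            rw [← sg_add, ← sg_add]
            apply sg_neg_eq
            omega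
      · refine ser_anti _ (rfl2 false true 0 (-1)) ?_ ?_
        · rintro ⟨a, b⟩
          show dq 5 3 (2 * (0 + a) + (-1 - b) + ((2 : ℕ) : ℤ)) + dq 5 1 (2 * (-1 - b) - (0 + a)) =
            dq 5 3 (2 * a + b + ((2 : ℕ) : ℤ)) + dq 5 1 (2 * b - a)
          have h1 := s3 (2 * (0 + a) + (-1 - b) + ((2 : ℕ) : ℤ))
          have h2 := s1 (2 * (-1 - b) - (0 + a))
          have h3 := s3 (2 * a + b + ((2 : ℕ) : ℤ))
          have h4 := s1 (2 * b - a)
          have : 2 * ((dq 5 3 (2 * (0 + a) + (-1 - b) + ((2 : ℕ) : ℤ)) + dq 5 1 (2 * (-1 - b) - (0 + a)) : ℕ) : ℤ) =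
            2 * ((dq 5 3 (2 * a + b + ((2 : ℕ) : ℤ)) + dq 5 1 (2 * b - a) : ℕ) : ℤ) := by
            push_cast at h1 h3 ⊢
            linear_combination h1 + h2 - h3 - h4
          omega
        · rintro ⟨a, b⟩
          show sg (2 * (0 + a) + (-1 - b) + ((2 : ℕ) : ℤ)) * sg (2 * (-1 - b) - (0 + a)) =
            -(sg (2 * a + b + ((2 : ℕ) : ℤ)) * sg (2 * b - a))
          rw [← sg_add, ← sg_add]
          apply sg_neg_eq
          omega
    · refine ser_equiv (rfl2 false true 1 (-1)) ?_ ?_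
      · rintro ⟨a, b⟩
        show 5 * dq 5 3 (1 + a) + 5 * dq 5 3 (-1 - b) + 2 =
          dq 5 3 (2 * a + b + ((3 : ℕ) : ℤ)) + dq 5 1 (2 * b - a)
        have h1 := s3 (1 + a)
        have h2 := s3 (-1 - b)
        have h3 := s3 (2 * a + b + ((3 : ℕ) : ℤ))
        have h4 := s1 (2 * b - a)
        have : 2 * ((5 * dq 5 3 (1 + a) + 5 * dq 5 3 (-1 - b) + 2 : ℕ) : ℤ) =
          2 * ((dq 5 3 (2 * a + b + ((3 : ℕ) : ℤ)) + dq 5 1 (2 * b - a) : ℕ) : ℤ) := by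
          push_cast at h3 ⊢
          linear_combination 5 * h1 + 5 * h2 - h3 - h4
        omega
      · rintro ⟨a, b⟩
        show -1 * (sg (1 + a) * sg (-1 - b)) = sg (2 * a + b + ((3 : ℕ) : ℤ)) * sg (2 * b - a)
        rw [← sg_add, ← sg_add, sg_neg_eq (m := 2 * a + b + ((3 : ℕ) : ℤ) + (2 * b - a))
          (n := 1 + a + (-1 - b)) (by omega)]
        ring
  · refine ser_equiv (rfl2 true true (-2) (-1)) ?_ ?_
    · rintro ⟨a, b⟩
      show 5 * dq 5 3 (-2 - a) + 5 * dq 5 1 (-1 - b) + 1 =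
        dq 5 3 (2 * a + b + ((4 : ℕ) : ℤ)) + dq 5 1 (2 * b - a)
      have h1 := s3 (-2 - a)
      have h2 := s1 (-1 - b)
      have h3 := s3 (2 * a + b + ((4 : ℕ) : ℤ))
      have h4 := s1 (2 * b - a)
      have : 2 * ((5 * dq 5 3 (-2 - a) + 5 * dq 5 1 (-1 - b) + 1 : ℕ) : ℤ) =
        2 * ((dq 5 3 (2 * a + b + ((4 : ℕ) : ℤ)) + dq 5 1 (2 * b - a) : ℕ) : ℤ) := by
        push_cast at h3 ⊢
        linear_combination 5 * h1 + 5 * h2 - h3 - h4
      omega
    · rintro ⟨a, b⟩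
      show -1 * (sg (-2 - a) * sg (-1 - b)) = sg (2 * a + b + ((4 : ℕ) : ℤ)) * sg (2 * b - a)
      rw [← sg_add, ← sg_add, sg_neg_eq (m := 2 * a + b + ((4 : ℕ) : ℤ) + (2 * b - a))
        (n := -2 - a + (-1 - b)) (by omega)]
      ring

end Pool.Agent.K7.H67.RC
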