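import Pool.Agent.K7.H67.RC.Rel

/-! The functions `x = q R(q^5)`, `k = x y^2`. -/

set_option autoImplicit false

namespace Pool.Agent.K7.H67.RC

open PowerSeries Finset

lemma ne_of_const {f : ℤ⟦X⟧} (h : constantCoeff f = 1) : f ≠ 0 := by
  rintro rfl
  rw [map_zero] at h
  exact zero_ne_one h

lemma V_const {R : Type*} [CommRing R] (p : ℕ) [NeZero p] (f : R⟦X⟧) :
    constantCoeff (V R p f) = constantCoeff f := by
  rw [← coeff_zero_eq_constantCoeff_apply, coeff_V, if_pos (dvd_zero p), Nat.zero_div,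
    coeff_zero_eq_constantCoeff_apply]

/-- Ramanujan's relation -/
theorem R1 : sB ^ 5 * V ℤ 5 sA * (V ℤ 5 sB ^ 4 - 2 * V ℤ 5 sB ^ 3 * (X * V ℤ 5 sA) +
    4 * V ℤ 5 sB ^ 2 * (X * V ℤ 5 sA) ^ 2 - 3 * V ℤ 5 sB * (X * V ℤ 5 sA) ^ 3 + (X * V ℤ 5 sA) ^ 4) =
    sA ^ 5 * V ℤ 5 sB * (V ℤ 5 sB ^ 4 + 3 * V ℤ 5 sB ^ 3 * (X * V ℤ 5 sA) +
    4 * V ℤ 5 sB ^ 2 * (X * V ℤ 5 sA) ^ 2 + 2 * V ℤ 5 sB * (X * V ℤ 5 sA) ^ 3 + (X * V ℤ 5 sA) ^ 4) := by
  have h1 := AB_eq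
  have h2 := AB_five
  have h3 := R5
  have h4 : V ℤ 5 sA * V ℤ 5 sB = Q ℤ 5 5 * Q ℤ 25 25 := by
    rw [← map_mul, AB_eq, map_mul, V_Q 5 le_rfl le_rfl, V_Q 5 (by norm_num) (by norm_num)]
  have h5 : Q ℤ 25 25 * (V ℤ 5 sB ^ 10 - 11 * (V ℤ 5 sB) ^ 5 * (X * V ℤ 5 sA) ^ 5 -
      (X * V ℤ 5 sA) ^ 10) = Q ℤ 5 5 ^ 11 := by
    have h := R5'
    simp only [map_mul, map_sub, map_pow, V_X, map_ofNat, V_Q 5 (le_refl 1) (le_refl 1),
      V_Q (R := ℤ) 5 (a := 5) (k := 5) (by norm_num) (by norm_num)] at h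
    norm_num at h
    rw [← h]
    ring
  have ha : constantCoeff (V ℤ 5 sA) = 1 := by rw [V_const, sA_const]
  have hb : constantCoeff (V ℤ 5 sB) = 1 := by rw [V_const, sB_const]
  have hA := sA_const
  have hB := sB_const
  have he1 : Q ℤ 1 1 ≠ 0 := Q_ne le_rfl le_rfl
  have he5 : Q ℤ 5 5 ≠ 0 := Q_ne (by norm_num) (by norm_num)
  generalize Q ℤ 1 1 = e1 at *
  generalize Q ℤ 5 5 = e5 at *
  generalize Q ℤ 25 25 = e25 at *
  generalize V ℤ 5 sA = a at *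
  generalize V ℤ 5 sB = b at *
  generalize sA = A at *
  generalize sB = B at *
  obtain ⟨c, hc⟩ : ∃ c : ℤ⟦X⟧, c = X * a := ⟨_, rfl⟩
  rw [← hc] at h5 ⊢
  set N := b ^ 2 - b * c - c ^ 2 with hN
  set P := b ^ 4 - 2 * b ^ 3 * c + 4 * b ^ 2 * c ^ 2 - 3 * b * c ^ 3 + c ^ 4 with hP
  set K := b ^ 4 + 3 * b ^ 3 * c + 4 * b ^ 2 * c ^ 2 + 2 * b * c ^ 3 + c ^ 4 with hK
  have hAB : A * B = N := by
    rw [h2, hN, hc]
    ring
  have hNe : N = e1 * e5 := by rw [← hAB, h1]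
  have hNne : N ≠ 0 := by
    rw [hNe]
    exact mul_ne_zero he1 he5
  have i1 : b ^ 2 * K ^ 2 - 11 * b * c * P * K - c ^ 2 * P ^ 2 = N ^ 5 := by
    rw [hN, hP, hK]
    ring
  have i2 : b ^ 10 - 11 * b ^ 5 * c ^ 5 - c ^ 10 = N * P * K := by
    rw [hN, hP, hK]
    ring
  rw [i2] at h5
  have i3 : e5 * (B ^ 10 - 11 * X * A ^ 5 * B ^ 5 - X ^ 2 * A ^ 10) = e1 ^ 11 := h3
  have i4 : a * b * P * K * (B ^ 10 - 11 * X * A ^ 5 * B ^ 5 - X ^ 2 * A ^ 10) = N ^ 10 := by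
    have hne : N * e5 ≠ 0 := mul_ne_zero hNne he5
    apply mul_left_cancel₀ hne
    calc N * e5 * (a * b * P * K * (B ^ 10 - 11 * X * A ^ 5 * B ^ 5 - X ^ 2 * A ^ 10)) =
        (a * b) * N * P * K * (e5 * (B ^ 10 - 11 * X * A ^ 5 * B ^ 5 - X ^ 2 * A ^ 10)) := by ring
      _ = e5 * (e25 * (N * P * K)) * e1 ^ 11 := by rw [i3, h4]; ring
      _ = N * e5 * N ^ 10 := by
        rw [h5]
        nth_rewrite 1 [hNe]
        rw [hNe]
        ring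
  have i5 : A ^ 5 * B ^ 5 = N ^ 5 := by rw [← mul_pow, hAB]
  have i6 : (B ^ 5 * c * P - X * A ^ 5 * b * K) * (B ^ 5 * b * K + X * A ^ 5 * c * P) = 0 := by
    have e : (B ^ 5 * c * P - X * A ^ 5 * b * K) * (B ^ 5 * b * K + X * A ^ 5 * c * P) =
      X * (a * b * P * K * (B ^ 10 - 11 * X * A ^ 5 * B ^ 5 - X ^ 2 * A ^ 10)) -
        X * (A ^ 5 * B ^ 5) * (b ^ 2 * K ^ 2 - 11 * b * c * P * K - c ^ 2 * P ^ 2) := by
      rw [hc]
      ring
    rw [e, i1, i4, i5]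
    ring
  rcases mul_eq_zero.1 i6 with h | h
  · have h' : X * (B ^ 5 * a * P) = X * (A ^ 5 * b * K) := by
      have := sub_eq_zero.1 h
      rw [hc] at this
      linear_combination this
    exact mul_left_cancel₀ PowerSeries.X_ne_zero h'
  · exfalso
    have hcc : constantCoeff c = 0 := by rw [hc, map_mul, constantCoeff_X, zero_mul]
    have := congrArg (constantCoeff (R := ℤ)) h
    rw [hK] at this
    simp only [map_add, map_mul, map_pow, hcc, hA, hB, hb, map_zero, constantCoeff_X] at this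
    norm_num at this

/-- the inverse of a power series with constant term one -/
noncomputable def iv (f : ℤ⟦X⟧) : ℤ⟦X⟧ := invOfUnit f 1

lemma mul_iv {f : ℤ⟦X⟧} (h : constantCoeff f = 1) : f * iv f = 1 :=
  mul_invOfUnit f 1 (by rw [h]; rfl)

/-- `x = q R(q^5)` -/
noncomputable def x : ℤ⟦X⟧ := X * V ℤ 5 sA * iv (V ℤ 5 sB)

lemma x_spec : x * V ℤ 5 sB = X * V ℤ 5 sA := by
  have hb : constantCoeff (V ℤ 5 sB) = 1 := by rw [V_const, sB_const]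
  unfold x
  rw [mul_assoc, mul_comm (iv _), mul_iv hb, mul_one]

/-- `R(q)^5` and `R(q^5)` in terms of `x` -/
theorem R1x : sB ^ 5 * V ℤ 5 sA * (1 - 2 * x + 4 * x ^ 2 - 3 * x ^ 3 + x ^ 4) =
    sA ^ 5 * V ℤ 5 sB * (1 + 3 * x + 4 * x ^ 2 + 2 * x ^ 3 + x ^ 4) := by
  have hb : constantCoeff (V ℤ 5 sB) = 1 := by rw [V_const, sB_const]
  apply mul_left_cancel₀ (pow_ne_zero 4 (ne_of_const hb))
  have h := R1
  rw [← x_spec] at h
  linear_combination h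

/-- the relation between `x(q)` and `x(q^2)` -/
theorem xy : V ℤ 2 x * (1 - x * V ℤ 2 x ^ 2) = x ^ 2 * (1 + x * V ℤ 2 x ^ 2) := by
  have h := congrArg (V ℤ 5) R2
  rw [A2_eq, B2_eq] at h
  simp only [map_mul, map_sub, map_add, map_pow, V_X] at h
  have e : ∀ f : ℤ⟦X⟧, V ℤ 5 (V ℤ 2 f) = V ℤ 2 (V ℤ 5 f) := by
    intro f
    haveI : NeZero (5 * 2) := ⟨by norm_num⟩
    haveI : NeZero (2 * 5) := ⟨by norm_num⟩
    rw [V_V, V_V]
  simp only [e] at h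
  have h1 := x_spec
  have h2 := congrArg (V ℤ 2) x_spec
  rw [map_mul, map_mul, V_X] at h2
  have hb : constantCoeff (V ℤ 5 sB) = 1 := by rw [V_const, sB_const]
  have hb2 : constantCoeff (V ℤ 2 (V ℤ 5 sB)) = 1 := by rw [V_const, hb]
  generalize V ℤ 2 (V ℤ 5 sB) = b2 at *
  generalize V ℤ 2 (V ℤ 5 sA) = a2 at *
  generalize V ℤ 5 sB = b at *
  generalize V ℤ 5 sA = a at *
  generalize V ℤ 2 x = y at *
  generalize x = x at *
  apply mul_left_cancel₀ (mul_ne_zero (pow_ne_zero 3 (ne_of_const hb)) (pow_ne_zero 3 (ne_of_const hb2)))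
  have g1 : (y * b2) * b ^ 2 * (b * b2 ^ 2 - (x * b) * (y * b2) ^ 2) =
      b2 * (x * b) ^ 2 * (b * b2 ^ 2 + (x * b) * (y * b2) ^ 2) := by
    rw [h1, h2]
    linear_combination X ^ 2 * h
  linear_combination g1

/-- `k = x(q) x(q^2)^2` -/
noncomputable def k : ℤ⟦X⟧ := x * V ℤ 2 x ^ 2

/-- `y = x(q^2)` -/
noncomputable def y : ℤ⟦X⟧ := V ℤ 2 x

/-- `K = k(q^2)` -/
noncomputable def K : ℤ⟦X⟧ := V ℤ 2 k

lemma k_eq : k = x * y ^ 2 := rfl

lemma y_k : y * (1 - k) = x ^ 2 * (1 + k) := xy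

/-- `x^5 (1 + k)^2 = k (1 - k)^2` -/
lemma x5 : x ^ 5 * (1 + k) ^ 2 = k * (1 - k) ^ 2 := by
  have h := y_k
  calc x ^ 5 * (1 + k) ^ 2 = x * (x ^ 2 * (1 + k)) ^ 2 := by ring
    _ = x * (y * (1 - k)) ^ 2 := by rw [h]
    _ = (x * y ^ 2) * (1 - k) ^ 2 := by ring
    _ = k * (1 - k) ^ 2 := by rw [← k_eq]

/-- `y^5 (1 + K)^2 = K (1 - K)^2` -/
lemma y5 : y ^ 5 * (1 + K) ^ 2 = K * (1 - K) ^ 2 := by
  have h := congrArg (V ℤ 2) x5
  simp only [map_mul, map_sub, map_add, map_pow, map_one] at h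
  exact h

lemma x_const : constantCoeff x = 0 := by
  unfold x
  rw [map_mul, map_mul, constantCoeff_X, zero_mul, zero_mul]

lemma k_const : constantCoeff k = 0 := by
  rw [k_eq, map_mul, x_const, zero_mul]

lemma K_const : constantCoeff K = 0 := by
  unfold K
  rw [V_const, k_const]

lemma y5' : y ^ 5 * (1 - k) = k ^ 2 * (1 + k) := by
  have h := y_k
  calc y ^ 5 * (1 - k) = y ^ 4 * (y * (1 - k)) := by ring
    _ = y ^ 4 * (x ^ 2 * (1 + k)) := by rw [h]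
    _ = (x * y ^ 2) ^ 2 * (1 + k) := by ring
    _ = k ^ 2 * (1 + k) := by rw [← k_eq]

/-- the quadratic equation of `k` over `K` -/
theorem hG : (1 + K) * k ^ 2 + 2 * K * k - K * (1 - K) = 0 := by
  have h1 := y5
  have h2 := y5'
  have h3 : ((1 + K) * k ^ 2 + 2 * K * k - K * (1 - K)) * ((1 + K) * k + (1 - K)) = 0 := by
    linear_combination (-(1 + K) ^ 2) * h2 + (1 - k) * h1
  rcases mul_eq_zero.1 h3 with h | h
  · exact h
  · exfalso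
    have := congrArg (constantCoeff (R := ℤ)) h
    simp only [map_add, map_sub, map_mul, map_one, K_const, k_const, map_zero] at this
    norm_num at this

/-- the odd function -/
noncomputable def c : ℤ⟦X⟧ := (1 + K) * k + K

lemma c_eq : c = (1 + K) * k + K := rfl

lemma c_sq : c ^ 2 = K * (1 + K - K ^ 2) := by
  rw [c_eq]
  linear_combination (1 + K) * hG

end Pool.Agent.K7.H67.RC
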