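import Mathlib

/-! Infinite products of power series. -/

set_option autoImplicit false

namespace Pool.Agent.K7.H67.RC

open PowerSeries Finset

variable {R : Type*} [CommRing R]

/-- `P` is the infinite product of the `f i`, where `f i = 1 + O(X^(i+1))` -/
def IP (f : ℕ → R⟦X⟧) (P : R⟦X⟧) : Prop :=
  (∀ i, (X : R⟦X⟧) ^ (i + 1) ∣ f i - 1) ∧ ∀ n, (X : R⟦X⟧) ^ n ∣ P - ∏ i ∈ range n, f i

lemma eq_of_forall_dvd {P Q : R⟦X⟧} (h : ∀ n, (X : R⟦X⟧) ^ n ∣ P - Q) : P = Q := by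
  ext m
  have := (X_pow_dvd_iff.1 (h (m + 1))) m (Nat.lt_succ_self m)
  rw [map_sub, sub_eq_zero] at this
  exact this

lemma IP.unique {f : ℕ → R⟦X⟧} {P Q : R⟦X⟧} (h : IP f P) (h' : IP f Q) : P = Q := by
  apply eq_of_forall_dvd
  intro n
  have := dvd_sub (h.2 n) (h'.2 n)
  rwa [sub_sub_sub_cancel_right] at this

lemma IP.congr {f g : ℕ → R⟦X⟧} {P : R⟦X⟧} (h : IP f P) (hfg : ∀ i, f i = g i) : IP g P := by
  have : f = g := funext hfg
  rwa [this] at h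

lemma dvd_mul_sub_one {d a b : R⟦X⟧} (ha : d ∣ a - 1) (hb : d ∣ b - 1) : d ∣ a * b - 1 := by
  have e : a * b - 1 = (a - 1) * b + (b - 1) := by ring
  rw [e]
  exact dvd_add (ha.mul_right _) hb

lemma dvd_prod_sub_one' {ι : Type*} {d : R⟦X⟧} (s : Finset ι) (f : ι → R⟦X⟧)
    (h : ∀ i ∈ s, d ∣ f i - 1) : d ∣ ∏ i ∈ s, f i - 1 := by
  classical
  induction s using Finset.induction_on with
  | empty => simp
  | insert a s ha ih =>
    rw [prod_insert ha]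
    exact dvd_mul_sub_one (h a (mem_insert_self _ _)) (ih fun i hi => h i (mem_insert_of_mem hi))

/-- the tail of a good product -/
lemma good_tail {f : ℕ → R⟦X⟧} (hf : ∀ i, (X : R⟦X⟧) ^ (i + 1) ∣ f i - 1) {n m : ℕ} (h : n ≤ m) :
    (X : R⟦X⟧) ^ n ∣ ∏ i ∈ range m, f i - ∏ i ∈ range n, f i := by
  obtain ⟨k, rfl⟩ := Nat.exists_eq_add_of_le h
  rw [prod_range_add]
  have h1 : (X : R⟦X⟧) ^ n ∣ ∏ i ∈ range k, f (n + i) - 1 := by
    apply dvd_prod_sub_one'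
    intro i _
    exact dvd_trans (pow_dvd_pow _ (by omega)) (hf (n + i))
  have e : (∏ i ∈ range n, f i) * ∏ i ∈ range k, f (n + i) - ∏ i ∈ range n, f i =
    (∏ i ∈ range n, f i) * (∏ i ∈ range k, f (n + i) - 1) := by ring
  rw [e]
  exact h1.mul_left _

lemma IP.of_le {f : ℕ → R⟦X⟧} {P : R⟦X⟧} (hf : ∀ i, (X : R⟦X⟧) ^ (i + 1) ∣ f i - 1)
    (h : ∀ n, ∃ m, n ≤ m ∧ (X : R⟦X⟧) ^ n ∣ P - ∏ i ∈ range m, f i) : IP f P := by
  refine ⟨hf, fun n => ?_⟩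
  obtain ⟨m, hm, h1⟩ := h n
  have := dvd_add h1 (good_tail hf hm)
  rwa [sub_add_sub_cancel] at this

lemma IP.le {f : ℕ → R⟦X⟧} {P : R⟦X⟧} (h : IP f P) {n m : ℕ} (hn : n ≤ m) :
    (X : R⟦X⟧) ^ n ∣ P - ∏ i ∈ range m, f i :=
  dvd_trans (pow_dvd_pow _ hn) (h.2 m)

lemma exists_IP {f : ℕ → R⟦X⟧} (hf : ∀ i, (X : R⟦X⟧) ^ (i + 1) ∣ f i - 1) : ∃ P, IP f P := by
  refine ⟨PowerSeries.mk fun m => coeff m (∏ i ∈ range (m + 1), f i), hf, fun n => ?_⟩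
  rw [X_pow_dvd_iff]
  intro m hm
  rw [map_sub, coeff_mk, sub_eq_zero]
  have h := good_tail hf (n := m + 1) (m := n) (by omega)
  have h2 := (X_pow_dvd_iff.1 h) m (Nat.lt_succ_self m)
  rw [map_sub, sub_eq_zero] at h2
  exact h2.symm

lemma IP.mul {f g : ℕ → R⟦X⟧} {P Q : R⟦X⟧} (h : IP f P) (h' : IP g Q) :
    IP (fun i => f i * g i) (P * Q) := by
  refine ⟨fun i => dvd_mul_sub_one (h.1 i) (h'.1 i), fun n => ?_⟩
  rw [prod_mul_distrib]
  have e : P * Q - (∏ i ∈ range n, f i) * ∏ i ∈ range n, g i =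
    (P - ∏ i ∈ range n, f i) * Q + (∏ i ∈ range n, f i) * (Q - ∏ i ∈ range n, g i) := by ring
  rw [e]
  exact dvd_add ((h.2 n).mul_right _) ((h'.2 n).mul_left _)

lemma IP.one : IP (fun _ => (1 : R⟦X⟧)) 1 := by
  refine ⟨fun i => by simp, fun n => by simp⟩

lemma IP.pow {f : ℕ → R⟦X⟧} {P : R⟦X⟧} (h : IP f P) (k : ℕ) : IP (fun i => f i ^ k) (P ^ k) := by
  induction k with
  | zero => simpa using IP.one
  | succ k ih =>
    rw [pow_succ]
    exact (ih.mul h).congr fun i => (pow_succ _ _).symm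

lemma IP.prod {ι : Type*} (s : Finset ι) {f : ι → ℕ → R⟦X⟧} {P : ι → R⟦X⟧}
    (h : ∀ j ∈ s, IP (f j) (P j)) : IP (fun i => ∏ j ∈ s, f j i) (∏ j ∈ s, P j) := by
  classical
  induction s using Finset.induction_on with
  | empty => simpa using IP.one
  | insert a s ha ih =>
    rw [prod_insert ha]
    exact ((h a (mem_insert_self _ _)).mul (ih fun i hi => h i (mem_insert_of_mem hi))).congr
      fun i => (prod_insert (f := fun j => f j i) ha).symm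

lemma IP.regroup {f : ℕ → R⟦X⟧} {P : R⟦X⟧} (h : IP f P) (p : ℕ) (hp : 1 ≤ p) :
    IP (fun i => ∏ r ∈ range p, f (p * i + r)) P := by
  have key : ∀ n, ∏ i ∈ range n, ∏ r ∈ range p, f (p * i + r) = ∏ i ∈ range (p * n), f i := by
    intro n
    induction n with
    | zero => simp
    | succ n ih =>
      rw [prod_range_succ, ih, Nat.mul_succ, prod_range_add]
  refine ⟨fun i => ?_, fun n => ?_⟩
  · apply dvd_prod_sub_one'
    intro r _
    have : i ≤ p * i := Nat.le_mul_of_pos_left i hp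
    exact dvd_trans (pow_dvd_pow _ (by omega)) (h.1 (p * i + r))
  · rw [key]
    exact h.le (Nat.le_mul_of_pos_left n hp)

lemma IP.map {S : Type*} [CommRing S] {f : ℕ → R⟦X⟧} {P : R⟦X⟧} (h : IP f P)
    (φ : R⟦X⟧ →+* S⟦X⟧) (hφ : (X : S⟦X⟧) ∣ φ X) : IP (fun i => φ (f i)) (φ P) := by
  have key : ∀ n (a : R⟦X⟧), (X : R⟦X⟧) ^ n ∣ a → (X : S⟦X⟧) ^ n ∣ φ a := by
    intro n a ha
    have h1 := map_dvd φ ha
    rw [map_pow] at h1
    exact dvd_trans (pow_dvd_pow_of_dvd hφ n) h1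
  refine ⟨fun i => ?_, fun n => ?_⟩
  · have := key _ _ (h.1 i)
    rwa [map_sub, map_one] at this
  · have := key _ _ (h.2 n)
    rwa [map_sub, map_prod] at this

lemma IP.constCoeff {f : ℕ → R⟦X⟧} {P : R⟦X⟧} (h : IP f P) : constantCoeff P = 1 := by
  have h1 := h.2 1
  rw [pow_one, X_dvd_iff, prod_range_one, map_sub, sub_eq_zero] at h1
  have h2 := h.1 0
  rw [zero_add, pow_one, X_dvd_iff, map_sub, sub_eq_zero, map_one] at h2
  rw [h1, h2]

lemma good_one_sub {a k : ℕ} (ha : 1 ≤ a) (hk : 1 ≤ k) (i : ℕ) :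
    (X : R⟦X⟧) ^ (i + 1) ∣ (1 - X ^ (k * i + a)) - 1 := by
  have e : (1 - (X : R⟦X⟧) ^ (k * i + a)) - 1 = - X ^ (k * i + a) := by ring
  rw [e, dvd_neg]
  apply pow_dvd_pow
  have : i ≤ k * i := Nat.le_mul_of_pos_left i hk
  omega

lemma good_one_add {a k : ℕ} (ha : 1 ≤ a) (hk : 1 ≤ k) (i : ℕ) :
    (X : R⟦X⟧) ^ (i + 1) ∣ (1 + X ^ (k * i + a)) - 1 := by
  have e : (1 + (X : R⟦X⟧) ^ (k * i + a)) - 1 = X ^ (k * i + a) := by ring
  rw [e]
  apply pow_dvd_pow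
  have : i ≤ k * i := Nat.le_mul_of_pos_left i hk
  omega

open Classical in
/-- `∏ (1 - X^(k i + a))` -/
noncomputable def Q (R : Type*) [CommRing R] (a k : ℕ) : R⟦X⟧ :=
  if h : 1 ≤ a ∧ 1 ≤ k then (exists_IP (R := R) (good_one_sub h.1 h.2)).choose else 1

open Classical in
/-- `∏ (1 + X^(k i + a))` -/
noncomputable def Qp (R : Type*) [CommRing R] (a k : ℕ) : R⟦X⟧ :=
  if h : 1 ≤ a ∧ 1 ≤ k then (exists_IP (R := R) (good_one_add h.1 h.2)).choose else 1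

lemma Q_spec {a k : ℕ} (ha : 1 ≤ a) (hk : 1 ≤ k) : IP (fun i => 1 - (X : R⟦X⟧) ^ (k * i + a)) (Q R a k) := by
  unfold Q
  rw [dif_pos ⟨ha, hk⟩]
  exact (exists_IP (R := R) (good_one_sub ha hk)).choose_spec

lemma Qp_spec {a k : ℕ} (ha : 1 ≤ a) (hk : 1 ≤ k) : IP (fun i => 1 + (X : R⟦X⟧) ^ (k * i + a)) (Qp R a k) := by
  unfold Qp
  rw [dif_pos ⟨ha, hk⟩]
  exact (exists_IP (R := R) (good_one_add ha hk)).choose_spec

lemma Q_mul_Qp {a k : ℕ} (ha : 1 ≤ a) (hk : 1 ≤ k) : Q R a k * Qp R a k = Q R (2 * a) (2 * k) := by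
  refine (((Q_spec ha hk).mul (Qp_spec ha hk)).congr fun i => ?_).unique (Q_spec (by omega) (by omega))
  have e : 2 * k * i + 2 * a = 2 * (k * i + a) := by ring
  rw [e, two_mul (k * i + a), pow_add]
  ring

lemma Q_regroup {a k : ℕ} (ha : 1 ≤ a) (hk : 1 ≤ k) (p : ℕ) (hp : 1 ≤ p) :
    Q R a k = ∏ r ∈ range p, Q R (a + r * k) (p * k) := by
  refine ((Q_spec ha hk).regroup p hp).unique ((IP.prod (range p) (f := fun r i => 1 - X ^ (p * k * i + (a + r * k)))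
    fun r _ => Q_spec (by omega) (Nat.mul_pos hp hk)).congr fun i => ?_)
  refine prod_congr rfl fun r _ => ?_
  congr 2
  ring

lemma Q_const {a k : ℕ} (ha : 1 ≤ a) (hk : 1 ≤ k) : constantCoeff (Q R a k) = 1 :=
  (Q_spec ha hk).constCoeff

lemma Q_ne [Nontrivial R] {a k : ℕ} (ha : 1 ≤ a) (hk : 1 ≤ k) : Q R a k ≠ 0 := by
  intro h
  have := Q_const (R := R) ha hk
  rw [h, map_zero] at this
  exact zero_ne_one this

lemma Q_map {S : Type*} [CommRing S] (φ : R →+* S) {a k : ℕ} (ha : 1 ≤ a) (hk : 1 ≤ k) :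
    PowerSeries.map φ (Q R a k) = Q S a k := by
  refine (((Q_spec (R := R) ha hk).map (PowerSeries.map φ) (by simp)).congr fun i => ?_).unique
    (Q_spec ha hk)
  rw [map_sub, map_one, map_pow, PowerSeries.map_X]

end Pool.Agent.K7.H67.RC
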