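import Mathlib
import Pool.Agent.V11172.PdA

/-! Jacobi's triple product with a sign. -/

set_option autoImplicit false

namespace Pool.Agent.K7.H67.RC

open Finset Pool.Agent.Y246.Z700 Pool.Agent.Helper308.QS Pool.Agent.V11172.Pd

section field

variable {F : Type*} [Field F]

open Pool.Agent.H464R3.J

theorem prod_dn' {x ε : F} (hx : x ≠ 0) (hε : ε * ε = 1) (k a n : ℕ) (ha : a ≤ k) :
    (∏ j ∈ range n, (1 - -(ε * (x ^ a * (x ^ (k * n))⁻¹)) * (x ^ k) ^ j)) *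
      x ^ (∑ i ∈ range n, (k * (i + 1) - a)) =
        ε ^ n * ∏ i ∈ range n, (1 + ε * x ^ (k * (i + 1) - a)) := by
  rw [← Finset.prod_range_reflect, ← Finset.prod_pow_eq_pow_sum, ← prod_mul_distrib]
  have h0 : ε ^ n = ∏ _i ∈ range n, ε := by rw [prod_const, card_range]
  rw [h0, ← prod_mul_distrib]
  refine prod_congr rfl fun i hi => ?_
  rw [mem_range] at hi
  obtain ⟨r, rfl⟩ := Nat.exists_eq_add_of_lt hi
  have e1 : i + r + 1 - 1 - i = r := by omega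
  rw [e1]
  have h : a ≤ k * (i + 1) := ha.trans (Nat.le_mul_of_pos_right _ (by omega))
  obtain ⟨t, ht⟩ := Nat.exists_eq_add_of_le h
  have e : k * (i + 1) - a = t := by omega
  rw [e]
  have e2 : x ^ (k * (i + r + 1)) = x ^ a * x ^ t * (x ^ k) ^ r := by
    rw [← pow_mul, ← pow_add, ← pow_add]
    congr 1
    rw [show k * (i + r + 1) = k * (i + 1) + k * r by ring, ht]
  rw [e2]
  have h1 : x ^ a ≠ 0 := pow_ne_zero _ hx
  have h2 : x ^ t ≠ 0 := pow_ne_zero _ hx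
  have h3 : (x ^ k) ^ r ≠ 0 := pow_ne_zero _ (pow_ne_zero _ hx)
  have h4 : (1 - -(ε * (x ^ a * (x ^ a * x ^ t * (x ^ k) ^ r)⁻¹)) * (x ^ k) ^ r) * x ^ t = x ^ t + ε := by
    field_simp
    ring
  rw [h4]
  linear_combination (-(x ^ t)) * hε

theorem prod_up' {x ε : F} (hx : x ≠ 0) (k a n : ℕ) :
    (∏ j ∈ range n, (1 - -(ε * (x ^ a * (x ^ (k * n))⁻¹)) * (x ^ k) ^ (n + j))) =
      ∏ i ∈ range n, (1 + ε * x ^ (k * i + a)) := by
  refine prod_congr rfl fun j _ => ?_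
  have h2 : x ^ (k * n) ≠ 0 := pow_ne_zero _ hx
  rw [← pow_mul, show k * (n + j) = k * n + k * j by ring, pow_add, pow_add x (k * j) a]
  field_simp
  ring

lemma sq_pow_cancel {ε : F} (hε : ε * ε = 1) (n : ℕ) : ε ^ n * ε ^ n = 1 := by
  rw [← mul_pow, hε, one_pow]

/-- finite triple product -/
theorem fin_jtp' {x ε : F} (hx : x ≠ 0) (hε : ε * ε = 1) (k a n : ℕ) (ha : a ≤ k) (hg : Gen (x ^ k) (2 * n))
    (e : ℤ → ℤ) (he : ∀ j, 2 * e j = k * j * (j - 1) + 2 * a * j) (he0 : ∀ j, 0 ≤ e j) :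
    (∏ i ∈ range n, (1 + ε * x ^ (k * (i + 1) - a))) * (∏ i ∈ range n, (1 + ε * x ^ (k * i + a))) =
      ∑ b ∈ range (2 * n + 1), f (x ^ k) (2 * n) / (f (x ^ k) b * f (x ^ k) (2 * n - b)) *
        (ε ^ (b + n) * x ^ ((e ((b : ℤ) - n)).toNat)) := by
  have h := qbinom (q := x ^ k) (-(ε * (x ^ a * (x ^ (k * n))⁻¹))) (2 * n) hg
  rw [show 2 * n = n + n by ring, Finset.prod_range_add, ← show 2 * n = n + n by ring] at h
  rw [prod_up' hx] at h
  have h0 : (∏ i ∈ range n, (1 + ε * x ^ (k * (i + 1) - a))) = ε ^ n *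
      ((∏ j ∈ range n, (1 - -(ε * (x ^ a * (x ^ (k * n))⁻¹)) * (x ^ k) ^ j)) *
      x ^ (∑ i ∈ range n, (k * (i + 1) - a))) := by
    rw [prod_dn' hx hε k a n ha, ← mul_assoc, sq_pow_cancel hε, one_mul]
  rw [h0]
  have e0 : ∀ P Q R S : F, S * (P * Q) * R = S * (Q * (P * R)) := fun P Q R S => by ring
  rw [e0, h, Finset.mul_sum, Finset.mul_sum]
  refine Finset.sum_congr rfl fun b hb => ?_
  have hA : b ≤ 2 * n := Nat.lt_succ_iff.1 (Finset.mem_range.1 hb)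
  set S := ∑ i ∈ range n, (k * (i + 1) - a) with hS
  have e1 : S + k * b.choose 2 + a * b = (e ((b : ℤ) - n)).toNat + k * n * b := by
    have h1 := sum_exp k a n ha
    rw [← hS] at h1
    have h2 := choose_two' b
    have h3 := he ((b : ℤ) - n)
    have h4 : ((e ((b : ℤ) - n)).toNat : ℤ) = e ((b : ℤ) - n) := Int.toNat_of_nonneg (he0 _)
    have h1' : 2 * (S : ℤ) + 2 * a * n = k * n * (n + 1) := by exact_mod_cast h1
    have h5 : 2 * ((S : ℤ) + k * b.choose 2 + a * b) =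
        2 * (((e ((b : ℤ) - n)).toNat : ℤ) + k * n * b) := by
      rw [h4]
      linear_combination h1' + (k : ℤ) * h2 - h3
    have h6 : ((S + k * b.choose 2 + a * b : ℕ) : ℤ) =
        (((e ((b : ℤ) - n)).toNat + k * n * b : ℕ) : ℤ) := by
      push_cast
      linarith
    exact_mod_cast h6
  have e2 : x ^ S * ((-1) ^ b * (x ^ k) ^ (b.choose 2) * (-(ε * (x ^ a * (x ^ (k * n))⁻¹))) ^ b) =
      ε ^ b * x ^ ((e ((b : ℤ) - n)).toNat) := by
    have h2 : x ^ (k * n * b) ≠ 0 := pow_ne_zero _ hx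
    have e3 : ((-1 : F)) ^ b * (-1) ^ b = 1 := by rw [← mul_pow]; simp
    rw [neg_pow (ε * (x ^ a * (x ^ (k * n))⁻¹)) b, mul_pow ε, mul_pow (x ^ a), inv_pow, ← pow_mul x (k * n) b,
      ← pow_mul, ← pow_mul x a]
    calc x ^ S * ((-1) ^ b * x ^ (k * b.choose 2) * ((-1) ^ b * (ε ^ b * (x ^ (a * b) * (x ^ (k * n * b))⁻¹))))
        = ((-1) ^ b * (-1) ^ b) * ε ^ b * (x ^ S * x ^ (k * b.choose 2) * x ^ (a * b)) *
          (x ^ (k * n * b))⁻¹ := by ring
      _ = ε ^ b * x ^ ((e ((b : ℤ) - n)).toNat) := by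
          rw [e3, one_mul, ← pow_add, ← pow_add, e1, pow_add, mul_assoc, mul_assoc, mul_inv_cancel₀ h2, mul_one]
  rw [pow_add]
  calc ε ^ n * (x ^ S * (f (x ^ k) (2 * n) / (f (x ^ k) b * f (x ^ k) (2 * n - b)) *
      (-1) ^ b * (x ^ k) ^ (b.choose 2) * (-(ε * (x ^ a * (x ^ (k * n))⁻¹))) ^ b)) =
      ε ^ n * (f (x ^ k) (2 * n) / (f (x ^ k) b * f (x ^ k) (2 * n - b)) *
      (x ^ S * ((-1) ^ b * (x ^ k) ^ (b.choose 2) * (-(ε * (x ^ a * (x ^ (k * n))⁻¹))) ^ b))) := by ring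
    _ = _ := by rw [e2]; ring

end field

open Polynomial

theorem jtp_aux' {F : Type*} [Field F] (a b U V W y : F) (ha : a ≠ 0) (hb : b ≠ 0)
    (h1 : W = a * U) (h2 : W = b * V) : W / (a * b) * y * W = y * (U * V) := by
  have : W / (a * b) * y * W = (W * W) / (a * b) * y := by ring
  rw [this]
  nth_rw 1 [h1]
  rw [h2]
  field_simp

/-- polynomial form -/
theorem poly_jtp' (ε : ℤ) (hε : ε * ε = 1) (k a n : ℕ) (hk : k ≠ 0) (ha : a ≤ k)
    (e : ℤ → ℤ) (he : ∀ j, 2 * e j = k * j * (j - 1) + 2 * a * j) (he0 : ∀ j, 0 ≤ e j) :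
    (∏ i ∈ range n, (1 + C ε * (X : ℤ[X]) ^ (k * (i + 1) - a))) *
      (∏ i ∈ range n, (1 + C ε * (X : ℤ[X]) ^ (k * i + a))) * expand ℤ k (PP (2 * n)) =
      ∑ b ∈ range (2 * n + 1), (C ε ^ (b + n) * X ^ ((e ((b : ℤ) - n)).toNat)) *
        expand ℤ k ((∏ j ∈ Ico b (2 * n), (1 - X ^ (j + 1))) *
          ∏ j ∈ Ico (2 * n - b) (2 * n), (1 - X ^ (j + 1))) := by
  let F := FractionRing ℤ[X]
  have hinj : Function.Injective (algebraMap ℤ[X] F) := IsFractionRing.injective ℤ[X] F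
  set x : F := algebraMap ℤ[X] F X with hx
  set ε' : F := algebraMap ℤ[X] F (C ε) with hε'
  have hεε : ε' * ε' = 1 := by
    rw [hε', ← map_mul, ← C_mul, hε, C_1, map_one]
  have hx0 : x ≠ 0 := by
    rw [hx, Ne, map_eq_zero_iff _ hinj]
    exact X_ne_zero
  have hg : ∀ N, Pool.Agent.H464R3.J.Gen (x ^ k) N := fun N => Gen_X k hk N
  have hf : ∀ N, Pool.Agent.H464R3.J.f (x ^ k) N = algebraMap ℤ[X] F (expand ℤ k (PP N)) := by
    intro N
    unfold Pool.Agent.H464R3.J.f PP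
    rw [map_prod, map_prod]
    refine Finset.prod_congr rfl fun j _ => ?_
    rw [map_sub, map_one, map_pow, expand_X, map_sub, map_one, map_pow, map_pow]
  have hPne : ∀ N, algebraMap ℤ[X] F (expand ℤ k (PP N)) ≠ 0 := fun N => by
    rw [← hf]
    exact (hg N).f_ne le_rfl
  apply hinj
  have h := fin_jtp' hx0 hεε k a n ha (hg _) e he he0
  rw [map_mul, map_mul, map_prod, map_prod, map_sum]
  have c1 : ∏ i ∈ range n, algebraMap ℤ[X] F (1 + C ε * (X : ℤ[X]) ^ (k * (i + 1) - a)) =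
      ∏ i ∈ range n, (1 + ε' * x ^ (k * (i + 1) - a)) := by
    refine Finset.prod_congr rfl fun j _ => ?_
    rw [map_add, map_one, map_mul, map_pow]
  have c2 : ∏ i ∈ range n, algebraMap ℤ[X] F (1 + C ε * (X : ℤ[X]) ^ (k * i + a)) =
      ∏ i ∈ range n, (1 + ε' * x ^ (k * i + a)) := by
    refine Finset.prod_congr rfl fun j _ => ?_
    rw [map_add, map_one, map_mul, map_pow]
  rw [c1, c2, h, Finset.sum_mul]
  refine Finset.sum_congr rfl fun b hb => ?_
  have hA : b ≤ 2 * n := Nat.lt_succ_iff.1 (Finset.mem_range.1 hb)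
  have e1 : PP (2 * n) = PP b * ∏ j ∈ Ico b (2 * n), (1 - X ^ (j + 1)) := by
    unfold PP
    rw [Finset.prod_range_mul_prod_Ico _ hA]
  have e2 : PP (2 * n) = PP (2 * n - b) * ∏ j ∈ Ico (2 * n - b) (2 * n), (1 - X ^ (j + 1)) := by
    unfold PP
    rw [Finset.prod_range_mul_prod_Ico _ (by omega)]
  rw [hf, hf, hf, map_mul (expand ℤ k), map_mul (algebraMap ℤ[X] F), map_mul (algebraMap ℤ[X] F),
    map_mul (algebraMap ℤ[X] F), map_pow, map_pow, ← hx, ← hε']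
  exact jtp_aux' _ _ _ _ _ _ (hPne b) (hPne (2 * n - b))
    (by rw [← map_mul, ← map_mul, ← e1]) (by rw [← map_mul, ← map_mul, ← e2])

/-- the triple product modulo a power of the variable -/
theorem jtp_dvd' (ε : ℤ) (hε : ε * ε = 1) (k a n : ℕ) (hk : k ≠ 0) (ha : a ≤ k)
    (e : ℤ → ℤ) (he : ∀ j, 2 * e j = k * j * (j - 1) + 2 * a * j) (he0 : ∀ j, 0 ≤ e j) :
    (X ^ (k * n) : ℤ[X]) ∣ (∏ i ∈ range n, (1 + C ε * (X : ℤ[X]) ^ (k * (i + 1) - a))) *
      (∏ i ∈ range n, (1 + C ε * (X : ℤ[X]) ^ (k * i + a))) * expand ℤ k (PP (2 * n)) -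
      ∑ b ∈ range (2 * n + 1), C ε ^ (b + n) * X ^ ((e ((b : ℤ) - n)).toNat) := by
  rw [poly_jtp' ε hε k a n hk ha e he he0, ← Finset.sum_sub_distrib]
  refine Finset.dvd_sum fun b hb => ?_
  have hA : b ≤ 2 * n := Nat.lt_succ_iff.1 (Finset.mem_range.1 hb)
  set U : ℤ[X] := ∏ j ∈ Ico b (2 * n), (1 - X ^ (j + 1)) with hU
  set V : ℤ[X] := ∏ j ∈ Ico (2 * n - b) (2 * n), (1 - X ^ (j + 1)) with hV
  have h1 : (X ^ (min b (2 * n - b) + 1) : ℤ[X]) ∣ U - 1 :=
    dvd_prod_sub_one _ _ fun j hj => by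
      have := (Finset.mem_Ico.1 hj).1
      omega
  have h2 : (X ^ (min b (2 * n - b) + 1) : ℤ[X]) ∣ V - 1 :=
    dvd_prod_sub_one _ _ fun j hj => by
      have := (Finset.mem_Ico.1 hj).1
      omega
  have h3 : (X ^ (min b (2 * n - b) + 1) : ℤ[X]) ∣ U * V - 1 := by
    have e : U * V - 1 = (U - 1) * V + (V - 1) := by ring
    rw [e]
    exact dvd_add (h1.mul_right _) h2
  have h3' : (X ^ (k * (min b (2 * n - b) + 1)) : ℤ[X]) ∣ expand ℤ k (U * V) - 1 := by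
    have h := map_dvd (expand ℤ k) h3
    rwa [map_pow, expand_X, ← pow_mul, map_sub, map_one] at h
  have h4 : (X ^ (k * n) : ℤ[X]) ∣ X ^ ((e ((b : ℤ) - n)).toNat) *
      X ^ (k * (min b (2 * n - b) + 1)) := by
    rw [← pow_add]
    refine pow_dvd_pow _ ?_
    have h5 := he ((b : ℤ) - n)
    have h6 : ((e ((b : ℤ) - n)).toNat : ℤ) = e ((b : ℤ) - n) := Int.toNat_of_nonneg (he0 _)
    have hk' : (1 : ℤ) ≤ k := by exact_mod_cast Nat.one_le_iff_ne_zero.2 hk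
    have ha' : (a : ℤ) ≤ k := by exact_mod_cast ha
    have ha0 : (0 : ℤ) ≤ a := by positivity
    zify
    rw [h6]
    rcases le_total b (2 * n - b) with hl | hl
    · rw [min_eq_left (by zify at hl; rw [Nat.cast_sub hA] at hl ⊢; push_cast at hl ⊢; linarith)]
      obtain ⟨m, hm⟩ : ∃ m : ℕ, b + m = n := ⟨n - b, by omega⟩
      have e1 : (b : ℤ) - n = -m := by rw [← hm]; push_cast; ring
      rw [e1] at h5 ⊢
      have e2 : (n : ℤ) = b + m := by rw [← hm]; push_cast; ring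
      rw [e2]
      have h7 : (0 : ℤ) ≤ k * ((m - 1) * (m - 2)) := by
        have : (0 : ℤ) ≤ ((m : ℤ) - 1) * (m - 2) := by
          rcases Nat.lt_or_ge m 2 with h | h
          · interval_cases m <;> norm_num
          · have : (2 : ℤ) ≤ m := by exact_mod_cast h
            nlinarith
        positivity
      have h8 : (0 : ℤ) ≤ (k - a) * m := mul_nonneg (by linarith) (by positivity)
      nlinarith
    · rw [min_eq_right (by zify at hl; rw [Nat.cast_sub hA] at hl ⊢; push_cast at hl ⊢; linarith),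
        Nat.cast_sub hA]
      obtain ⟨m, hm⟩ : ∃ m : ℕ, b = n + m := ⟨b - n, by omega⟩
      have e1 : (b : ℤ) - n = m := by rw [hm]; push_cast; ring
      rw [e1] at h5 ⊢
      have e2 : (b : ℤ) = n + m := by rw [hm]; push_cast; ring
      rw [e2]
      push_cast
      have h7 : (0 : ℤ) ≤ k * ((m - 1) * (m - 2)) := by
        have : (0 : ℤ) ≤ ((m : ℤ) - 1) * (m - 2) := by
          rcases Nat.lt_or_ge m 2 with h | h
          · interval_cases m <;> norm_num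
          · have : (2 : ℤ) ≤ m := by exact_mod_cast h
            nlinarith
        positivity
      have h8 : (0 : ℤ) ≤ a * m := by positivity
      nlinarith
  have h5 : (X ^ (k * n) : ℤ[X]) ∣ C ε ^ (b + n) * (X ^ ((e ((b : ℤ) - n)).toNat) *
      (expand ℤ k (U * V) - 1)) := (h4.trans (mul_dvd_mul_left _ h3')).mul_left _
  rwa [← mul_assoc, mul_sub, mul_one] at h5

end Pool.Agent.K7.H67.RC
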