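import Pool.Agent.K7.H67.RC.M2

/-! The final step of each chain. -/

set_option autoImplicit false

namespace Pool.Agent.K7.H67.RC

open PowerSeries Finset

lemma Vk : V ℤ 2 k = K := rfl

/-- the start: `(1 + k - k^2) (1 - 4 k - k^2)^2` -/
noncomputable def D0 : ℤ⟦X⟧ := (1 + k - k ^ 2) * (1 - 4 * k - k ^ 2) ^ 2

lemma D0_const : constantCoeff D0 = 1 := by
  unfold D0
  simp [k_const]

lemma o_m2 {m : ℤ} (hm : 2 ∣ m) {o d q : ℤ⟦X⟧} (j : ℕ)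
    (h : C m ∣ V ℤ 2 (d * x ^ (2 * j)) * o - V ℤ 2 q * c) :
    m2 d ^ 2 * x' ^ (4 * j) * m2 o = m2 q ^ 2 * (k' * (1 + k' + k' ^ 2)) := by
  have h1 : C 2 ∣ V ℤ 2 (d * x ^ (2 * j)) * o - V ℤ 2 q * c := by
    refine dvd_trans ?_ h
    obtain ⟨l, rfl⟩ := hm
    rw [map_mul]
    exact dvd_mul_right _ _
  rw [← m2_zero_iff, map_sub, sub_eq_zero, map_mul m2, map_mul m2, V_two, V_two, map_mul, map_pow, c'] at h1
  rw [← h1]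
  unfold x'
  ring

/-- the last step with its certificates -/
theorem last1 (r : ℕ) {o d q : ℤ⟦X⟧} (j : ℕ) (ho : U ℤ 2 o = 0)
    (h : C ((2 : ℤ) ^ (r + 1)) ∣ V ℤ 2 (d * x ^ (2 * j)) * o - V ℤ 2 q * c)
    (hd : constantCoeff d = 1) {DH NH dH wH qH : ℤ⟦X⟧} (jH nH : ℕ) (hn : 4 * j + jH = 5 * nH)
    (certA : C ((2 : ℤ) ^ (r + 2)) ∣ DH * (1 + k) ^ (2 * nH) * (q ^ 2 * (k * (1 + k - k ^ 2))) -
      d ^ 2 * (k ^ nH * (1 - k) ^ (2 * nH)) * NH)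
    (hDH : constantCoeff DH = 1) (hdH : constantCoeff dH = 1)
    (certB : C ((2 : ℤ) ^ (r + 2)) ∣ V ℤ 2 dH * (k ^ jH * NH) -
      DH * (V ℤ 2 (C ((2 : ℤ) ^ (r + 1)) * wH) + V ℤ 2 qH * c))
    {s T : (ZMod 2)⟦X⟧} (hs : m2 o = X * V (ZMod 2) 4 s) (hs0 : s ≠ 0)
    (hw : ∀ w : ℤ⟦X⟧, m2 dH * x' ^ (2 * jH) * m2 w = m2 wH → m2 w = X * s * T ^ 2) (n : ℕ) :
    (2 : ℤ) ^ r ∣ coeff (4 * n + 3) o ∧ (2 : ℤ) ^ (r + 1) ∣ coeff (8 * n + 7) o := by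
  have hev : (2 : ℤ) ∣ 2 ^ (r + 1) := dvd_pow_self 2 (by omega)
  obtain ⟨H, hH, h1⟩ := sqstep hev j ho h
  rw [← pow_succ' (2 : ℤ) (r + 1)] at h1
  have h2 := conv _ (4 * j) jH nH hn h1 (by rw [map_pow, hd, one_pow]) certA
  have h3 := (ustep _ jH h2 hDH certB).2
  have h4 : C ((2 : ℤ) ^ (r + 1)) ∣ dH * x ^ (2 * jH) * U ℤ 2 H := by
    have e : dH * x ^ (2 * jH) * U ℤ 2 H = (dH * x ^ (2 * jH) * U ℤ 2 H - C ((2 : ℤ) ^ (r + 1)) * wH) +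
      C ((2 : ℤ) ^ (r + 1)) * wH := by ring
    rw [e]
    refine dvd_add (dvd_trans ?_ h3) (dvd_mul_right _ _)
    rw [pow_succ (2 : ℤ) (r + 1), map_mul]
    exact dvd_mul_right _ _
  rw [mul_assoc] at h4
  have h5 := cancel_x _ (cancel_unit hdH h4)
  obtain ⟨w, hw'⟩ := h5
  have h6 : C ((2 : ℤ) ^ (r + 1) * 2) ∣ C ((2 : ℤ) ^ (r + 1)) * (dH * x ^ (2 * jH) * w - wH) := by
    rw [← pow_succ]
    have e : C ((2 : ℤ) ^ (r + 1)) * (dH * x ^ (2 * jH) * w - wH) =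
      dH * x ^ (2 * jH) * U ℤ 2 H - C ((2 : ℤ) ^ (r + 1)) * wH := by
      rw [hw']
      ring
    rw [e]
    exact h3
  have h7 := dvd_cancel_C (by positivity) h6
  rw [← m2_zero_iff, map_sub, sub_eq_zero, map_mul, map_mul, map_pow] at h7
  have h8 := hw w h7
  refine fin1 r ho hH ?_ hs hs0 h8 n
  rw [hw', sub_self]
  exact dvd_zero _

/-- the coefficients of the odd part -/
lemma coeff_odd_part (f : ℤ⟦X⟧) (n : ℕ) (hn : n % 2 = 1) :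
    coeff n (f - V ℤ 2 (U ℤ 2 f)) = coeff n f := by
  rw [map_sub, coeff_V, if_neg (by omega), sub_zero]

end Pool.Agent.K7.H67.RC
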