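import Pool.Agent.K7.H67.RC.Cls

/-! Facts modulo two. -/

set_option autoImplicit false

namespace Pool.Agent.K7.H67.RC

open PowerSeries Finset

lemma q1 : sA2 ^ 2 * sB2 * sB * Q ℤ 5 5 ^ 3 = sA * Q ℤ 10 10 ^ 3 * (sB * sB2 ^ 2 + X * (sA * sA2 ^ 2)) := by
  have p1 := P1
  have p3 := P3
  have p4 := P4
  have s1 := ApB_eq
  generalize Q ℤ 10 10 = t at *
  generalize Q ℤ 5 5 = e at *
  generalize sA = a at *
  generalize sB = b at *
  generalize sAp = ap at *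
  generalize sA2 = a2 at *
  generalize sB2 = b2 at *
  generalize sT1 = t1 at *
  generalize sT3 = t3 at *
  linear_combination (-(e * a2 * b2 * b)) * p1 + (a * t * e * a2 * b2) * s1 -
      (a * t * b2 ^ 2) * p4 - (a * t * X * a2 ^ 2) * p3

lemma q2 : sB2 ^ 2 * sA2 * sA * Q ℤ 5 5 ^ 3 = sB * Q ℤ 10 10 ^ 3 * (sB * sB2 ^ 2 - X * (sA * sA2 ^ 2)) := by
  have p2 := P2
  have p3 := P3
  have p4 := P4
  have s2 := ABp_eq
  generalize Q ℤ 10 10 = t at *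
  generalize Q ℤ 5 5 = e at *
  generalize sA = a at *
  generalize sB = b at *
  generalize sBp = bp at *
  generalize sA2 = a2 at *
  generalize sB2 = b2 at *
  generalize sT1 = t1 at *
  generalize sT3 = t3 at *
  linear_combination (-(e * a2 * b2 * a)) * p2 + (b * t * e * a2 * b2) * s2 -
      (b * t * b2 ^ 2) * p4 + (b * t * X * a2 ^ 2) * p3

/-- exact relation for `1 - k^2` -/
lemma E1 : V ℤ 2 (V ℤ 5 sA) ^ 3 * Q ℤ 25 25 ^ 6 = Q ℤ 50 50 ^ 6 * V ℤ 5 sB ^ 2 * V ℤ 2 (V ℤ 5 sB) * (1 - k ^ 2) := by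
  have h1 := congrArg (V ℤ 5) q1
  have h2 := congrArg (V ℤ 5) q2
  rw [A2_eq, B2_eq] at h1 h2
  simp only [map_mul, map_sub, map_add, map_pow, V_X, V_Q (R := ℤ) 5 (a := 5) (k := 5) (by norm_num) (by norm_num),
    V_Q (R := ℤ) 5 (a := 10) (k := 10) (by norm_num) (by norm_num)] at h1 h2
  have e : ∀ f : ℤ⟦X⟧, V ℤ 5 (V ℤ 2 f) = V ℤ 2 (V ℤ 5 f) := by
    intro f
    have : NeZero (5 * 2) := ⟨by norm_num⟩
    have : NeZero (2 * 5) := ⟨by norm_num⟩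
    rw [V_V, V_V]
  simp only [e] at h1 h2
  norm_num at h1 h2
  have g1 := x_spec
  have g2 := congrArg (V ℤ 2) x_spec
  rw [map_mul, map_mul, V_X] at g2
  have hk : k = x * V ℤ 2 x ^ 2 := rfl
  have hb : constantCoeff (V ℤ 5 sB) = 1 := by rw [V_const, sB_const]
  have ha : constantCoeff (V ℤ 5 sA) = 1 := by rw [V_const, sA_const]
  have hb2 : constantCoeff (V ℤ 2 (V ℤ 5 sB)) = 1 := by rw [V_const, hb]
  generalize V ℤ 2 (V ℤ 5 sB) = b2 at *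
  generalize V ℤ 2 (V ℤ 5 sA) = a2 at *
  generalize V ℤ 5 sB = b at *
  generalize V ℤ 5 sA = a at *
  generalize Q ℤ 25 25 = e at *
  generalize Q ℤ 50 50 = t at *
  have g3 : k * (b * b2 ^ 2) = X ^ 5 * (a * a2 ^ 2) := by
    calc k * (b * b2 ^ 2) = (x * b) * (V ℤ 2 x * b2) ^ 2 := by rw [hk]; ring
      _ = X ^ 5 * (a * a2 ^ 2) := by rw [g1, g2]; ring
  have hne : b2 ^ 3 * (a * b) ≠ 0 :=
    mul_ne_zero (pow_ne_zero 3 (ne_of_const hb2)) (mul_ne_zero (ne_of_const ha) (ne_of_const hb))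
  apply mul_left_cancel₀ hne
  rw [← g3] at h1 h2
  linear_combination (b2 ^ 2 * a2 * a * e ^ 3) * h1 + (a * t ^ 3 * (b * b2 ^ 2 + k * (b * b2 ^ 2))) * h2

lemma m2_X : m2 X = X := PowerSeries.map_X _

lemma V_two (f : ℤ⟦X⟧) : m2 (V ℤ 2 f) = m2 f ^ 2 := by rw [V_m2, V_sq]

lemma m2_ne {f : ℤ⟦X⟧} (h : constantCoeff f = 1) : m2 f ≠ 0 := by
  intro h0
  have := congrArg (coeff 0) h0
  rw [coeff_m2, coeff_zero_eq_constantCoeff_apply, h, map_zero] at this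
  norm_num at this

/-- `A(q^5)` modulo two -/
noncomputable def a' : (ZMod 2)⟦X⟧ := m2 (V ℤ 5 sA)
/-- `B(q^5)` modulo two -/
noncomputable def b' : (ZMod 2)⟦X⟧ := m2 (V ℤ 5 sB)
/-- `x` modulo two -/
noncomputable def x' : (ZMod 2)⟦X⟧ := m2 x
/-- `k` modulo two -/
noncomputable def k' : (ZMod 2)⟦X⟧ := m2 k

lemma a'_ne : a' ≠ 0 := m2_ne (by rw [V_const, sA_const])
lemma b'_ne : b' ≠ 0 := m2_ne (by rw [V_const, sB_const])

lemma xb' : x' * b' = X * a' := by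
  have h := congrArg m2 x_spec
  rwa [map_mul, map_mul, m2_X] at h

lemma x'_ne : x' ≠ 0 := by
  intro h
  have := xb'
  rw [h, zero_mul] at this
  exact mul_ne_zero PowerSeries.X_ne_zero a'_ne this.symm

lemma k1_ne : 1 + k' ≠ 0 := by
  have h : m2 (1 + k) ≠ 0 := m2_ne (by rw [map_add, map_one, k_const, add_zero])
  rwa [map_add, map_one] at h

lemma kx' : k' = x' ^ 5 := by
  have h := congrArg m2 x5
  simp only [map_mul, map_pow, map_add, map_sub, map_one] at h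
  apply mul_right_cancel₀ (pow_ne_zero 2 k1_ne)
  unfold k' x'
  linear_combination (-1 : (ZMod 2)⟦X⟧) * h + (2 * m2 k ^ 2) * two_eq

lemma K' : m2 K = k' ^ 2 := V_two k

lemma y' : m2 (V ℤ 2 x) = x' ^ 2 := V_two x

lemma c' : m2 c = k' * (1 + k' + k' ^ 2) := by
  rw [c_eq, map_add, map_mul, map_add, map_one, K']
  unfold k'
  ring

/-- the key identity -/
theorem star : k' * (1 + k' + k' ^ 2) = X ^ 5 * (a' * b') ^ 4 * (1 + k') ^ 4 := by
  have i1 := congrArg m2 E1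
  simp only [map_mul, map_pow, map_sub, map_one] at i1
  rw [V_two, V_two] at i1
  have i1' : m2 (Q ℤ 50 50) = m2 (Q ℤ 25 25) ^ 2 := by
    rw [← V_two, V_Q 2 (by norm_num) (by norm_num)]
  rw [i1'] at i1
  have he : constantCoeff (Q ℤ 25 25) = 1 := Q_const (by norm_num) (by norm_num)
  have hene := m2_ne he
  have i2 : Q ℤ 25 25 * (V ℤ 5 sB ^ 10 - 11 * (V ℤ 5 sB) ^ 5 * (X * V ℤ 5 sA) ^ 5 -
      (X * V ℤ 5 sA) ^ 10) = Q ℤ 5 5 ^ 11 := by
    have h := R5'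
    simp only [map_mul, map_sub, map_pow, V_X, map_ofNat, V_Q 5 (le_refl 1) (le_refl 1),
      V_Q (R := ℤ) 5 (a := 5) (k := 5) (by norm_num) (by norm_num)] at h
    norm_num at h
    rw [← h]
    ring
  have i3 : V ℤ 5 sA * V ℤ 5 sB = Q ℤ 5 5 * Q ℤ 25 25 := by
    rw [← map_mul, AB_eq, map_mul, V_Q 5 le_rfl le_rfl, V_Q 5 (by norm_num) (by norm_num)]
  have j2 := congrArg m2 i2
  have j3 := congrArg m2 i3
  simp only [map_mul, map_pow, map_sub, map_ofNat, m2_X] at j2 j3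
  have hb := b'_ne
  have ha := a'_ne
  have hxb := xb'
  have hkx := kx'
  unfold a' b' at *
  change m2 (V ℤ 5 sA) ≠ 0 at ha
  have hk : m2 k = k' := rfl
  rw [hk] at i1
  generalize m2 (V ℤ 5 sA) = a at *
  generalize m2 (V ℤ 5 sB) = b at *
  generalize m2 (Q ℤ 25 25) = e at *
  generalize m2 (Q ℤ 5 5) = f at *
  have h2 := two_eq
  -- (i') a^6 = e^6 b^4 (1+k)^2
  have l1 : a ^ 6 = e ^ 6 * b ^ 4 * (1 + k') ^ 2 := by
    apply mul_left_cancel₀ (pow_ne_zero 6 hene)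
    linear_combination i1 - (e ^ 12 * b ^ 4 * k' * (1 + k')) * h2
  have l2 : e * b ^ 10 * (1 + k' + k' ^ 2) = f ^ 11 := by
    have e1 : k' * b ^ 5 = X ^ 5 * a ^ 5 := by
      rw [hkx, ← mul_pow, hxb]
      ring
    rw [← j2]
    linear_combination (e * b ^ 5 + e * (k' * b ^ 5 + X ^ 5 * a ^ 5)) * e1 +
      (6 * e * b ^ 5 * X ^ 5 * a ^ 5 + e * X ^ 10 * a ^ 10) * h2
  have l3 : k' * b ^ 5 = X ^ 5 * a ^ 5 := by
    rw [hkx, ← mul_pow, hxb]
    ring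
  have hne : e ^ 12 * b ^ 10 ≠ 0 := mul_ne_zero (pow_ne_zero _ hene) (pow_ne_zero _ hb)
  apply mul_left_cancel₀ hne
  calc e ^ 12 * b ^ 10 * (k' * (1 + k' + k' ^ 2)) = k' * e ^ 11 * (e * b ^ 10 * (1 + k' + k' ^ 2)) := by ring
    _ = k' * (f * e) ^ 11 := by rw [l2]; ring
    _ = k' * (a * b) ^ 11 := by rw [j3]
    _ = (k' * b ^ 5) * a ^ 11 * b ^ 6 := by ring
    _ = X ^ 5 * a ^ 4 * b ^ 6 * (a ^ 6) ^ 2 := by rw [l3]; ring
    _ = e ^ 12 * b ^ 10 * (X ^ 5 * (a * b) ^ 4 * (1 + k') ^ 4) := by rw [l1]; ring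

end Pool.Agent.K7.H67.RC
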