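import Pool.Agent.K7.H67.RC.Fun

/-! The operator `U` and congruences. -/

set_option autoImplicit false

namespace Pool.Agent.K7.H67.RC

open PowerSeries Finset

variable {R : Type*} [CommRing R]

/-- the operator `∑ a(n) q^n ↦ ∑ a(p n) q^n` -/
noncomputable def U (R : Type*) [CommRing R] (p : ℕ) (f : R⟦X⟧) : R⟦X⟧ :=
  PowerSeries.mk fun n => coeff (p * n) f

lemma coeff_U (p : ℕ) (f : R⟦X⟧) (n : ℕ) : coeff n (U R p f) = coeff (p * n) f := by
  unfold U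
  rw [coeff_mk]

lemma U_add (p : ℕ) (f g : R⟦X⟧) : U R p (f + g) = U R p f + U R p g := by
  ext n
  rw [map_add, coeff_U, coeff_U, coeff_U, map_add]

lemma U_sub (p : ℕ) (f g : R⟦X⟧) : U R p (f - g) = U R p f - U R p g := by
  ext n
  rw [map_sub, coeff_U, coeff_U, coeff_U, map_sub]

lemma U_C_mul (p : ℕ) (a : R) (f : R⟦X⟧) : U R p (C a * f) = C a * U R p f := by
  ext n
  rw [coeff_U, coeff_C_mul, coeff_C_mul, coeff_U]

lemma U_V_mul (p : ℕ) [NeZero p] (g f : R⟦X⟧) : U R p (V R p g * f) = g * U R p f := by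
  ext n
  rw [coeff_U, coeff_mul, coeff_mul]
  symm
  have hp : 0 < p := Nat.pos_of_neZero p
  refine Finset.sum_of_injOn (fun x => (p * x.1, p * x.2)) ?_ ?_ ?_ ?_
  · rintro ⟨a, b⟩ _ ⟨a', b'⟩ _ h
    simp only [Prod.mk.injEq] at h
    rw [Nat.eq_of_mul_eq_mul_left hp h.1, Nat.eq_of_mul_eq_mul_left hp h.2]
  · rintro ⟨a, b⟩ h
    simp only [mem_coe, HasAntidiagonal.mem_antidiagonal] at h ⊢
    rw [← h, mul_add]
  · rintro ⟨a, b⟩ h hn
    rw [HasAntidiagonal.mem_antidiagonal] at h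
    simp only at h
    rw [coeff_V]
    split_ifs with hd
    · exfalso
      apply hn
      obtain ⟨a', rfl⟩ := hd
      have hb : p ∣ b := (Nat.dvd_add_right (dvd_mul_right p a')).1 (h ▸ dvd_mul_right p n)
      obtain ⟨b', rfl⟩ := hb
      refine ⟨(a', b'), ?_, rfl⟩
      rw [mem_coe, HasAntidiagonal.mem_antidiagonal]
      rw [← mul_add] at h
      exact Nat.eq_of_mul_eq_mul_left hp h
    · rw [zero_mul]
  · rintro ⟨a, b⟩ _
    rw [coeff_V, if_pos (dvd_mul_right _ _), Nat.mul_div_cancel_left _ hp, coeff_U]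

lemma U_V (p : ℕ) [NeZero p] (g : R⟦X⟧) : U R p (V R p g) = g := by
  ext n
  rw [coeff_U, coeff_V, if_pos (dvd_mul_right _ _), Nat.mul_div_cancel_left _ (Nat.pos_of_neZero p)]

lemma V_C (p : ℕ) [NeZero p] (a : R) : V R p (C a) = C a := by
  ext n
  rw [coeff_V, coeff_C, coeff_C]
  split_ifs with h1 h2 h3 h4 h5
  · rfl
  · obtain ⟨m, rfl⟩ := h1
    rw [Nat.mul_div_cancel_left _ (Nat.pos_of_neZero p)] at h2
    exact absurd (by rw [h2, mul_zero]) h3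
  · exact absurd (by rw [h4, Nat.zero_div]) h2
  · rfl
  · exact absurd (h5 ▸ dvd_zero p) h1
  · rfl

/-- a series whose even part vanishes -/
lemma odd_form {f : R⟦X⟧} (h : U R 2 f = 0) :
    f = X * V R 2 (PowerSeries.mk fun n => coeff (2 * n + 1) f) := by
  ext n
  rcases Nat.even_or_odd' n with ⟨m, rfl | rfl⟩
  · have h1 := congrArg (coeff m) h
    rw [coeff_U, map_zero] at h1
    rw [h1]
    rcases m with _ | m
    · simp
    · have e : 2 * (m + 1) = (2 * m + 1) + 1 := by ring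
      rw [e, coeff_succ_X_mul, coeff_V, if_neg (by omega)]
  · rw [coeff_succ_X_mul, coeff_V, if_pos (dvd_mul_right _ _), coeff_mk, Nat.mul_div_cancel_left _ (by norm_num)]

lemma odd_sq {f : R⟦X⟧} (h : U R 2 f = 0) : ∃ g, f ^ 2 = V R 2 g := by
  refine ⟨X * (PowerSeries.mk fun n => coeff (2 * n + 1) f) ^ 2, ?_⟩
  nth_rewrite 1 [odd_form h]
  rw [map_mul, V_X, map_pow]
  ring

lemma dvd_C_iff (m : ℤ) (f : ℤ⟦X⟧) : C m ∣ f ↔ ∀ n, m ∣ coeff n f := by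
  constructor
  · rintro ⟨g, rfl⟩ n
    rw [coeff_C_mul]
    exact dvd_mul_right _ _
  · intro h
    choose g hg using h
    refine ⟨PowerSeries.mk g, ?_⟩
    ext n
    rw [coeff_C_mul, coeff_mk, hg n]

lemma cancel_unit {M u f : ℤ⟦X⟧} (hu : constantCoeff u = 1) (h : M ∣ u * f) : M ∣ f := by
  have e : f = iv u * (u * f) := by
    rw [← mul_assoc, mul_comm (iv u), mul_iv hu, one_mul]
  rw [e]
  exact h.mul_left _

lemma cancel_X {m : ℤ} {f : ℤ⟦X⟧} (h : C m ∣ X * f) : C m ∣ f := by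
  rw [dvd_C_iff] at h ⊢
  intro n
  have := h (n + 1)
  rwa [coeff_succ_X_mul] at this

lemma cancel_Xpow {m : ℤ} {f : ℤ⟦X⟧} (e : ℕ) (h : C m ∣ X ^ e * f) : C m ∣ f := by
  induction e with
  | zero => simpa using h
  | succ e ih =>
    rw [pow_succ', mul_assoc] at h
    exact ih (cancel_X h)

/-- the unit part of `x` -/
noncomputable def xu : ℤ⟦X⟧ := V ℤ 5 sA * iv (V ℤ 5 sB)

lemma xu_const : constantCoeff xu = 1 := by
  have hb : constantCoeff (V ℤ 5 sB) = 1 := by rw [V_const, sB_const]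
  have h := congrArg (constantCoeff (R := ℤ)) (mul_iv hb)
  rw [map_mul, hb, one_mul, map_one] at h
  unfold xu
  rw [map_mul, V_const, sA_const, h, one_mul]

lemma x_eq : x = X * xu := by
  unfold x xu
  ring

lemma x_ne : x ≠ 0 := by
  rw [x_eq]
  exact mul_ne_zero PowerSeries.X_ne_zero (ne_of_const xu_const)

lemma cancel_x {m : ℤ} {f : ℤ⟦X⟧} (e : ℕ) (h : C m ∣ x ^ e * f) : C m ∣ f := by
  rw [x_eq, mul_pow, mul_assoc] at h
  have h1 := cancel_Xpow e h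
  exact cancel_unit (by rw [map_pow, xu_const, one_pow]) h1

lemma U_dvd {m : ℤ} {p : ℕ} {f : ℤ⟦X⟧} (h : C m ∣ f) : C m ∣ U ℤ p f := by
  obtain ⟨g, rfl⟩ := h
  rw [U_C_mul]
  exact dvd_mul_right _ _

lemma V_dvd {m : ℤ} {p : ℕ} [NeZero p] {f : ℤ⟦X⟧} : C m ∣ V ℤ p f ↔ C m ∣ f := by
  constructor
  · intro h
    have := U_dvd (p := p) h
    rwa [U_V] at this
  · rintro ⟨g, rfl⟩
    rw [map_mul, V_C]
    exact dvd_mul_right _ _

lemma k_form : k = X ^ 5 * (xu * V ℤ 2 xu ^ 2) := by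
  unfold k
  rw [x_eq, map_mul, V_X]
  ring

lemma kw_const : constantCoeff (xu * V ℤ 2 xu ^ 2) = 1 := by
  rw [map_mul, map_pow, V_const, xu_const]
  norm_num

lemma rescale_neg_V (f : ℤ⟦X⟧) : rescale (-1) (V ℤ 2 f) = V ℤ 2 f := by
  ext n
  rw [coeff_rescale, coeff_V]
  split_ifs with h
  · obtain ⟨m, rfl⟩ := h
    rw [pow_mul]
    norm_num
  · rw [mul_zero]

/-- `c` is odd -/
theorem U_c : U ℤ 2 c = 0 := by
  have h1 := hG
  have hK : rescale (-1) K = K := rescale_neg_V k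
  have h2 := congrArg (rescale (-1)) h1
  simp only [map_add, map_sub, map_mul, map_pow, map_one, map_ofNat, hK, map_zero] at h2
  have h3 : (k - rescale (-1) k) * ((1 + K) * (k + rescale (-1) k) + 2 * K) = 0 := by
    linear_combination h1 - h2
  rcases mul_eq_zero.1 h3 with h | h
  · exfalso
    have h4 := congrArg (coeff 5) h
    rw [map_sub, coeff_rescale, map_zero, k_form] at h4
    have h5 : coeff 5 (X ^ 5 * (xu * V ℤ 2 xu ^ 2)) = 1 := by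
      have := coeff_X_pow_mul (xu * V ℤ 2 xu ^ 2) 5 0
      rw [zero_add] at this
      rw [this, coeff_zero_eq_constantCoeff_apply, kw_const]
    rw [h5] at h4
    norm_num at h4
  · have h4 : c + rescale (-1) c = 0 := by
      rw [c_eq, map_add, map_mul, map_add, map_one, hK]
      linear_combination h
    ext n
    have h5 := congrArg (coeff (2 * n)) h4
    rw [map_add, coeff_rescale, pow_mul, map_zero] at h5
    rw [coeff_U, map_zero]
    norm_num at h5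
    omega

/-- one application of `U` -/
theorem ustep (m : ℤ) {f D N d p q : ℤ⟦X⟧} (j : ℕ) (hf : C m ∣ D * f - x ^ j * N)
    (hD : constantCoeff D = 1)
    (h : C m ∣ V ℤ 2 d * (k ^ j * N) - D * (V ℤ 2 p + V ℤ 2 q * c)) :
    C m ∣ V ℤ 2 (d * x ^ (2 * j)) * f - (V ℤ 2 p + V ℤ 2 q * c) ∧
      C m ∣ d * x ^ (2 * j) * U ℤ 2 f - p := by
  have h1 : C m ∣ V ℤ 2 (d * x ^ (2 * j)) * f - (V ℤ 2 p + V ℤ 2 q * c) := by
    apply cancel_unit hD
    have hk : k ^ j = x ^ j * V ℤ 2 (x ^ (2 * j)) := by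
      unfold k
      rw [map_pow, mul_pow, ← pow_mul]
    have e : D * (V ℤ 2 (d * x ^ (2 * j)) * f - (V ℤ 2 p + V ℤ 2 q * c)) =
        V ℤ 2 d * V ℤ 2 (x ^ (2 * j)) * (D * f - x ^ j * N) +
        (V ℤ 2 d * (k ^ j * N) - D * (V ℤ 2 p + V ℤ 2 q * c)) := by
      rw [hk, map_mul]
      ring
    rw [e]
    exact dvd_add (hf.mul_left _) h
  refine ⟨h1, ?_⟩
  have h2 := U_dvd (p := 2) h1
  rwa [U_sub, U_V_mul, U_add, U_V, U_V_mul, U_c, mul_zero, add_zero] at h2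

lemma x5n (n : ℕ) : x ^ (5 * n) * (1 + k) ^ (2 * n) = k ^ n * (1 - k) ^ (2 * n) := by
  rw [pow_mul, pow_mul, pow_mul, ← mul_pow, ← mul_pow, x5]

/-- change of the representation -/
theorem conv (m : ℤ) {g d p D2 N2 : ℤ⟦X⟧} (e j2 n : ℕ) (hn : e + j2 = 5 * n)
    (h : C m ∣ d * x ^ e * g - p) (hd : constantCoeff d = 1)
    (cert : C m ∣ D2 * (1 + k) ^ (2 * n) * p - d * (k ^ n * (1 - k) ^ (2 * n)) * N2) :
    C m ∣ D2 * g - x ^ j2 * N2 := by
  have hk : constantCoeff (1 + k) = 1 := by rw [map_add, map_one, k_const, add_zero]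
  apply cancel_x e
  apply cancel_unit (u := d * (1 + k) ^ (2 * n)) (by rw [map_mul, map_pow, hd, hk, one_pow, one_mul])
  have h5 := x5n n
  have e1 : d * (1 + k) ^ (2 * n) * (x ^ e * (D2 * g - x ^ j2 * N2)) =
      D2 * (1 + k) ^ (2 * n) * (d * x ^ e * g - p) +
      (D2 * (1 + k) ^ (2 * n) * p - d * (k ^ n * (1 - k) ^ (2 * n)) * N2) := by
    rw [← h5, ← hn, pow_add]
    ring
  rw [e1]
  exact dvd_add (h.mul_left _) cert

/-- squares of congruences -/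
lemma sq_congr {m : ℤ} (hm : 2 ∣ m) {a b : ℤ⟦X⟧} (h : C m ∣ a - b) : C (2 * m) ∣ a ^ 2 - b ^ 2 := by
  obtain ⟨l, rfl⟩ := hm
  obtain ⟨t, ht⟩ := h
  have ha : a = b + C (2 * l) * t := by rw [← ht]; ring
  refine ⟨b * t + C l * t ^ 2, ?_⟩
  rw [ha, map_mul, map_mul, map_mul]
  have h2 : (C 2 : ℤ⟦X⟧) = 2 := map_ofNat _ 2
  rw [h2]
  ring

/-- the square of the odd part -/
theorem sqstep {m : ℤ} (hm : 2 ∣ m) {o d q : ℤ⟦X⟧} (j : ℕ) (ho : U ℤ 2 o = 0)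
    (h : C m ∣ V ℤ 2 (d * x ^ (2 * j)) * o - V ℤ 2 q * c) :
    ∃ H, o ^ 2 = V ℤ 2 H ∧ C (2 * m) ∣ d ^ 2 * x ^ (4 * j) * H - q ^ 2 * (k * (1 + k - k ^ 2)) := by
  obtain ⟨H, hH⟩ := odd_sq ho
  refine ⟨H, hH, ?_⟩
  have h1 := sq_congr hm h
  rw [mul_pow, mul_pow, hH, c_sq] at h1
  rw [← V_dvd (p := 2)]
  have e : V ℤ 2 (d ^ 2 * x ^ (4 * j) * H - q ^ 2 * (k * (1 + k - k ^ 2))) =
    V ℤ 2 (d * x ^ (2 * j)) ^ 2 * V ℤ 2 H - V ℤ 2 q ^ 2 * (K * (1 + K - K ^ 2)) := by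
    unfold K
    simp only [map_mul, map_sub, map_add, map_pow, map_one]
    ring
  rw [e]
  exact h1

/-- the odd part -/
lemma odd_part (m : ℤ) {f d p q : ℤ⟦X⟧} (j : ℕ)
    (h : C m ∣ V ℤ 2 (d * x ^ (2 * j)) * f - (V ℤ 2 p + V ℤ 2 q * c) ∧
      C m ∣ d * x ^ (2 * j) * U ℤ 2 f - p) :
    U ℤ 2 (f - V ℤ 2 (U ℤ 2 f)) = 0 ∧
      C m ∣ V ℤ 2 (d * x ^ (2 * j)) * (f - V ℤ 2 (U ℤ 2 f)) - V ℤ 2 q * c := by
  refine ⟨by rw [U_sub, U_V, sub_self], ?_⟩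
  have h2 := (V_dvd (p := 2)).2 h.2
  rw [map_sub, map_mul] at h2
  have e : V ℤ 2 (d * x ^ (2 * j)) * (f - V ℤ 2 (U ℤ 2 f)) - V ℤ 2 q * c =
    (V ℤ 2 (d * x ^ (2 * j)) * f - (V ℤ 2 p + V ℤ 2 q * c)) -
      (V ℤ 2 (d * x ^ (2 * j)) * V ℤ 2 (U ℤ 2 f) - V ℤ 2 p) := by ring
  rw [e]
  exact dvd_sub h.1 h2

end Pool.Agent.K7.H67.RC
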