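import Pool.Agent.K7.H67.RC.Dbl

/-! Algebraic relations. -/

set_option autoImplicit false

namespace Pool.Agent.K7.H67.RC

open PowerSeries Finset

lemma five_prod {S : Type*} [CommRing S] (z b c : S) (hz : 1 + z + z ^ 2 + z ^ 3 + z ^ 4 = 0) :
    (b ^ 2 - b * c - c ^ 2) * (b ^ 2 - z * (b * c) - z ^ 2 * c ^ 2) *
      (b ^ 2 - z ^ 2 * (b * c) - z ^ 4 * c ^ 2) * (b ^ 2 - z ^ 3 * (b * c) - z ^ 6 * c ^ 2) *
      (b ^ 2 - z ^ 4 * (b * c) - z ^ 8 * c ^ 2) = b ^ 10 - 11 * b ^ 5 * c ^ 5 - c ^ 10 := by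
  linear_combination ((1)*z^0*b^0*c^10 + (11)*z^0*b^5*c^5 + (-1)*z^0*b^8*c^2 + (-1)*z^0*b^9*c^1 + (-1)*z^1*b^0*c^10 + (-11)*z^1*b^5*c^5 + (1)*z^1*b^7*c^3 + (2)*z^1*b^8*c^2 + (1)*z^2*b^6*c^4 + (1)*z^2*b^7*c^3 + (-1)*z^2*b^8*c^2 + (-2)*z^3*b^6*c^4 + (-2)*z^3*b^7*c^3 + (2)*z^3*b^8*c^2 + (-1)*z^4*b^5*c^5 + (2)*z^4*b^7*c^3 + (-1)*z^4*b^8*c^2 + (1)*z^5*b^0*c^10 + (10)*z^5*b^5*c^5 + (-3)*z^5*b^6*c^4 + (-2)*z^5*b^7*c^3 + (-1)*z^6*b^0*c^10 + (-1)*z^6*b^4*c^6 + (-10)*z^6*b^5*c^5 + (5)*z^6*b^6*c^4 + (1)*z^6*b^7*c^3 + (2)*z^7*b^4*c^6 + (1)*z^7*b^5*c^5 + (-3)*z^7*b^6*c^4 + (1)*z^7*b^7*c^3 + (1)*z^9*b^3*c^7 + (3)*z^9*b^4*c^6 + (1)*z^9*b^5*c^5 + (-2)*z^9*b^6*c^4 + (1)*z^10*b^0*c^10 + (1)*z^10*b^3*c^7 + (-5)*z^10*b^4*c^6 + (1)*z^10*b^5*c^5 + (1)*z^10*b^6*c^4 + (-1)*z^11*b^0*c^10 + (-2)*z^11*b^3*c^7 + (3)*z^11*b^4*c^6 + (-1)*z^11*b^5*c^5 + (1)*z^12*b^2*c^8 + (2)*z^12*b^3*c^7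 + (-1)*z^12*b^5*c^5 + (-2)*z^13*b^2*c^8 + (-2)*z^13*b^3*c^7 + (2)*z^13*b^4*c^6 + (1)*z^14*b^2*c^8 + (1)*z^14*b^3*c^7 + (-1)*z^14*b^4*c^6 + (1)*z^15*b^0*c^10 + (-2)*z^15*b^2*c^8 + (1)*z^15*b^3*c^7 + (-1)*z^16*b^0*c^10 + (-1)*z^16*b^1*c^9 + (1)*z^16*b^2*c^8) * hz

lemma sA_const : constantCoeff sA = 1 := by
  rw [A_prod, map_mul, map_mul, Q_const (by norm_num) (by norm_num), Q_const (by norm_num) (by norm_num),
    Q_const (by norm_num) (by norm_num)]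
  norm_num

lemma sB_const : constantCoeff sB = 1 := by
  rw [B_prod, map_mul, map_mul, Q_const (by norm_num) (by norm_num), Q_const (by norm_num) (by norm_num),
    Q_const (by norm_num) (by norm_num)]
  norm_num

/-- the two-dissection relation -/
theorem R2 : sA2 * sB ^ 2 * (sB * sB2 ^ 2 - X * (sA * sA2 ^ 2)) =
    sB2 * sA ^ 2 * (sB * sB2 ^ 2 + X * (sA * sA2 ^ 2)) := by
  have hT : Q ℤ 10 10 ≠ 0 := Q_ne (by norm_num) (by norm_num)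
  have hT3 : Q ℤ 10 10 ^ 3 ≠ 0 := pow_ne_zero _ hT
  have p1 := P1
  have p2 := P2
  have p3 := P3
  have p4 := P4
  have s1 := ApB_eq
  have s2 := ABp_eq
  generalize Q ℤ 10 10 = t at *
  generalize Q ℤ 5 5 = e at *
  generalize sA = a at *
  generalize sB = b at *
  generalize sAp = ap at *
  generalize sBp = bp at *
  generalize sA2 = a2 at *
  generalize sB2 = b2 at *
  generalize sT1 = t1 at *
  generalize sT3 = t3 at *
  have q1 : a2 ^ 2 * b2 * b * e ^ 3 = a * t ^ 3 * (b * b2 ^ 2 + X * (a * a2 ^ 2)) := by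
    linear_combination (-(e * a2 * b2 * b)) * p1 + (a * t * e * a2 * b2) * s1 -
      (a * t * b2 ^ 2) * p4 - (a * t * X * a2 ^ 2) * p3
  have q2 : b2 ^ 2 * a2 * a * e ^ 3 = b * t ^ 3 * (b * b2 ^ 2 - X * (a * a2 ^ 2)) := by
    linear_combination (-(e * a2 * b2 * a)) * p2 + (b * t * e * a2 * b2) * s2 -
      (b * t * b2 ^ 2) * p4 + (b * t * X * a2 ^ 2) * p3
  apply mul_left_cancel₀ hT3
  linear_combination (-(a2 * b)) * q2 + (b2 * a) * q1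

/-- injectivity of `V` -/
lemma V_inj {R : Type*} [CommRing R] (p : ℕ) [NeZero p] {f g : R⟦X⟧} (h : V R p f = V R p g) : f = g := by
  ext n
  have h1 := congrArg (coeff (p * n)) h
  rw [coeff_V, coeff_V, if_pos (dvd_mul_right _ _), if_pos (dvd_mul_right _ _),
    Nat.mul_div_cancel_left _ (Nat.pos_of_neZero p)] at h1
  exact h1

lemma map_inj {f g : ℤ⟦X⟧} (h : PowerSeries.map (Int.castRingHom ℂ) f = PowerSeries.map (Int.castRingHom ℂ) g) :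
    f = g := by
  ext n
  have h1 := congrArg (coeff n) h
  rw [PowerSeries.coeff_map, PowerSeries.coeff_map] at h1
  exact (RingHom.injective_int (Int.castRingHom ℂ)) h1

lemma rescale_V {z : ℂ} (hz : z ^ 5 = 1) (f : ℂ⟦X⟧) : rescale z (V ℂ 5 f) = V ℂ 5 f := by
  ext n
  rw [coeff_rescale, coeff_V]
  split_ifs with h
  · obtain ⟨m, rfl⟩ := h
    rw [pow_mul, hz, one_pow, one_mul]
  · rw [mul_zero]

lemma rescale_X' (z : ℂ) : rescale z (X : ℂ⟦X⟧) = C z * X := by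
  ext n
  rw [coeff_rescale, coeff_C_mul, coeff_X]
  split_ifs with h
  · rw [h, pow_one]
  · simp

lemma prod_u {S : Type*} [CommRing S] (z u : S) (hz : 1 + z + z ^ 2 + z ^ 3 + z ^ 4 = 0) :
    (1 - u) * (1 - z * u) * (1 - z ^ 2 * u) * (1 - z ^ 3 * u) * (1 - z ^ 4 * u) = 1 - u ^ 5 := by
  linear_combination ((-1)*z^0*u^1 + (1)*z^0*u^5 + (1)*z^1*u^2 + (-1)*z^1*u^5 + (1)*z^3*u^2 + (-1)*z^3*u^3 + (-1)*z^5*u^3 + (1)*z^5*u^5 + (1)*z^6*u^4 + (-1)*z^6*u^5) * hz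

lemma geom_of {ζ : ℂ} (hζ : IsPrimitiveRoot ζ 5) {n : ℕ} (hn : ¬ 5 ∣ n) :
    1 + ζ ^ n + (ζ ^ n) ^ 2 + (ζ ^ n) ^ 3 + (ζ ^ n) ^ 4 = 0 := by
  have h1 : ζ ^ n ≠ 1 := fun h => hn ((hζ.pow_eq_one_iff_dvd n).1 h)
  have h2 : (ζ ^ n) ^ 5 = 1 := by rw [← pow_mul, mul_comm, pow_mul, hζ.pow_eq_one, one_pow]
  have h3 : (ζ ^ n - 1) * (1 + ζ ^ n + (ζ ^ n) ^ 2 + (ζ ^ n) ^ 3 + (ζ ^ n) ^ 4) = 0 := by
    linear_combination h2
  rcases mul_eq_zero.1 h3 with h | h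
  · exact absurd (sub_eq_zero.1 h) h1
  · exact h

lemma factor_eq {ζ : ℂ} (hζ : IsPrimitiveRoot ζ 5) (n : ℕ) :
    ∏ j ∈ range 5, (1 - (C (ζ ^ j) * X) ^ n : ℂ⟦X⟧) =
      if 5 ∣ n then (1 - X ^ n) ^ 5 else 1 - X ^ (5 * n) := by
  have h0 : ∀ j : ℕ, (C (ζ ^ j) * X : ℂ⟦X⟧) ^ n = C (ζ ^ n) ^ j * X ^ n := by
    intro j
    rw [mul_pow, ← map_pow, ← map_pow, ← pow_mul, ← pow_mul, mul_comm j n]
  simp only [h0]
  split_ifs with h
  · have h1 : ζ ^ n = 1 := (hζ.pow_eq_one_iff_dvd n).2 h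
    rw [h1, map_one]
    simp
  · have h1 := geom_of hζ h
    have h2 : (1 : ℂ⟦X⟧) + C (ζ ^ n) + C (ζ ^ n) ^ 2 + C (ζ ^ n) ^ 3 + C (ζ ^ n) ^ 4 = 0 := by
      have := congrArg (C (R := ℂ)) h1
      rw [map_add, map_add, map_add, map_add, map_one, map_zero] at this
      simpa only [map_pow] using this
    have h3 := prod_u (C (ζ ^ n)) ((X : ℂ⟦X⟧) ^ n) h2
    rw [prod_range_succ, prod_range_succ, prod_range_succ, prod_range_succ, prod_range_one, pow_zero,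
      one_mul, pow_one, h3, ← pow_mul, mul_comm n 5]

lemma prod_rescale {ζ : ℂ} (hζ : IsPrimitiveRoot ζ 5) :
    (∏ j ∈ range 5, rescale (ζ ^ j) (Q ℂ 1 1)) * Q ℂ 25 25 = Q ℂ 5 5 * Q ℂ 5 5 ^ 5 := by
  have h1 : IP (fun i => ∏ j ∈ range 5, (1 - (C (ζ ^ j) * X) ^ (i + 1) : ℂ⟦X⟧))
      (∏ j ∈ range 5, rescale (ζ ^ j) (Q ℂ 1 1)) := by
    refine IP.prod (range 5) (f := fun j i => 1 - (C (ζ ^ j) * X) ^ (i + 1)) fun j _ => ?_
    refine ((Q_spec (R := ℂ) (a := 1) (k := 1) le_rfl le_rfl).map (rescale (ζ ^ j)) ?_).congr fun i => ?_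
    · rw [rescale_X']
      exact dvd_mul_left _ _
    · rw [map_sub, map_one, map_pow, rescale_X', one_mul]
  have h2 := (h1.regroup 5 (by norm_num)).mul (Q_spec (R := ℂ) (a := 25) (k := 25) (by norm_num) (by norm_num))
  have h3 := ((Q_spec (R := ℂ) (a := 5) (k := 5) (by norm_num) (by norm_num)).regroup 5 (by norm_num)).mul
    ((Q_spec (R := ℂ) (a := 5) (k := 5) (by norm_num) (by norm_num)).pow 5)
  refine h2.unique (h3.congr fun i => ?_)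
  simp only [factor_eq hζ]
  rw [prod_range_succ, prod_range_succ, prod_range_succ, prod_range_succ, prod_range_one,
    prod_range_succ, prod_range_succ, prod_range_succ, prod_range_succ, prod_range_one,
    if_neg (by omega), if_neg (by omega), if_neg (by omega), if_neg (by omega), if_pos (by omega)]
  have e1 : 5 * (5 * i + 0) + 5 = 5 * (5 * i + 0 + 1) := by ring
  have e2 : 5 * (5 * i + 1) + 5 = 5 * (5 * i + 1 + 1) := by ring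
  have e3 : 5 * (5 * i + 2) + 5 = 5 * (5 * i + 2 + 1) := by ring
  have e4 : 5 * (5 * i + 3) + 5 = 5 * (5 * i + 3 + 1) := by ring
  have e5 : 5 * (5 * i + 4) + 5 = 25 * i + 25 := by ring
  have e6 : 5 * i + 4 + 1 = 5 * i + 5 := by ring
  rw [e1, e2, e3, e4, e5, e6]
  ring

/-- the eta quotient identity, `q → q^5` -/
theorem R5' : V ℤ 5 (Q ℤ 5 5 * (sB ^ 10 - 11 * X * sA ^ 5 * sB ^ 5 - X ^ 2 * sA ^ 10)) =
    V ℤ 5 (Q ℤ 1 1 ^ 11) := by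
  apply map_inj
  set ζ : ℂ := Complex.exp (2 * Real.pi * Complex.I / (5 : ℕ)) with hζ'
  have hζ : IsPrimitiveRoot ζ 5 := Complex.isPrimitiveRoot_exp 5 (by norm_num)
  have hz : (1 : ℂ⟦X⟧) + C ζ + C ζ ^ 2 + C ζ ^ 3 + C ζ ^ 4 = 0 := by
    have h1 := geom_of hζ (n := 1) (by norm_num)
    rw [pow_one] at h1
    have := congrArg (C (R := ℂ)) h1
    rw [map_add, map_add, map_add, map_add, map_one, map_zero] at this
    simpa only [map_pow] using this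
  have hpow : ∀ j : ℕ, (ζ ^ j) ^ 5 = 1 := fun j => by
    rw [← pow_mul, mul_comm, pow_mul, hζ.pow_eq_one, one_pow]
  -- the factorisation
  have hF : Q ℂ 1 1 * Q ℂ 5 5 = V ℂ 5 (PowerSeries.map (Int.castRingHom ℂ) sB) ^ 2 -
      X * (V ℂ 5 (PowerSeries.map (Int.castRingHom ℂ) sA) * V ℂ 5 (PowerSeries.map (Int.castRingHom ℂ) sB)) -
      X ^ 2 * V ℂ 5 (PowerSeries.map (Int.castRingHom ℂ) sA) ^ 2 := by
    have h := congrArg (PowerSeries.map (Int.castRingHom ℂ)) (AB_eq.symm.trans AB_five)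
    rw [map_mul, Q_map _ le_rfl le_rfl, Q_map _ (by norm_num) (by norm_num), map_sub, map_sub, map_mul,
      map_mul, map_mul, map_pow, map_pow, map_pow, V_map, V_map, PowerSeries.map_X] at h
    exact h
  set a := V ℂ 5 (PowerSeries.map (Int.castRingHom ℂ) sA) with ha
  set b := V ℂ 5 (PowerSeries.map (Int.castRingHom ℂ) sB) with hb
  have hQ5 : Q ℂ 5 5 = V ℂ 5 (Q ℂ 1 1) := (V_Q 5 le_rfl le_rfl).symm
  have hres : ∀ j : ℕ, rescale (ζ ^ j) (Q ℂ 1 1) * Q ℂ 5 5 =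
      b ^ 2 - C ζ ^ j * (b * (X * a)) - C ζ ^ (2 * j) * (X * a) ^ 2 := by
    intro j
    have h := congrArg (rescale (ζ ^ j)) hF
    rw [map_mul, map_sub, map_sub, map_pow, map_mul, map_mul, map_mul, map_pow, map_pow, hb, ha,
      rescale_V (hpow j), rescale_V (hpow j), hQ5, rescale_V (hpow j), rescale_X', map_pow] at h
    rw [hQ5, h, mul_comm 2 j, pow_mul]
    ring
  have hprod : (∏ j ∈ range 5, rescale (ζ ^ j) (Q ℂ 1 1)) * Q ℂ 5 5 ^ 5 =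
      b ^ 10 - 11 * b ^ 5 * (X * a) ^ 5 - (X * a) ^ 10 := by
    rw [← five_prod (C ζ) b (X * a) hz]
    have e : Q ℂ 5 5 ^ 5 = ∏ _j ∈ range 5, Q ℂ 5 5 := by rw [prod_const, card_range]
    rw [e, ← prod_mul_distrib, prod_congr rfl fun j _ => hres j]
    rw [prod_range_succ, prod_range_succ, prod_range_succ, prod_range_succ, prod_range_one]
    ring
  have hr := prod_rescale hζ
  have hfin : Q ℂ 25 25 * (b ^ 10 - 11 * b ^ 5 * (X * a) ^ 5 - (X * a) ^ 10) = Q ℂ 5 5 ^ 11 := by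
    rw [← hprod]
    linear_combination Q ℂ 5 5 ^ 5 * hr
  have h1 : V ℂ 5 (Q ℂ 5 5) = Q ℂ 25 25 := V_Q 5 (by norm_num) (by norm_num)
  simp only [V_map, map_mul, map_sub, map_pow, PowerSeries.map_X, V_X, map_ofNat,
    Q_map (Int.castRingHom ℂ) (a := 1) (k := 1) le_rfl le_rfl,
    Q_map (Int.castRingHom ℂ) (a := 5) (k := 5) (by norm_num) (by norm_num)]
  rw [← ha, ← hb, h1, ← hQ5, ← hfin]
  ring

/-- the eta quotient identity -/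
theorem R5 : Q ℤ 5 5 * (sB ^ 10 - 11 * X * sA ^ 5 * sB ^ 5 - X ^ 2 * sA ^ 10) = Q ℤ 1 1 ^ 11 :=
  V_inj 5 R5'

end Pool.Agent.K7.H67.RC
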