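import Mathlib

/-! Families of monomials with finite fibres and their power series. -/

set_option autoImplicit false

namespace Pool.Agent.K7.H67.RC

open PowerSeries Finset

universe u v w

/-- a family of monomials with finite fibres -/
structure Fam (ι : Type u) where
  d : ι → ℕ
  c : ι → ℤ
  fin : ∀ m, {i | d i = m}.Finite

variable {ι : Type u} {κ : Type v} {κ' : Type w}

/-- the fibre -/
noncomputable def Fam.F (T : Fam ι) (m : ℕ) : Finset ι := (T.fin m).toFinset

lemma Fam.mem_F {T : Fam ι} {m : ℕ} {i : ι} : i ∈ T.F m ↔ T.d i = m := by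
  unfold Fam.F
  rw [Set.Finite.mem_toFinset]
  exact Iff.rfl

/-- the series of a family -/
noncomputable def Fam.ser (T : Fam ι) : ℤ⟦X⟧ := PowerSeries.mk fun m => ∑ i ∈ T.F m, T.c i

lemma Fam.coeff_ser (T : Fam ι) (m : ℕ) : coeff m T.ser = ∑ i ∈ T.F m, T.c i := by
  unfold Fam.ser
  rw [coeff_mk]

lemma ser_equiv {T : Fam ι} {T' : Fam κ} (e : ι ≃ κ) (hd : ∀ i, T'.d (e i) = T.d i)
    (hc : ∀ i, T'.c (e i) = T.c i) : T.ser = T'.ser := by
  ext m
  rw [Fam.coeff_ser, Fam.coeff_ser]
  refine Finset.sum_equiv e (fun i => ?_) (fun i _ => (hc i).symm)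
  rw [Fam.mem_F, Fam.mem_F, hd]

/-- product of families -/
def Fam.mul (T : Fam ι) (T' : Fam κ) : Fam (ι × κ) where
  d := fun x => T.d x.1 + T'.d x.2
  c := fun x => T.c x.1 * T'.c x.2
  fin := fun m => by
    classical
    refine Set.Finite.subset (((range (m + 1)).biUnion (fun a => T.F a)) ×ˢ
      ((range (m + 1)).biUnion (fun a => T'.F a))).finite_toSet ?_
    rintro ⟨i, j⟩ h
    simp only [Set.mem_ofPred_eq] at h
    rw [mem_coe, mem_product, mem_biUnion, mem_biUnion]
    exact ⟨⟨T.d i, mem_range.2 (by omega), Fam.mem_F.2 rfl⟩,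
      ⟨T'.d j, mem_range.2 (by omega), Fam.mem_F.2 rfl⟩⟩

lemma ser_mul (T : Fam ι) (T' : Fam κ) : (T.mul T').ser = T.ser * T'.ser := by
  classical
  ext m
  rw [Fam.coeff_ser, coeff_mul]
  rw [← Finset.sum_fiberwise_of_maps_to (g := fun x : ι × κ => (T.d x.1, T'.d x.2))
    (t := antidiagonal m)]
  · refine sum_congr rfl fun ab hab => ?_
    rw [Fam.coeff_ser, Fam.coeff_ser, sum_mul_sum, ← sum_product']
    refine sum_congr ?_ fun _ _ => rfl
    ext ⟨i, j⟩
    rw [HasAntidiagonal.mem_antidiagonal] at hab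
    rw [mem_filter, Fam.mem_F, mem_product, Fam.mem_F, Fam.mem_F]
    constructor
    · rintro ⟨_, h⟩
      rw [← h]
      exact ⟨rfl, rfl⟩
    · rintro ⟨h1, h2⟩
      simp only at h1 h2
      refine ⟨?_, ?_⟩
      · show T.d i + T'.d j = m
        rw [h1, h2, hab]
      · rw [h1, h2]
  · intro x hx
    rw [Fam.mem_F] at hx
    rw [HasAntidiagonal.mem_antidiagonal]
    exact hx

/-- pull back of a family along an injective map -/
def Fam.pull (T : Fam ι) (f : κ → ι) (hf : Function.Injective f) : Fam κ where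
  d := fun x => T.d (f x)
  c := fun x => T.c (f x)
  fin := fun m => (T.fin m).preimage hf.injOn

lemma ser_split (T : Fam ι) (e : κ ⊕ κ' ≃ ι) :
    T.ser = (T.pull (fun x => e (Sum.inl x)) (fun _ _ h => Sum.inl_injective (e.injective h))).ser +
      (T.pull (fun x => e (Sum.inr x)) (fun _ _ h => Sum.inr_injective (e.injective h))).ser := by
  classical
  ext m
  rw [map_add, Fam.coeff_ser, Fam.coeff_ser, Fam.coeff_ser]
  have h1 : T.F m = ((T.pull (fun x => e (Sum.inl x)) (fun _ _ h => Sum.inl_injective (e.injective h))).F m).map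
      ⟨fun x => e (Sum.inl x), fun _ _ h => Sum.inl_injective (e.injective h)⟩ ∪
      ((T.pull (fun x => e (Sum.inr x)) (fun _ _ h => Sum.inr_injective (e.injective h))).F m).map
      ⟨fun x => e (Sum.inr x), fun _ _ h => Sum.inr_injective (e.injective h)⟩ := by
    ext i
    rw [mem_union, mem_map, mem_map, Fam.mem_F]
    constructor
    · intro h
      obtain ⟨s, rfl⟩ := e.surjective i
      rcases s with s | s
      · left
        exact ⟨s, Fam.mem_F.2 h, rfl⟩
      · right
        exact ⟨s, Fam.mem_F.2 h, rfl⟩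
    · rintro (⟨s, hs, rfl⟩ | ⟨s, hs, rfl⟩)
      · have h := Fam.mem_F.1 hs
        exact h
      · have h := Fam.mem_F.1 hs
        exact h
  rw [h1, sum_union, sum_map, sum_map]
  · rfl
  · rw [disjoint_left]
    intro i hi hi'
    rw [mem_map] at hi hi'
    obtain ⟨a, _, rfl⟩ := hi
    obtain ⟨b, _, hb⟩ := hi'
    have := e.injective hb
    exact absurd this (by simp)

/-- shift by a monomial -/
def Fam.shift (T : Fam ι) (k : ℕ) : Fam ι where
  d := fun x => T.d x + k
  c := T.c
  fin := fun m => (T.fin (m - k)).subset fun x hx => by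
    simp only [Set.mem_ofPred_eq] at hx ⊢
    omega

lemma ser_shift (T : Fam ι) (k : ℕ) : (T.shift k).ser = X ^ k * T.ser := by
  ext m
  rw [Fam.coeff_ser, coeff_X_pow_mul']
  split_ifs with h
  · rw [Fam.coeff_ser]
    refine sum_congr ?_ fun _ _ => rfl
    ext i
    rw [Fam.mem_F, Fam.mem_F]
    show T.d i + k = m ↔ _
    omega
  · apply sum_eq_zero
    intro i hi
    rw [Fam.mem_F] at hi
    exfalso
    have : T.d i + k = m := hi
    omega

/-- multiplication by a constant -/
def Fam.smul (T : Fam ι) (a : ℤ) : Fam ι where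
  d := T.d
  c := fun x => a * T.c x
  fin := T.fin

lemma ser_smul (T : Fam ι) (a : ℤ) : (T.smul a).ser = C a * T.ser := by
  ext m
  rw [Fam.coeff_ser, coeff_C_mul, Fam.coeff_ser, mul_sum]
  rfl

/-- the parity equivalence -/
def par : (ℤ × ℤ) ⊕ (ℤ × ℤ) ≃ ℤ × ℤ where
  toFun := fun s => match s with
    | Sum.inl x => (x.1 + x.2, x.1 - x.2)
    | Sum.inr x => (x.1 + x.2 + 1, x.1 - x.2)
  invFun := fun y => if (y.1 + y.2) % 2 = 0 then Sum.inl ((y.1 + y.2) / 2, (y.1 - y.2) / 2)
    else Sum.inr ((y.1 + y.2 - 1) / 2, (y.1 - y.2 - 1) / 2)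
  left_inv := by
    rintro (⟨a, b⟩ | ⟨a, b⟩)
    · simp only
      rw [if_pos (by omega)]
      congr 2 <;> omega
    · simp only
      rw [if_neg (by omega)]
      congr 2 <;> omega
  right_inv := by
    rintro ⟨k, n⟩
    simp only
    split_ifs with h
    · simp only [Prod.mk.injEq]
      constructor <;> omega
    · simp only [Prod.mk.injEq]
      constructor <;> omega

/-- the sign of an integer -/
def sg (n : ℤ) : ℤ := if n % 2 = 0 then 1 else -1

lemma sg_add (m n : ℤ) : sg (m + n) = sg m * sg n := by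
  unfold sg
  split_ifs <;> omega

lemma sg_mul_self (n : ℤ) : sg n * sg n = 1 := by
  unfold sg
  split_ifs <;> norm_num

lemma sg_eq {m n : ℤ} (h : (m - n) % 2 = 0) : sg m = sg n := by
  unfold sg
  split_ifs <;> omega

lemma sg_neg_eq {m n : ℤ} (h : (m - n) % 2 = 1) : sg m = - sg n := by
  unfold sg
  split_ifs <;> omega

/-- the exponent `(a n^2 + b n) / 2` -/
def dq (a b n : ℤ) : ℕ := ((a * n ^ 2 + b * n) / 2).toNat

lemma two_dvd_q {a b : ℤ} (h : (a - b) % 2 = 0) (n : ℤ) : (2 : ℤ) ∣ a * n ^ 2 + b * n := by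
  obtain ⟨c, hc⟩ : (2 : ℤ) ∣ a - b := Int.dvd_of_emod_eq_zero h
  have e : a * n ^ 2 + b * n = (a - b) * n ^ 2 + b * (n * (n + 1)) := by ring
  rw [e, hc]
  apply dvd_add
  · exact ⟨c * n ^ 2, by ring⟩
  · exact Dvd.dvd.mul_left (Int.even_mul_succ_self n).two_dvd _

lemma q_nonneg {a b : ℤ} (h1 : -a ≤ b) (h2 : b ≤ a) (n : ℤ) : 0 ≤ a * n ^ 2 + b * n := by
  rcases lt_trichotomy n 0 with hn | rfl | hn
  · have : n ≤ -1 := by omega
    have e : a * n ^ 2 + b * n = (-n) * (a * (-n) - b) := by ring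
    rw [e]
    have h3 : a * 1 ≤ a * (-n) := by
      apply mul_le_mul_of_nonneg_left (by omega) (by omega)
    have h4 : 0 ≤ a * (-n) - b := by linarith
    exact mul_nonneg (by omega) h4
  · simp
  · have e : a * n ^ 2 + b * n = n * (a * n + b) := by ring
    rw [e]
    have h3 : a * 1 ≤ a * n := mul_le_mul_of_nonneg_left (by omega) (by omega)
    exact mul_nonneg hn.le (by linarith)

lemma dq_spec {a b : ℤ} (h : (a - b) % 2 = 0) (h1 : -a ≤ b) (h2 : b ≤ a) (n : ℤ) :
    2 * (dq a b n : ℤ) = a * n ^ 2 + b * n := by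
  have hd := two_dvd_q h n
  have hn := q_nonneg h1 h2 n
  unfold dq
  rw [Int.toNat_of_nonneg (by omega)]
  omega

lemma dq_ge {a b : ℤ} (h : (a - b) % 2 = 0) (h1 : -a < b) (h2 : b < a) (n : ℤ) :
    |n| ≤ 2 * (dq a b n : ℤ) := by
  rw [dq_spec h h1.le h2.le]
  have := q_nonneg (a := a - 1) (b := b) (by omega) (by omega) n
  have h3 : |n| ≤ n ^ 2 := by
    rw [← sq_abs]
    rcases eq_or_ne n 0 with rfl | hn
    · simp
    · have : 1 ≤ |n| := Int.one_le_abs hn
      nlinarith
  linarith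

/-- the theta series `∑ ε^n q^((a n^2 + b n) / 2)`, `ε = 1` or the alternating sign -/
def th (s : Bool) (a b : ℤ) (h : (a - b) % 2 = 0) (h1 : -a < b) (h2 : b < a) : Fam ℤ where
  d := dq a b
  c := fun n => if s then sg n else 1
  fin := fun m => by
    refine Set.Finite.subset (Set.finite_Icc (-(2 * (m : ℤ))) (2 * m)) ?_
    intro n hn
    simp only [Set.mem_ofPred_eq] at hn
    have h3 := dq_ge h h1 h2 n
    rw [hn] at h3
    rw [Set.mem_Icc]
    exact abs_le.1 h3

end Pool.Agent.K7.H67.RC
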