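import Pool.Agent.K7.H67.RC.Last

/-! Certificates (generated). -/

set_option autoImplicit false
set_option linter.unusedSimpArgs false

namespace Pool.Agent.K7.H67.RC

open PowerSeries Finset


lemma st1_G0 {f : ℤ⟦X⟧} (hf : C (8 : ℤ) ∣ D0 * f - x ^ 0 * (k + (-2) * k ^ 3 + k ^ 5)) :
    C (8 : ℤ) ∣ (1 - k) ^ 1 * (1 + k) ^ 1 * U ℤ 2 f - x ^ 0 * ((-2) * k) := by
  have h := ustep 8 (d := (1 + k - k ^ 2) * (1 - k) ^ 1 * (1 + k) ^ 1) (p := (-2) * k + (-2) * k ^ 2 + (2) * k ^ 3) (q := (1) + (4) * k + k ^ 2) 0 hf D0_const (by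
    unfold D0
    refine cancel_unit (u := (1 + K) ^ 1 * (1 + k) ^ 0) (by simp [k_const, K_const]) ?_
    simp only [map_mul, map_add, map_sub, map_pow, map_one, map_ofNat, map_neg, map_zero, Vk]
    rw [c_eq]
    exact ⟨(-1) * K + (9) * k * K + (2) * k ^ 2 + (-16) * k ^ 2 * K + (-9) * k ^ 3 + (-45) * k ^ 3 * K + (4) * k ^ 4 + (121) * k ^ 4 * K + (46) * k ^ 5 + (69) * k ^ 5 * K + (-41) * k ^ 6 + (-229) * k ^ 6 * K + (-70) * k ^ 7 + (-38) * k ^ 7 * K + (47) * k ^ 8 + (125) * k ^ 8 * K + (36) * k ^ 9 + (34) * k ^ 9 * K + (-7) * k ^ 10 + (-19) * k ^ 10 * K + (-7) * k ^ 11 + (-9) * k ^ 11 * K + (-1) * k ^ 12 + (-1) * k ^ 12 * K,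
      by linear_combination ((-9) + (-8) * K + (-3) * K ^ 2 + (65) * k + (53) * k * K + (21) * k * K ^ 2 + k * K ^ 3 + (-62) * k ^ 2 + (-32) * k ^ 2 * K + (-10) * k ^ 2 * K ^ 2 + (-362) * k ^ 3 + (-274) * k ^ 3 * K + (-98) * k ^ 3 * K ^ 2 + (-2) * k ^ 3 * K ^ 3 + (335) * k ^ 4 + (40) * k ^ 4 * K + (-11) * k ^ 4 * K ^ 2 + (561) * k ^ 5 + (213) * k ^ 5 * K + (29) * k ^ 5 * K ^ 2 + k ^ 5 * K ^ 3 + (-376) * k ^ 6 + (8) * k ^ 6 * K + (8) * k ^ 6 * K ^ 2 + (-288) * k ^ 7 + (-40) * k ^ 7 * K + (56) * k ^ 8 + (-8) * k ^ 8 * K + (56) * k ^ 9 + (8) * k ^ 10) * hG⟩)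
  exact conv 8 (2 * 0) 0 0 (by norm_num) h.2 (by simp [k_const, K_const]) ⟨0, by
    rw [map_ofNat]
    ring⟩

lemma st1_F1 {f : ℤ⟦X⟧} (hf : C (8 : ℤ) ∣ D0 * f - x ^ 1 * ((1) + k + (6) * k ^ 2 + (10) * k ^ 3 + k ^ 4 + (-3) * k ^ 5)) :
    C (8 : ℤ) ∣ (1 + k) ^ 2 * U ℤ 2 f - x ^ 3 * ((-1) + (3) * k) := by
  have h := ustep 8 (d := (1 + k - k ^ 2) * (1 - k) ^ 2) (p := (-1) * k + (2) * k ^ 2 + (4) * k ^ 3 + (-3) * k ^ 4) (q := (1) + (-1) * k + (2) * k ^ 2) 1 hf D0_const (by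
    unfold D0
    refine cancel_unit (u := (1 + K) ^ 1 * (1 + k) ^ 0) (by simp [k_const, K_const]) ?_
    simp only [map_mul, map_add, map_sub, map_pow, map_one, map_ofNat, map_neg, map_zero, Vk]
    rw [c_eq]
    exact ⟨(-1) * K + (9) * k * K + (2) * k ^ 2 + (-14) * k ^ 2 * K + (-7) * k ^ 3 + (-71) * k ^ 3 * K + (135) * k ^ 4 * K + (64) * k ^ 5 + (247) * k ^ 5 * K + (-16) * k ^ 6 + (-314) * k ^ 6 * K + (-177) * k ^ 7 + (-425) * k ^ 7 * K + (-15) * k ^ 8 + (207) * k ^ 8 * K + (164) * k ^ 9 + (322) * k ^ 9 * K + (55) * k ^ 10 + (19) * k ^ 10 * K + (-37) * k ^ 11 + (-75) * k ^ 11 * K + (-22) * k ^ 12 + (-28) * k ^ 12 * K + (-3) * k ^ 13 + (-3) * k ^ 13 * K,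
      by linear_combination ((-8) + (-7) * K + (3) * K ^ 3 + (57) * k + (40) * k * K + (-7) * k * K ^ 2 + (-22) * k * K ^ 3 + (-20) * k ^ 2 + (54) * k ^ 2 * K + (56) * k ^ 2 * K ^ 2 + (14) * k ^ 2 * K ^ 3 + (-506) * k ^ 3 + (-312) * k ^ 3 * K + (-10) * k ^ 3 * K ^ 2 + (84) * k ^ 3 * K ^ 3 + (132) * k ^ 4 + (-327) * k ^ 4 * K + (-232) * k ^ 4 * K ^ 2 + (-25) * k ^ 4 * K ^ 3 + (1417) * k ^ 5 + (432) * k ^ 5 * K + (-23) * k ^ 5 * K ^ 2 + (-22) * k ^ 5 * K ^ 3 + (120) * k ^ 6 + (408) * k ^ 6 * K + (80) * k ^ 6 * K ^ 2 + (-1312) * k ^ 7 + (-88) * k ^ 7 * K + (24) * k ^ 7 * K ^ 2 + (-440) * k ^ 8 + (-128) * k ^ 8 * K + (296) * k ^ 9 + (-24) * k ^ 9 * K + (176) * k ^ 10 + (24) * k ^ 11) * hG⟩)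
  exact conv 8 (2 * 1) 3 1 (by norm_num) h.2 (by simp [k_const, K_const]) ⟨(-1) * k ^ 2 + (2) * k ^ 3 + (3) * k ^ 4 + (-1) * k ^ 5 + (4) * k ^ 6 + (-3) * k ^ 7, by
    rw [map_ofNat]
    ring⟩

lemma st1_D1 {f : ℤ⟦X⟧} (hf : C (8 : ℤ) ∣ D0 * f - x ^ 1 * ((1) + (-4) * k + (6) * k ^ 2 + (20) * k ^ 3 + k ^ 4 + (-8) * k ^ 5)) :
    C (8 : ℤ) ∣ (1 - k) ^ 1 * (1 + k) ^ 1 * U ℤ 2 f - x ^ 3 * ((2)) := by
  have h := ustep 8 (d := (1 + k - k ^ 2) * (1 - k) ^ 1 * (1 + k) ^ 1) (p := (2) * k + (2) * k ^ 2 + (-2) * k ^ 3) (q := (1) + k ^ 2) 1 hf D0_const (by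
    unfold D0
    refine cancel_unit (u := (1 + K) ^ 1 * (1 + k) ^ 0) (by simp [k_const, K_const]) ?_
    simp only [map_mul, map_add, map_sub, map_pow, map_one, map_ofNat, map_neg, map_zero, Vk]
    rw [c_eq]
    exact ⟨(-1) * K + (7) * k * K + k ^ 2 + (-1) * k ^ 2 * K + (-3) * k ^ 3 + (-57) * k ^ 3 * K + (-7) * k ^ 4 + (20) * k ^ 4 * K + (33) * k ^ 5 + (160) * k ^ 5 * K + (33) * k ^ 6 + (7) * k ^ 6 * K + (-54) * k ^ 7 + (-164) * k ^ 7 * K + (-55) * k ^ 8 + (-99) * k ^ 8 * K + (4) * k ^ 9 + (44) * k ^ 9 * K + (38) * k ^ 10 + (86) * k ^ 10 * K + (22) * k ^ 11 + (22) * k ^ 11 * K + (-5) * k ^ 12 + (-15) * k ^ 12 * K + (-6) * k ^ 13 + (-8) * k ^ 13 * K + (-1) * k ^ 14 + (-1) * k ^ 14 * K,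
      by linear_combination ((-5) + K ^ 2 + (25) * k + (-7) * k * K + (-7) * k * K ^ 2 + k * K ^ 3 + (46) * k ^ 2 + (40) * k ^ 2 * K + (6) * k ^ 2 * K ^ 2 + (-4) * k ^ 2 * K ^ 3 + (-258) * k ^ 3 + (-26) * k ^ 3 * K + (38) * k ^ 3 * K ^ 2 + (6) * k ^ 3 * K ^ 3 + (-265) * k ^ 4 + (-216) * k ^ 4 * K + (-23) * k ^ 4 * K ^ 2 + (20) * k ^ 4 * K ^ 3 + (433) * k ^ 5 + (-31) * k ^ 5 * K + (-47) * k ^ 5 * K ^ 2 + k ^ 5 * K ^ 3 + (440) * k ^ 6 + (112) * k ^ 6 * K + (-24) * k ^ 6 * K ^ 2 + (-8) * k ^ 6 * K ^ 3 + (-32) * k ^ 7 + (112) * k ^ 7 * K + (16) * k ^ 7 * K ^ 2 + (-304) * k ^ 8 + (8) * k ^ 8 * K + (8) * k ^ 8 * K ^ 2 + (-176) * k ^ 9 + (-32) * k ^ 9 * K + (40) * k ^ 10 + (-8) * k ^ 10 * K + (48) * k ^ 11 + (8) * k ^ 12) * hG⟩)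
  exact conv 8 (2 * 1) 3 1 (by norm_num) h.2 (by simp [k_const, K_const]) ⟨k ^ 2 + k ^ 3 + (-2) * k ^ 4 + (-1) * k ^ 5 + k ^ 6, by
    rw [map_ofNat]
    ring⟩

lemma st1_D2 {f : ℤ⟦X⟧} (hf : C (8 : ℤ) ∣ D0 * f - x ^ 2 * ((1) + k + (6) * k ^ 2 + (10) * k ^ 3 + k ^ 4 + (-3) * k ^ 5)) :
    C (8 : ℤ) ∣ (1 + k) ^ 2 * U ℤ 2 f - x ^ 1 * ((1) + (-1) * k) := by
  have h := ustep 8 (d := (1 + k - k ^ 2) * (1 - k) ^ 1) (p := k + k ^ 2 + (-1) * k ^ 3) (q := (-2) * k + (3) * k ^ 2) 2 hf D0_const (by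
    unfold D0
    refine cancel_unit (u := (1 + K) ^ 2 * (1 + k) ^ 0) (by simp [k_const, K_const]) ?_
    simp only [map_mul, map_add, map_sub, map_pow, map_one, map_ofNat, map_neg, map_zero, Vk]
    rw [c_eq]
    exact ⟨(-1) * K + (11) * k * K + k ^ 2 + (-31) * k ^ 2 * K + (-8) * k ^ 3 + (-42) * k ^ 3 * K + (15) * k ^ 4 + (262) * k ^ 4 * K + (56) * k ^ 5 + (-15) * k ^ 5 * K + (-127) * k ^ 6 + (-697) * k ^ 6 * K + (-136) * k ^ 7 + (162) * k ^ 7 * K + (273) * k ^ 8 + (769) * k ^ 8 * K + (137) * k ^ 9 + (-65) * k ^ 9 * K + (-180) * k ^ 10 + (-390) * k ^ 10 * K + (-87) * k ^ 11 + (-63) * k ^ 11 * K + (31) * k ^ 12 + (69) * k ^ 12 * K + (22) * k ^ 13 + (28) * k ^ 13 * K + (3) * k ^ 14 + (3) * k ^ 14 * K,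
      by linear_combination ((-7) + (-6) * K + (-5) * K ^ 2 + (-2) * K ^ 3 + (65) * k + (43) * k * K + (29) * k * K ^ 2 + (11) * k * K ^ 3 + (-114) * k ^ 2 + (-12) * k ^ 2 * K + (26) * k ^ 2 * K ^ 2 + (12) * k ^ 2 * K ^ 3 + (-438) * k ^ 3 + (-374) * k ^ 3 * K + (-234) * k ^ 3 * K ^ 2 + (-74) * k ^ 3 * K ^ 3 + (1017) * k ^ 4 + (194) * k ^ 4 * K + (-133) * k ^ 4 * K ^ 2 + (-74) * k ^ 4 * K ^ 3 + (1085) * k ^ 5 + (883) * k ^ 5 * K + (317) * k ^ 5 * K ^ 2 + (39) * k ^ 5 * K ^ 3 + (-2184) * k ^ 6 + (-336) * k ^ 6 * K + (72) * k ^ 6 * K ^ 2 + (24) * k ^ 6 * K ^ 3 + (-1096) * k ^ 7 + (-568) * k ^ 7 * K + (-80) * k ^ 7 * K ^ 2 + (1440) * k ^ 8 + (40) * k ^ 8 * K + (-24) * k ^ 8 * K ^ 2 + (696) * k ^ 9 + (128) * k ^ 9 * K + (-248) * k ^ 10 + (24) * k ^ 10 * K + (-176) * k ^ 11 + (-24) * k ^ 12) * hG⟩)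
  exact conv 8 (2 * 2) 1 1 (by norm_num) h.2 (by simp [k_const, K_const]) ⟨k ^ 2 + k ^ 3 + k ^ 5 + (-1) * k ^ 6, by
    rw [map_ofNat]
    ring⟩

lemma st1_F3 {f : ℤ⟦X⟧} (hf : C (8 : ℤ) ∣ D0 * f - x ^ 3 * ((3) + (13) * k + (18) * k ^ 2 + (10) * k ^ 3 + (3) * k ^ 4 + k ^ 5)) :
    C (8 : ℤ) ∣ (1 + k) ^ 1 * U ℤ 2 f - x ^ 4 * ((1)) := by
  have h := ustep 8 (d := (1 + k - k ^ 2) * (1 + k) ^ 1) (p := k ^ 2 + k ^ 3 + (-1) * k ^ 4) (q := (3) * k + (2) * k ^ 2) 3 hf D0_const (by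
    unfold D0
    refine cancel_unit (u := (1 + K) ^ 2 * (1 + k) ^ 0) (by simp [k_const, K_const]) ?_
    simp only [map_mul, map_add, map_sub, map_pow, map_one, map_ofNat, map_neg, map_zero, Vk]
    rw [c_eq]
    exact ⟨(-3) * K + (29) * k * K + (3) * k ^ 2 + (-59) * k ^ 2 * K + (-23) * k ^ 3 + (-161) * k ^ 3 * K + (22) * k ^ 4 + (521) * k ^ 4 * K + (164) * k ^ 5 + (337) * k ^ 5 * K + (-182) * k ^ 6 + (-1290) * k ^ 6 * K + (-414) * k ^ 7 + (-446) * k ^ 7 * K + (297) * k ^ 8 + (1187) * k ^ 8 * K + (421) * k ^ 9 + (541) * k ^ 9 * K + (-87) * k ^ 10 + (-393) * k ^ 10 * K + (-193) * k ^ 11 + (-297) * k ^ 11 * K + (-38) * k ^ 12 + (-14) * k ^ 12 * K + (20) * k ^ 13 + (36) * k ^ 13 * K + (9) * k ^ 14 + (11) * k ^ 14 * K + k ^ 15 + k ^ 15 * K,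
      by linear_combination ((-24) + (-20) * K + (-9) * K ^ 2 + K ^ 4 + (187) * k + (130) * k * K + (50) * k * K ^ 2 + (-4) * k * K ^ 3 + (-7) * k * K ^ 4 + (-163) * k ^ 2 + (11) * k ^ 2 * K + (52) * k ^ 2 * K ^ 2 + (27) * k ^ 2 * K ^ 3 + (5) * k ^ 2 * K ^ 4 + (-1294) * k ^ 3 + (-932) * k ^ 3 * K + (-380) * k ^ 3 * K ^ 2 + (-16) * k ^ 3 * K ^ 3 + (30) * k ^ 3 * K ^ 4 + (1466) * k ^ 4 + (-90) * k ^ 4 * K + (-389) * k ^ 4 * K ^ 2 + (-138) * k ^ 4 * K ^ 3 + (-5) * k ^ 4 * K ^ 4 + (3315) * k ^ 5 + (1650) * k ^ 5 * K + (306) * k ^ 5 * K ^ 2 + (-28) * k ^ 5 * K ^ 3 + (-7) * k ^ 5 * K ^ 4 + (-2375) * k ^ 6 + (315) * k ^ 6 * K + (274) * k ^ 6 * K ^ 2 + (23) * k ^ 6 * K ^ 3 + (-1) * k ^ 6 * K ^ 4 + (-3368) * k ^ 7 + (-808) * k ^ 7 * K + (8) * k ^ 7 * K ^ 3 + (696) * k ^ 8 + (-336) * k ^ 8 * K + (-40)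 * k ^ 8 * K ^ 2 + (1544) * k ^ 9 + (64) * k ^ 9 * K + (-8) * k ^ 9 * K ^ 2 + (304) * k ^ 10 + (56) * k ^ 10 * K + (-160) * k ^ 11 + (8) * k ^ 11 * K + (-72) * k ^ 12 + (-8) * k ^ 13) * hG⟩)
  exact conv 8 (2 * 3) 4 2 (by norm_num) h.2 (by simp [k_const, K_const]) ⟨k ^ 3 + (2) * k ^ 4 + k ^ 5 + k ^ 6 + (-1) * k ^ 8, by
    rw [map_ofNat]
    ring⟩

lemma st1_F4 {f : ℤ⟦X⟧} (hf : C (8 : ℤ) ∣ D0 * f - x ^ 4 * ((8) + (33) * k + (48) * k ^ 2 + (30) * k ^ 3 + (8) * k ^ 4 + k ^ 5)) :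
    C (8 : ℤ) ∣ (1 - k) ^ 1 * (1 + k) ^ 1 * U ℤ 2 f - x ^ 2 * ((2) * k) := by
  have h := ustep 8 (d := (1 + k - k ^ 2) * (1 - k) ^ 1 * (1 + k) ^ 1) (p := (2) * k ^ 3 + (2) * k ^ 4 + (-2) * k ^ 5) (q := k ^ 2 + k ^ 4) 4 hf D0_const (by
    unfold D0
    refine cancel_unit (u := (1 + K) ^ 1 * (1 + k) ^ 0) (by simp [k_const, K_const]) ?_
    simp only [map_mul, map_add, map_sub, map_pow, map_one, map_ofNat, map_neg, map_zero, Vk]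
    rw [c_eq]
    exact ⟨(-1) * K + (11) * k * K + k ^ 2 + (-30) * k ^ 2 * K + (-9) * k ^ 3 + (-50) * k ^ 3 * K + (15) * k ^ 4 + (270) * k ^ 4 * K + (66) * k ^ 5 + (25) * k ^ 5 * K + (-122) * k ^ 6 + (-775) * k ^ 6 * K + (-152) * k ^ 7 + (195) * k ^ 7 * K + (324) * k ^ 8 + (1114) * k ^ 8 * K + (181) * k ^ 9 + (-183) * k ^ 9 * K + (-357) * k ^ 10 + (-903) * k ^ 10 * K + (-208) * k ^ 11 + (-170) * k ^ 11 * K + (111) * k ^ 12 + (283) * k ^ 12 * K + (115) * k ^ 13 + (173) * k ^ 13 * K + (32) * k ^ 14 + (38) * k ^ 14 * K + (3) * k ^ 15 + (3) * k ^ 15 * K,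
      by linear_combination ((-8) + (-8) * K + (-5) * K ^ 2 + K ^ 4 + (72) * k + (57) * k * K + (28) * k * K ^ 2 + (-5) * k * K ^ 3 + (-8) * k * K ^ 4 + (-112) * k ^ 2 + (-18) * k ^ 2 * K + (34) * k ^ 2 * K ^ 2 + (36) * k ^ 2 * K ^ 3 + (12) * k ^ 2 * K ^ 4 + (-495) * k ^ 3 + (-441) * k ^ 3 * K + (-250) * k ^ 3 * K ^ 2 + (-31) * k ^ 3 * K ^ 3 + (25) * k ^ 3 * K ^ 4 + (1024) * k ^ 4 + (196) * k ^ 4 * K + (-165) * k ^ 4 * K ^ 2 + (-144) * k ^ 4 * K ^ 3 + (-35) * k ^ 4 * K ^ 4 + (1246) * k ^ 5 + (975) * k ^ 5 * K + (432) * k ^ 5 * K ^ 2 + (93) * k ^ 5 * K ^ 3 + (-2) * k ^ 5 * K ^ 4 + (-2584) * k ^ 6 + (-562) * k ^ 6 * K + (120) * k ^ 6 * K ^ 2 + (108) * k ^ 6 * K ^ 3 + (6) * k ^ 6 * K ^ 4 + (-1447) * k ^ 7 + (-1135) * k ^ 7 * K + (-282) * k ^ 7 * K ^ 2 + (23) * k ^ 7 * K ^ 3 + k ^ 7 * K ^ 4 + (2856)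 * k ^ 8 + (152) * k ^ 8 * K + (-160) * k ^ 8 * K ^ 2 + (1664) * k ^ 9 + (552) * k ^ 9 * K + (-24) * k ^ 9 * K ^ 2 + (-888) * k ^ 10 + (208) * k ^ 10 * K + (-920) * k ^ 11 + (24) * k ^ 11 * K + (-256) * k ^ 12 + (-24) * k ^ 13) * hG⟩)
  exact conv 8 (2 * 4) 2 2 (by norm_num) h.2 (by simp [k_const, K_const]) ⟨(2) * k ^ 4 + (2) * k ^ 5 + (-2) * k ^ 6 + (-2) * k ^ 8 + (-2) * k ^ 9 + (2) * k ^ 10, by
    rw [map_ofNat]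
    ring⟩

lemma st1_D4 {f : ℤ⟦X⟧} (hf : C (8 : ℤ) ∣ D0 * f - x ^ 4 * ((3) + (13) * k + (18) * k ^ 2 + (10) * k ^ 3 + (3) * k ^ 4 + k ^ 5)) :
    C (8 : ℤ) ∣ (1 + k) ^ 2 * U ℤ 2 f - x ^ 2 * ((3) + k) := by
  have h := ustep 8 (d := (1 + k - k ^ 2) * (1 + k) ^ 2) (p := (3) * k ^ 2 + (4) * k ^ 3 + (-2) * k ^ 4 + (-1) * k ^ 5) (q := (-2) * k ^ 2 + (-1) * k ^ 3 + (-1) * k ^ 4) 4 hf D0_const (by
    unfold D0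
    refine cancel_unit (u := (1 + K) ^ 1 * (1 + k) ^ 0) (by simp [k_const, K_const]) ?_
    simp only [map_mul, map_add, map_sub, map_pow, map_one, map_ofNat, map_neg, map_zero, Vk]
    rw [c_eq]
    exact ⟨(-3) * k * K + (29) * k ^ 2 * K + (3) * k ^ 3 + (-59) * k ^ 3 * K + (-23) * k ^ 4 + (-161) * k ^ 4 * K + (22) * k ^ 5 + (521) * k ^ 5 * K + (164) * k ^ 6 + (337) * k ^ 6 * K + (-182) * k ^ 7 + (-1290) * k ^ 7 * K + (-414) * k ^ 8 + (-446) * k ^ 8 * K + (297) * k ^ 9 + (1187) * k ^ 9 * K + (421) * k ^ 10 + (541) * k ^ 10 * K + (-87) * k ^ 11 + (-393) * k ^ 11 * K + (-193) * k ^ 12 + (-297) * k ^ 12 * K + (-38) * k ^ 13 + (-14) * k ^ 13 * K + (20) * k ^ 14 + (36) * k ^ 14 * K + (9) * k ^ 15 + (11) * k ^ 15 * K + k ^ 16 + k ^ 16 * K,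
      by linear_combination ((3) * K + (8) * K ^ 2 + (7) * K ^ 3 + (2) * K ^ 4 + (-24) * k + (-41) * k * K + (-65) * k * K ^ 2 + (-49) * k * K ^ 3 + (-13) * k * K ^ 4 + (187) * k ^ 2 + (145) * k ^ 2 * K + (90) * k ^ 2 * K ^ 2 + (31) * k ^ 2 * K ^ 3 + (3) * k ^ 2 * K ^ 4 + (-163) * k ^ 3 + (101) * k ^ 3 * K + (292) * k ^ 3 * K ^ 2 + (237) * k ^ 3 * K ^ 3 + (65) * k ^ 3 * K ^ 4 + (-1294) * k ^ 4 + (-947) * k ^ 4 * K + (-420) * k ^ 4 * K ^ 2 + (-51) * k ^ 4 * K ^ 3 + (20) * k ^ 4 * K ^ 4 + (1466) * k ^ 5 + (-111) * k ^ 5 * K + (-445) * k ^ 5 * K ^ 2 + (-187) * k ^ 5 * K ^ 3 + (-19) * k ^ 5 * K ^ 4 + (3315) * k ^ 6 + (1647) * k ^ 6 * K + (298) * k ^ 6 * K ^ 2 + (-35) * k ^ 6 * K ^ 3 + (-9) * k ^ 6 * K ^ 4 + (-2375) * k ^ 7 + (315) * k ^ 7 * K + (274) * k ^ 7 * K ^ 2 + (23) * k ^ 7 * K ^ 3 + (-1)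 * k ^ 7 * K ^ 4 + (-3368) * k ^ 8 + (-808) * k ^ 8 * K + (8) * k ^ 8 * K ^ 3 + (696) * k ^ 9 + (-336) * k ^ 9 * K + (-40) * k ^ 9 * K ^ 2 + (1544) * k ^ 10 + (64) * k ^ 10 * K + (-8) * k ^ 10 * K ^ 2 + (304) * k ^ 11 + (56) * k ^ 11 * K + (-160) * k ^ 12 + (8) * k ^ 12 * K + (-72) * k ^ 13 + (-8) * k ^ 14) * hG⟩)
  exact conv 8 (2 * 4) 2 2 (by norm_num) h.2 (by simp [k_const, K_const]) ⟨(3) * k ^ 3 + (10) * k ^ 4 + (12) * k ^ 5 + (9) * k ^ 6 + (5) * k ^ 7 + (-2) * k ^ 8 + (-4) * k ^ 9 + (-1) * k ^ 10, by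
    rw [map_ofNat]
    ring⟩

lemma st1_F2 {f : ℤ⟦X⟧} (hf : C (8 : ℤ) ∣ D0 * f - x ^ 2 * ((3) + (13) * k + (18) * k ^ 2 + (10) * k ^ 3 + (3) * k ^ 4 + k ^ 5)) :
    C (8 : ℤ) ∣ (1 + k) ^ 2 * U ℤ 2 f - x ^ 1 * ((3) + (-3) * k) := by
  have h := ustep 8 (d := (1 + k - k ^ 2) * (1 - k) ^ 1) (p := (3) * k + (3) * k ^ 2 + (-3) * k ^ 3) (q := (4) * k + (-1) * k ^ 2) 2 hf D0_const (by
    unfold D0
    refine cancel_unit (u := (1 + K) ^ 2 * (1 + k) ^ 0) (by simp [k_const, K_const]) ?_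
    simp only [map_mul, map_add, map_sub, map_pow, map_one, map_ofNat, map_neg, map_zero, Vk]
    rw [c_eq]
    exact ⟨(-3) * K + (23) * k * K + (3) * k ^ 2 + (-13) * k ^ 2 * K + (-14) * k ^ 3 + (-196) * k ^ 3 * K + (-10) * k ^ 4 + (161) * k ^ 4 * K + (143) * k ^ 5 + (680) * k ^ 5 * K + (84) * k ^ 6 + (-196) * k ^ 6 * K + (-313) * k ^ 7 + (-939) * k ^ 7 * K + (-221) * k ^ 8 + (-173) * k ^ 8 * K + (161) * k ^ 9 + (455) * k ^ 9 * K + (175) * k ^ 10 + (255) * k ^ 10 * K + (24) * k ^ 11 + (-4) * k ^ 11 * K + (-22) * k ^ 12 + (-38) * k ^ 12 * K + (-9) * k ^ 13 + (-11) * k ^ 13 * K + (-1) * k ^ 14 + (-1) * k ^ 14 * K,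
      by linear_combination ((-21) + (-8) * K + (5) * K ^ 2 + (4) * K ^ 3 + (125) * k + (29) * k * K + (-43) * k * K ^ 2 + (-27) * k * K ^ 3 + (98) * k ^ 2 + (144) * k ^ 2 * K + (78) * k ^ 2 * K ^ 2 + (16) * k ^ 2 * K ^ 3 + (-1134) * k ^ 3 + (-402) * k ^ 3 * K + (158) * k ^ 3 * K ^ 2 + (138) * k ^ 3 * K ^ 3 + (-669) * k ^ 4 + (-968) * k ^ 4 * K + (-299) * k ^ 4 * K ^ 2 + (28) * k ^ 4 * K ^ 3 + (2505) * k ^ 5 + (189) * k ^ 5 * K + (-219) * k ^ 5 * K ^ 2 + (-23) * k ^ 5 * K ^ 3 + (1768) * k ^ 6 + (792) * k ^ 6 * K + (16) * k ^ 6 * K ^ 2 + (-8) * k ^ 6 * K ^ 3 + (-1288) * k ^ 7 + (256) * k ^ 7 * K + (40) * k ^ 7 * K ^ 2 + (-1400) * k ^ 8 + (-80) * k ^ 8 * K + (8) * k ^ 8 * K ^ 2 + (-192) * k ^ 9 + (-56) * k ^ 9 * K + (176) * k ^ 10 + (-8) * k ^ 10 * K + (72) * k ^ 11 + (8) * k ^ 12) * hG⟩)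
  exact conv 8 (2 * 2) 1 1 (by norm_num) h.2 (by simp [k_const, K_const]) ⟨(3) * k ^ 2 + (3) * k ^ 3 + (3) * k ^ 5 + (-3) * k ^ 6, by
    rw [map_ofNat]
    ring⟩

lemma st1_D3 {f : ℤ⟦X⟧} (hf : C (8 : ℤ) ∣ D0 * f - x ^ 3 * ((1) + k + (6) * k ^ 2 + (10) * k ^ 3 + k ^ 4 + (-3) * k ^ 5)) :
    C (8 : ℤ) ∣ (1 + k) ^ 1 * U ℤ 2 f - x ^ 4 * ((-3)) := by
  have h := ustep 8 (d := (1 + k - k ^ 2) * (1 + k) ^ 1) (p := (-3) * k ^ 2 + (-3) * k ^ 3 + (3) * k ^ 4) (q := k + (4) * k ^ 2) 3 hf D0_const (by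
    unfold D0
    refine cancel_unit (u := (1 + K) ^ 2 * (1 + k) ^ 0) (by simp [k_const, K_const]) ?_
    simp only [map_mul, map_add, map_sub, map_pow, map_one, map_ofNat, map_neg, map_zero, Vk]
    rw [c_eq]
    exact ⟨(-1) * K + (13) * k * K + k ^ 2 + (-53) * k ^ 2 * K + (-11) * k ^ 3 + (23) * k ^ 3 * K + (34) * k ^ 4 + (327) * k ^ 4 * K + (23) * k ^ 5 + (-506) * k ^ 5 * K + (-229) * k ^ 6 + (-565) * k ^ 6 * K + (117) * k ^ 7 + (1303) * k ^ 7 * K + (444) * k ^ 8 + (274) * k ^ 8 * K + (-333) * k ^ 9 + (-1133) * k ^ 9 * K + (-299) * k ^ 10 + (-141) * k ^ 10 * K + (184) * k ^ 11 + (446) * k ^ 11 * K + (119) * k ^ 12 + (107) * k ^ 12 * K + (-25) * k ^ 13 + (-63) * k ^ 13 * K + (-22) * k ^ 14 + (-28) * k ^ 14 * K + (-3) * k ^ 15 + (-3) * k ^ 15 * K,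
      by linear_combination ((-8) + (-10) * K + (-13) * K ^ 2 + (-10) * K ^ 3 + (-3) * K ^ 4 + (89) * k + (90) * k * K + (100) * k * K ^ 2 + (72) * k * K ^ 3 + (21) * k * K ^ 4 + (-271) * k ^ 2 + (-173) * k ^ 2 * K + (-116) * k ^ 2 * K ^ 2 + (-61) * k ^ 2 * K ^ 3 + (-15) * k ^ 2 * K ^ 4 + (-178) * k ^ 3 + (-364) * k ^ 3 * K + (-440) * k ^ 3 * K ^ 2 + (-312) * k ^ 3 * K ^ 3 + (-90) * k ^ 3 * K ^ 4 + (1842) * k ^ 4 + (1040) * k ^ 4 * K + (447) * k ^ 4 * K ^ 2 + (124) * k ^ 4 * K ^ 3 + (15) * k ^ 4 * K ^ 4 + (-935) * k ^ 5 + (290) * k ^ 5 * K + (372) * k ^ 5 * K ^ 2 + (144) * k ^ 5 * K ^ 3 + (21) * k ^ 5 * K ^ 4 + (-3555) * k ^ 6 + (-1585) * k ^ 6 * K + (-382) * k ^ 6 * K ^ 2 + (-29) * k ^ 6 * K ^ 3 + (3) * k ^ 6 * K ^ 4 + (2664) * k ^ 7 + (144) * k ^ 7 * K + (-120) * k ^ 7 * K ^ 2 + (-24) * k ^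 7 * K ^ 3 + (2392) * k ^ 8 + (728) * k ^ 8 * K + (80) * k ^ 8 * K ^ 2 + (-1472) * k ^ 9 + (8) * k ^ 9 * K + (24) * k ^ 9 * K ^ 2 + (-952) * k ^ 10 + (-128) * k ^ 10 * K + (200) * k ^ 11 + (-24) * k ^ 11 * K + (176) * k ^ 12 + (24) * k ^ 13) * hG⟩)
  exact conv 8 (2 * 3) 4 2 (by norm_num) h.2 (by simp [k_const, K_const]) ⟨(-3) * k ^ 3 + (-6) * k ^ 4 + (-3) * k ^ 5 + (-3) * k ^ 6 + (3) * k ^ 8, by
    rw [map_ofNat]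
    ring⟩


end Pool.Agent.K7.H67.RC
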