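import Pool.Agent.K7.H67.RC.Tri

/-! Theta identities for the Rogers-Ramanujan continued fraction. -/

set_option autoImplicit false

namespace Pool.Agent.K7.H67.RC

open PowerSeries Finset

/-- the substitution `X → X^p` -/
noncomputable def V (R : Type*) [CommRing R] (p : ℕ) [NeZero p] : R⟦X⟧ →+* R⟦X⟧ :=
  (PowerSeries.expand p (NeZero.ne p) : R⟦X⟧ →ₐ[R] R⟦X⟧).toRingHom

lemma coeff_V {R : Type*} [CommRing R] (p : ℕ) [NeZero p] (n : ℕ) (f : R⟦X⟧) :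
    coeff n (V R p f) = if p ∣ n then coeff (n / p) f else 0 := by
  split_ifs with h
  · obtain ⟨m, rfl⟩ := h
    rw [Nat.mul_div_cancel_left _ (Nat.pos_of_neZero p)]
    exact coeff_expand_mul p (NeZero.ne p) f m
  · exact coeff_expand_of_not_dvd p (NeZero.ne p) f h

lemma V_X {R : Type*} [CommRing R] (p : ℕ) [NeZero p] : V R p X = X ^ p :=
  expand_X p (NeZero.ne p)

lemma V_map {R S : Type*} [CommRing R] [CommRing S] (φ : R →+* S) (p : ℕ) [NeZero p] (f : R⟦X⟧) :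
    PowerSeries.map φ (V R p f) = V S p (PowerSeries.map φ f) := by
  ext n
  rw [PowerSeries.coeff_map, coeff_V, coeff_V]
  split_ifs with h
  · rw [PowerSeries.coeff_map]
  · exact map_zero φ

lemma V_V {R : Type*} [CommRing R] (p q : ℕ) [NeZero p] [NeZero q] [NeZero (p * q)] (f : R⟦X⟧) :
    V R p (V R q f) = V R (p * q) f := by
  ext n
  rw [coeff_V, coeff_V]
  by_cases h : p ∣ n
  · obtain ⟨m, rfl⟩ := h
    rw [if_pos (dvd_mul_right _ _), Nat.mul_div_cancel_left _ (Nat.pos_of_neZero p), coeff_V]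
    by_cases h2 : q ∣ m
    · rw [if_pos h2, if_pos (Nat.mul_dvd_mul_left _ h2)]
      congr 2
      obtain ⟨l, rfl⟩ := h2
      rw [Nat.mul_div_cancel_left _ (Nat.pos_of_neZero q), ← mul_assoc,
        Nat.mul_div_cancel_left _ (Nat.pos_of_neZero (p * q))]
    · rw [if_neg h2, if_neg fun h3 => h2 (Nat.dvd_of_mul_dvd_mul_left (Nat.pos_of_neZero p) h3)]
  · rw [if_neg h, coeff_V, if_neg fun h3 => h (dvd_of_mul_right_dvd h3)]

lemma V_Q {R : Type*} [CommRing R] (p : ℕ) [NeZero p] {a k : ℕ} (ha : 1 ≤ a) (hk : 1 ≤ k) :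
    V R p (Q R a k) = Q R (p * a) (p * k) := by
  have hp : 1 ≤ p := Nat.pos_of_neZero p
  refine (((Q_spec (R := R) ha hk).map (V R p) (by
    rw [V_X]; exact dvd_pow_self _ (NeZero.ne p))).congr fun i => ?_).unique
    (Q_spec (Nat.mul_pos hp ha) (Nat.mul_pos hp hk))
  rw [map_sub, map_one, map_pow, V_X, ← pow_mul]
  congr 2
  ring

/-- dilation of a family -/
def Fam.dil {ι : Type*} (F : Fam ι) (p : ℕ) [NeZero p] : Fam ι where
  d := fun x => p * F.d x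
  c := F.c
  fin := fun m => (F.fin (m / p)).subset fun x hx => by
    simp only [Set.mem_ofPred_eq] at hx ⊢
    rw [← hx, Nat.mul_div_cancel_left _ (Nat.pos_of_neZero p)]

lemma ser_dil {ι : Type*} (F : Fam ι) (p : ℕ) [NeZero p] : (F.dil p).ser = V ℤ p F.ser := by
  ext m
  rw [Fam.coeff_ser, coeff_V]
  split_ifs with h
  · obtain ⟨l, rfl⟩ := h
    rw [Nat.mul_div_cancel_left _ (Nat.pos_of_neZero p), Fam.coeff_ser]
    refine sum_congr ?_ fun _ _ => rfl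
    ext i
    rw [Fam.mem_F, Fam.mem_F]
    show p * F.d i = p * l ↔ _
    exact ⟨fun h => Nat.eq_of_mul_eq_mul_left (Nat.pos_of_neZero p) h, fun h => by rw [h]⟩
  · apply sum_eq_zero
    intro i hi
    rw [Fam.mem_F] at hi
    exact absurd ⟨F.d i, hi.symm⟩ h

/-- an antisymmetric family has zero series -/
lemma ser_anti {ι : Type*} (F : Fam ι) (e : ι ≃ ι) (hd : ∀ i, F.d (e i) = F.d i)
    (hc : ∀ i, F.c (e i) = - F.c i) : F.ser = 0 := by
  have h : F.ser = (F.smul (-1)).ser :=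
    (ser_equiv (T := F.smul (-1)) (T' := F) e hd (fun i => by
      rw [hc]
      show _ = -1 * F.c i
      ring)).symm
  rw [ser_smul] at h
  have h2 : F.ser + F.ser = 0 := by
    nth_rewrite 2 [h]
    rw [map_neg, map_one]
    ring
  ext m
  have h3 := congrArg (coeff m) h2
  rw [map_add, map_zero] at h3
  rw [map_zero]
  omega

/-- splitting along a finite type -/
lemma ser_fin {ι κ : Type*} (n : ℕ) (F : Fam ι) (e : Fin n × κ ≃ ι) :
    F.ser = ∑ t : Fin n, (F.pull (fun x => e (t, x)) (fun _ _ h => by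
      have := e.injective h
      exact (Prod.mk.inj this).2)).ser := by
  classical
  ext m
  rw [Fam.coeff_ser, map_sum, ← Finset.sum_fiberwise (g := fun i => (e.symm i).1)]
  refine sum_congr rfl fun t _ => ?_
  rw [Fam.coeff_ser]
  symm
  refine sum_bij (fun x _ => e (t, x)) ?_ ?_ ?_ ?_
  · intro x hx
    rw [Fam.mem_F] at hx
    rw [mem_filter, Fam.mem_F, Equiv.symm_apply_apply]
    exact ⟨hx, rfl⟩
  · intro x _ y _ h
    have := e.injective h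
    exact (Prod.mk.inj this).2
  · intro i hi
    rw [mem_filter, Fam.mem_F] at hi
    have h2 : e (t, (e.symm i).2) = i := by
      rw [← hi.2]
      exact e.apply_symm_apply i
    refine ⟨(e.symm i).2, ?_, h2⟩
    rw [Fam.mem_F]
    show F.d (e (t, (e.symm i).2)) = m
    rw [h2]
    exact hi.1
  · intro x _
    rfl

/-- `A` -/
noncomputable def sA : ℤ⟦X⟧ := T true 5 4 (by norm_num) (by norm_num)
/-- `B` -/
noncomputable def sB : ℤ⟦X⟧ := T true 5 3 (by norm_num) (by norm_num)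
/-- `A⁺` -/
noncomputable def sAp : ℤ⟦X⟧ := T false 5 4 (by norm_num) (by norm_num)
/-- `B⁺` -/
noncomputable def sBp : ℤ⟦X⟧ := T false 5 3 (by norm_num) (by norm_num)
/-- `∑ (-1)^n q^(5 n^2 + 4 n)` -/
noncomputable def sT1 : ℤ⟦X⟧ := T true 10 9 (by norm_num) (by norm_num)
/-- `∑ (-1)^n q^(5 n^2 + 2 n)` -/
noncomputable def sT3 : ℤ⟦X⟧ := T true 10 7 (by norm_num) (by norm_num)
/-- `A(q^2)` -/
noncomputable def sA2 : ℤ⟦X⟧ := T true 10 8 (by norm_num) (by norm_num)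
/-- `B(q^2)` -/
noncomputable def sB2 : ℤ⟦X⟧ := T true 10 6 (by norm_num) (by norm_num)

lemma A_prod : sA = Q ℤ 1 5 * Q ℤ 4 5 * Q ℤ 5 5 := T_true 5 4 _ _
lemma B_prod : sB = Q ℤ 2 5 * Q ℤ 3 5 * Q ℤ 5 5 := T_true 5 3 _ _
lemma Ap_prod : sAp = Qp ℤ 1 5 * Qp ℤ 4 5 * Q ℤ 5 5 := T_false 5 4 _ _
lemma Bp_prod : sBp = Qp ℤ 2 5 * Qp ℤ 3 5 * Q ℤ 5 5 := T_false 5 3 _ _
lemma T1_prod : sT1 = Q ℤ 1 10 * Q ℤ 9 10 * Q ℤ 10 10 := T_true 10 9 _ _
lemma T3_prod : sT3 = Q ℤ 3 10 * Q ℤ 7 10 * Q ℤ 10 10 := T_true 10 7 _ _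
lemma A2_prod : sA2 = Q ℤ 2 10 * Q ℤ 8 10 * Q ℤ 10 10 := T_true 10 8 _ _
lemma B2_prod : sB2 = Q ℤ 4 10 * Q ℤ 6 10 * Q ℤ 10 10 := T_true 10 6 _ _

lemma A2_eq : sA2 = V ℤ 2 sA := by
  rw [A_prod, A2_prod, map_mul, map_mul, V_Q 2 (by norm_num) (by norm_num), V_Q 2 (by norm_num) (by norm_num),
    V_Q 2 (by norm_num) (by norm_num)]

lemma B2_eq : sB2 = V ℤ 2 sB := by
  rw [B_prod, B2_prod, map_mul, map_mul, V_Q 2 (by norm_num) (by norm_num), V_Q 2 (by norm_num) (by norm_num),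
    V_Q 2 (by norm_num) (by norm_num)]

lemma P1 : sA * sAp * Q ℤ 10 10 = sA2 * Q ℤ 5 5 ^ 2 := by
  have h1 : Q ℤ 1 5 * Qp ℤ 1 5 = Q ℤ 2 10 := Q_mul_Qp (by norm_num) (by norm_num)
  have h2 : Q ℤ 4 5 * Qp ℤ 4 5 = Q ℤ 8 10 := Q_mul_Qp (by norm_num) (by norm_num)
  rw [A_prod, Ap_prod, A2_prod, ← h1, ← h2]
  ring

lemma P2 : sB * sBp * Q ℤ 10 10 = sB2 * Q ℤ 5 5 ^ 2 := by
  have h1 : Q ℤ 2 5 * Qp ℤ 2 5 = Q ℤ 4 10 := Q_mul_Qp (by norm_num) (by norm_num)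
  have h2 : Q ℤ 3 5 * Qp ℤ 3 5 = Q ℤ 6 10 := Q_mul_Qp (by norm_num) (by norm_num)
  rw [B_prod, Bp_prod, B2_prod, ← h1, ← h2]
  ring

lemma Q_two (a k : ℕ) (ha : 1 ≤ a) (hk : 1 ≤ k) : Q ℤ a k = Q ℤ a (2 * k) * Q ℤ (a + k) (2 * k) := by
  have h := Q_regroup (R := ℤ) ha hk 2 (by norm_num)
  rw [prod_range_succ, prod_range_one] at h
  simpa using h

lemma P3 : sA * Q ℤ 10 10 ^ 2 = Q ℤ 5 5 * sT1 * sB2 := by
  rw [A_prod, T1_prod, B2_prod, Q_two 1 5 (by norm_num) (by norm_num), Q_two 4 5 (by norm_num) (by norm_num)]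
  norm_num
  ring

lemma P4 : sB * Q ℤ 10 10 ^ 2 = Q ℤ 5 5 * sA2 * sT3 := by
  rw [B_prod, T3_prod, A2_prod, Q_two 2 5 (by norm_num) (by norm_num), Q_two 3 5 (by norm_num) (by norm_num)]
  norm_num
  ring

lemma AB_eq : sA * sB = Q ℤ 1 1 * Q ℤ 5 5 := by
  have h := Q_regroup (R := ℤ) (a := 1) (k := 1) le_rfl le_rfl 5 (by norm_num)
  rw [prod_range_succ, prod_range_succ, prod_range_succ, prod_range_succ, prod_range_one] at h
  norm_num at h
  rw [A_prod, B_prod, h]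
  ring

end Pool.Agent.K7.H67.RC
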