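import Pool.Agent.K7.H67.RC.Two

/-! The congruences modulo three. -/

set_option autoImplicit false
set_option linter.unusedSimpArgs false

namespace Pool.Agent.K7.H67.RC

open PowerSeries Finset

/-- reduction modulo three -/
noncomputable def m3 : ℤ⟦X⟧ →+* (ZMod 3)⟦X⟧ := PowerSeries.map (Int.castRingHom (ZMod 3))

lemma coeff_m3 (f : ℤ⟦X⟧) (n : ℕ) : coeff n (m3 f) = ((coeff n f : ℤ) : ZMod 3) := by
  unfold m3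
  rw [PowerSeries.coeff_map]
  rfl

lemma m3_X : m3 X = X := PowerSeries.map_X _

lemma three_eq : (3 : (ZMod 3)⟦X⟧) = 0 := by
  have h : (C (3 : ZMod 3) : (ZMod 3)⟦X⟧) = 3 := map_ofNat _ 3
  rw [← h, show (3 : ZMod 3) = 0 from rfl, map_zero]

lemma V_cube (f : (ZMod 3)⟦X⟧) : V (ZMod 3) 3 f = f ^ 3 := by
  have : Fact (Nat.Prime 3) := ⟨Nat.prime_three⟩
  have h := MvPowerSeries.map_frobenius_expand (R := ZMod 3) 3 (NeZero.ne 3) (f := f)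
  rw [ZMod.frobenius_zmod] at h
  rw [← h]
  exact (congrFun (congrArg DFunLike.coe MvPowerSeries.map_id) _).symm

/-- exact relation -/
theorem Dl_rel : Dl * X ^ 5 * Q ℤ 25 25 ^ 6 = x ^ 5 * Q ℤ 5 5 ^ 6 := by
  have i2 : Q ℤ 25 25 * (V ℤ 5 sB ^ 10 - 11 * (V ℤ 5 sB) ^ 5 * (X * V ℤ 5 sA) ^ 5 -
      (X * V ℤ 5 sA) ^ 10) = Q ℤ 5 5 ^ 11 := by
    have h := R5'
    simp only [map_mul, map_sub, map_pow, V_X, map_ofNat, V_Q 5 (le_refl 1) (le_refl 1),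
      V_Q (R := ℤ) 5 (a := 5) (k := 5) (by norm_num) (by norm_num)] at h
    norm_num at h
    rw [← h]
    ring
  have i3 : V ℤ 5 sA * V ℤ 5 sB = Q ℤ 5 5 * Q ℤ 25 25 := by
    rw [← map_mul, AB_eq, map_mul, V_Q 5 le_rfl le_rfl, V_Q 5 (by norm_num) (by norm_num)]
  have hx := x_spec
  have hb : constantCoeff (V ℤ 5 sB) = 1 := by rw [V_const, sB_const]
  unfold Dl
  generalize V ℤ 5 sA = a at *
  generalize V ℤ 5 sB = b at *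
  generalize Q ℤ 25 25 = e at *
  generalize Q ℤ 5 5 = f at *
  apply mul_left_cancel₀ (pow_ne_zero 10 (ne_of_const hb))
  have h1 : e * (b ^ 10 * (1 - 11 * x ^ 5 - x ^ 10)) = f ^ 11 := by
    rw [← i2, ← hx]
    ring
  calc b ^ 10 * ((1 - 11 * x ^ 5 - x ^ 10) * X ^ 5 * e ^ 6) =
      X ^ 5 * e ^ 5 * (e * (b ^ 10 * (1 - 11 * x ^ 5 - x ^ 10))) := by ring
    _ = X ^ 5 * (f * e) ^ 5 * f ^ 6 := by rw [h1]; ring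
    _ = (X * a) ^ 5 * b ^ 5 * f ^ 6 := by rw [← i3]; ring
    _ = b ^ 10 * (x ^ 5 * f ^ 6) := by rw [← hx]; ring

/-- `x` modulo three -/
noncomputable def z3 : (ZMod 3)⟦X⟧ := m3 x

/-- the class one function -/
noncomputable def g3 : (ZMod 3)⟦X⟧ := z3 * (1 + z3 ^ 5 - z3 ^ 10)

lemma g3_eq : g3 = z3 * (1 + z3 ^ 5 - z3 ^ 10) := rfl

lemma V_z3 : V (ZMod 3) 3 z3 = z3 ^ 3 := V_cube z3

/-- unit part -/
noncomputable def g3' : (ZMod 3)⟦X⟧ := m3 (xu ^ 2 * Q ℤ 5 5 ^ 2 * iv (Q ℤ 25 25) ^ 2)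

lemma g3_form : g3 = X * V (ZMod 3) 3 g3' := by
  have h := congrArg m3 Dl_rel
  have he : constantCoeff (Q ℤ 25 25) = 1 := Q_const (by norm_num) (by norm_num)
  have hi : m3 (Q ℤ 25 25) * m3 (iv (Q ℤ 25 25)) = 1 := by
    rw [← map_mul, mul_iv he, map_one]
  have hD : m3 Dl = 1 + z3 ^ 5 - z3 ^ 10 := by
    unfold Dl z3
    simp only [map_sub, map_one, map_mul, map_pow, map_ofNat]
    linear_combination (-4 * m3 x ^ 5) * three_eq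
  have hx : z3 = X * m3 xu := by
    unfold z3
    rw [x_eq, map_mul, m3_X]
  simp only [map_mul, map_pow, m3_X] at h
  rw [hD] at h
  change (1 + z3 ^ 5 - z3 ^ 10) * X ^ 5 * m3 (Q ℤ 25 25) ^ 6 = z3 ^ 5 * m3 (Q ℤ 5 5) ^ 6 at h
  rw [V_cube]
  unfold g3 g3'
  simp only [map_mul, map_pow]
  generalize m3 (Q ℤ 25 25) = e at *
  generalize m3 (iv (Q ℤ 25 25)) = i at *
  generalize m3 (Q ℤ 5 5) = f at *
  have hX5 : (X : (ZMod 3)⟦X⟧) ^ 5 ≠ 0 := pow_ne_zero _ PowerSeries.X_ne_zero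
  apply mul_left_cancel₀ hX5
  have h6 : e ^ 6 * i ^ 6 = 1 := by rw [← mul_pow, hi, one_pow]
  have e1 : X ^ 5 * (z3 * (1 + z3 ^ 5 - z3 ^ 10)) = z3 ^ 6 * f ^ 6 * i ^ 6 := by
    linear_combination (-(X ^ 5 * z3 * (1 + z3 ^ 5 - z3 ^ 10))) * h6 + (z3 * i ^ 6) * h
  rw [e1]
  have e2 : z3 ^ 6 = X ^ 6 * m3 xu ^ 6 := by rw [hx, mul_pow]
  rw [e2]
  ring

lemma g3'_const : constantCoeff g3' = 1 := by
  have he : constantCoeff (Q ℤ 25 25) = 1 := Q_const (by norm_num) (by norm_num)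
  have hf : constantCoeff (Q ℤ 5 5) = 1 := Q_const (by norm_num) (by norm_num)
  have hi : constantCoeff (iv (Q ℤ 25 25)) = 1 := by
    have h := congrArg (constantCoeff (R := ℤ)) (mul_iv he)
    rwa [map_mul, he, one_mul, map_one] at h
  have h1 : constantCoeff (xu ^ 2 * Q ℤ 5 5 ^ 2 * iv (Q ℤ 25 25) ^ 2) = 1 := by
    rw [map_mul, map_mul, map_pow, map_pow, map_pow, xu_const, hf, hi]
    norm_num
  unfold g3'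
  rw [← coeff_zero_eq_constantCoeff_apply, coeff_m3, coeff_zero_eq_constantCoeff_apply, h1]
  simp

lemma g3'_ne : g3' ≠ 0 := by
  intro h
  have := g3'_const
  rw [h, map_zero] at this
  exact zero_ne_one this

lemma U3_X : (U (ZMod 3) 3) X = 0 := by
  ext n
  rw [coeff_U, coeff_X, map_zero, if_neg (by omega)]

lemma U3_X2 : (U (ZMod 3) 3) (X ^ 2) = 0 := by
  ext n
  rw [coeff_U, coeff_X_pow, map_zero, if_neg (by omega)]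

lemma U3_one : (U (ZMod 3) 3) 1 = 1 := by
  have := U_V (R := ZMod 3) 3 1
  rwa [map_one] at this

lemma U3_V_mul' (g f : (ZMod 3)⟦X⟧) : (U (ZMod 3) 3) (f * (V (ZMod 3) 3) g) = g * (U (ZMod 3) 3) f := by
  rw [mul_comm, U_V_mul]

/-- the quadratic relation -/
lemma z3_quad : (V (ZMod 3) 3) (1 + z3 ^ 10) * z3 ^ 2 = g3 ^ 2 + (V (ZMod 3) 3) (z3 ^ 2 - z3 ^ 7) * g3 + (V (ZMod 3) 3) (z3 ^ 9) := by
  simp only [map_add, map_sub, map_one, map_pow, V_z3]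
  rw [g3_eq]
  linear_combination (-(z3 ^ 7 - z3 ^ 17)) * three_eq

lemma z3_lin : z3 = g3 - (V (ZMod 3) 3) (z3 ^ 2) + (V (ZMod 3) 3) (z3 ^ 3) * z3 ^ 2 := by
  simp only [map_pow, V_z3]
  rw [g3_eq]
  ring

lemma u0 : (1 + z3 ^ 10) * (U (ZMod 3) 3) (z3 ^ 2) = z3 ^ 9 := by
  rw [← U_V_mul, z3_quad, U_add, U_add, U_V_mul, U_V, g3_form, U3_V_mul', U3_X, mul_pow, ← map_pow,
    U3_V_mul', U3_X2]
  ring

lemma v0 : (U (ZMod 3) 3) z3 = - z3 ^ 2 + z3 ^ 3 * (U (ZMod 3) 3) (z3 ^ 2) := by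
  nth_rewrite 1 [z3_lin]
  rw [U_add, U_sub, U_V, U_V_mul, g3_form, U3_V_mul', U3_X]
  ring

lemma u1 : (1 + z3 ^ 10) * (U (ZMod 3) 3) (X ^ 2 * z3 ^ 2) = (z3 ^ 2 - z3 ^ 7) * (X * g3') := by
  have e : (V (ZMod 3) 3) (1 + z3 ^ 10) * (X ^ 2 * z3 ^ 2) = X * (V (ZMod 3) 3) (X * g3' ^ 2) + (V (ZMod 3) 3) ((z3 ^ 2 - z3 ^ 7) * (X * g3')) +
      X ^ 2 * (V (ZMod 3) 3) (z3 ^ 9) := by
    have h := z3_quad
    rw [g3_form] at h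
    rw [map_mul (V (ZMod 3) 3) X, map_mul (V (ZMod 3) 3) (z3 ^ 2 - z3 ^ 7), map_mul (V (ZMod 3) 3) X, V_X, map_pow (V (ZMod 3) 3) g3']
    linear_combination X ^ 2 * h
  rw [← U_V_mul, e, U_add, U_add, U3_V_mul', U_V, U3_V_mul', U3_X, U3_X2]
  ring

lemma v1 : (U (ZMod 3) 3) (X ^ 2 * z3) = X * g3' + z3 ^ 3 * (U (ZMod 3) 3) (X ^ 2 * z3 ^ 2) := by
  have e : X ^ 2 * z3 = (V (ZMod 3) 3) (X * g3') - X ^ 2 * (V (ZMod 3) 3) (z3 ^ 2) + (V (ZMod 3) 3) (z3 ^ 3) * (X ^ 2 * z3 ^ 2) := by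
    have h := z3_lin
    rw [g3_form] at h
    rw [map_mul (V (ZMod 3) 3) X, V_X]
    linear_combination X ^ 2 * h
  rw [e, U_add, U_sub, U_V, U_V_mul, U3_V_mul', U3_X2]
  ring

lemma v2 : (U (ZMod 3) 3) (X * z3) = z3 ^ 3 * (U (ZMod 3) 3) (X * z3 ^ 2) := by
  have e : X * z3 = X ^ 2 * (V (ZMod 3) 3) g3' - X * (V (ZMod 3) 3) (z3 ^ 2) + (V (ZMod 3) 3) (z3 ^ 3) * (X * z3 ^ 2) := by
    have h := z3_lin
    rw [g3_form] at h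
    linear_combination X * h
  rw [e, U_add, U_sub, U_V_mul, U3_V_mul', U3_V_mul', U3_X2, U3_X]
  ring

lemma den_ne : (1 + z3 ^ 10) ≠ 0 := by
  intro h
  have hz : constantCoeff z3 = 0 := by
    unfold z3
    rw [← coeff_zero_eq_constantCoeff_apply, coeff_m3, coeff_zero_eq_constantCoeff_apply, x_const]
    simp
  have := congrArg (constantCoeff (R := ZMod 3)) h
  rw [map_add, map_pow, hz, map_one, map_zero] at this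
  norm_num at this

lemma den_cube : (1 + z3 ^ 10) ^ 3 = (V (ZMod 3) 3) (1 + z3 ^ 10) := (V_cube _).symm

/-- the general computation -/
theorem three_main {F a0 a1 a2 m0 m1 m2 l0 l1 l2 n1 n2 : (ZMod 3)⟦X⟧}
    (hA : F * g3 = (V (ZMod 3) 3) a0 + (V (ZMod 3) 3) a1 * z3 + (V (ZMod 3) 3) a2 * z3 ^ 2)
    (hB : a1 * (1 + z3 ^ 10 + z3 ^ 3 * (z3 ^ 2 - z3 ^ 7)) + a2 * (z3 ^ 2 - z3 ^ 7) = n1)
    (hC : n1 * (1 + z3 ^ 10) ^ 2 = (V (ZMod 3) 3) m0 + (V (ZMod 3) 3) m1 * z3 + (V (ZMod 3) 3) m2 * z3 ^ 2)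
    (hD : m0 * (1 + z3 ^ 10) + m1 * (-(z3 ^ 2 * (1 + z3 ^ 10)) + z3 ^ 12) + m2 * z3 ^ 9 = n2)
    (hE : n2 * (1 + z3 ^ 10) = (V (ZMod 3) 3) l0 + (V (ZMod 3) 3) l1 * z3 + (V (ZMod 3) 3) l2 * z3 ^ 2)
    (hF : l1 * z3 ^ 3 + l2 = 0) (n : ℕ) : coeff (27 * n + 18) F = 0 := by
  have hd := den_ne
  -- first step
  have s1 : (1 + z3 ^ 10) * (U (ZMod 3) 3) F = n1 := by
    have hne : X * g3' ≠ 0 := mul_ne_zero PowerSeries.X_ne_zero g3'_ne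
    apply mul_left_cancel₀ hne
    have e1 : X ^ 2 * (F * g3) = (V (ZMod 3) 3) (X * g3') * F := by
      rw [g3_form, map_mul, V_X]
      ring
    have e2 := congrArg (U (ZMod 3) 3) e1
    rw [U_V_mul, hA] at e2
    have e3 : X ^ 2 * ((V (ZMod 3) 3) a0 + (V (ZMod 3) 3) a1 * z3 + (V (ZMod 3) 3) a2 * z3 ^ 2) =
      X ^ 2 * (V (ZMod 3) 3) a0 + (V (ZMod 3) 3) a1 * (X ^ 2 * z3) + (V (ZMod 3) 3) a2 * (X ^ 2 * z3 ^ 2) := by ring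
    rw [e3, U_add, U_add, U3_V_mul', U_V_mul, U_V_mul, U3_X2, v1] at e2
    have h1 := u1
    rw [← hB]
    linear_combination (-(1 + z3 ^ 10)) * e2 + (a1 * z3 ^ 3 + a2) * h1
  -- second step
  have s2 : (1 + z3 ^ 10) ^ 2 * (U (ZMod 3) 3) ((U (ZMod 3) 3) F) = n2 := by
    have e1 : (V (ZMod 3) 3) (1 + z3 ^ 10) * (U (ZMod 3) 3) F = (V (ZMod 3) 3) m0 + (V (ZMod 3) 3) m1 * z3 + (V (ZMod 3) 3) m2 * z3 ^ 2 := by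
      rw [← hC, ← den_cube, ← s1]
      ring
    have e2 := congrArg (U (ZMod 3) 3) e1
    rw [U_V_mul, U_add, U_add, U_V, U_V_mul, U_V_mul, v0] at e2
    have h1 := u0
    rw [← hD]
    linear_combination (1 + z3 ^ 10) * e2 + (m1 * z3 ^ 3 + m2) * h1
  have s3 : (U (ZMod 3) 3) (X * (U (ZMod 3) 3) ((U (ZMod 3) 3) F)) = 0 := by
    have e1 : (V (ZMod 3) 3) (1 + z3 ^ 10) * (X * (U (ZMod 3) 3) ((U (ZMod 3) 3) F)) = X * (V (ZMod 3) 3) l0 + (V (ZMod 3) 3) l1 * (X * z3) + (V (ZMod 3) 3) l2 * (X * z3 ^ 2) := by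
      rw [← den_cube]
      linear_combination (X * (1 + z3 ^ 10)) * s2 + X * hE
    have e2 := congrArg (U (ZMod 3) 3) e1
    rw [U_V_mul, U_add, U_add, U3_V_mul', U_V_mul, U_V_mul, v2, U3_X] at e2
    have e3 : (1 + z3 ^ 10) * (U (ZMod 3) 3) (X * (U (ZMod 3) 3) ((U (ZMod 3) 3) F)) = 0 := by
      rw [e2]
      linear_combination ((U (ZMod 3) 3) (X * z3 ^ 2)) * hF
    exact (mul_eq_zero.1 e3).resolve_left hd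
  have h := congrArg (coeff (n + 1)) s3
  rw [coeff_U, show 3 * (n + 1) = (3 * n + 2) + 1 by ring, coeff_succ_X_mul, coeff_U, coeff_U, map_zero,
    show 3 * (3 * (3 * n + 2)) = 27 * n + 18 by ring] at h
  exact h

lemma F_a {F z g : (ZMod 3)⟦X⟧} (hg : g = z * (1 + z ^ 5 - z ^ 10))
    (hF : F * ((1) + (3) * z + (4) * z ^ 2 + (2) * z ^ 3 + (1) * z ^ 4) = (1) + (-2) * z + (4) * z ^ 2 + (-3) * z ^ 3 + (1) * z ^ 4) :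
    F * g = ((-1) * z ^ 9) + ((1) + (-1) * z ^ 9) * z + ((1) + (1) * z ^ 3 + (-1) * z ^ 6 + (-1) * z ^ 9) * z ^ 2 := by
  rw [hg]
  linear_combination (z * ((1) + (-2) * z + (4) * z ^ 2 + (-3) * z ^ 3 + (1) * z ^ 4) * (1 - z - z ^ 2)) * hF + (4 * z ^ 6 * F - ((2) * z ^ 2 + (-5) * z ^ 3 + (10) * z ^ 4 + (-13) * z ^ 5 + (12) * z ^ 6 + (-5) * z ^ 7 + (-2) * z ^ 8 + (3) * z ^ 9 + (-2) * z ^ 10)) * three_eq

lemma F_b (z : (ZMod 3)⟦X⟧) : ((1) + (-1) * z ^ 3) * (1 + z ^ 10 + z ^ 3 * (z ^ 2 - z ^ 7)) + ((1) + (1) * z + (-1) * z ^ 2 + (-1) * z ^ 3) * (z ^ 2 - z ^ 7) = (1) + (1) * z ^ 2 + (-1) * z ^ 4 + (-1) * z ^ 7 + (1) * z ^ 8 + (1) * z ^ 9 + (1) * z ^ 10 := by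
  linear_combination ((-1) * z ^ 8) * three_eq

lemma F_c (z : (ZMod 3)⟦X⟧) : ((1) + (1) * z ^ 2 + (-1) * z ^ 4 + (-1) * z ^ 7 + (1) * z ^ 8 + (1) * z ^ 9 + (1) * z ^ 10) * (1 + z ^ 10) ^ 2 = ((1) + (1) * z ^ 9 + (-1) * z ^ 12 + (-1) * z ^ 18 + (-1) * z ^ 24 + (-1) * z ^ 27 + (1) * z ^ 30) + ((-1) * z ^ 3 + (-1) * z ^ 6 + (-1) * z ^ 18 + (1) * z ^ 21 + (1) * z ^ 27) * z + ((1) + (1) * z ^ 6 + (1) * z ^ 12 + (1) * z ^ 15 + (1) * z ^ 27) * z ^ 2 := by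
  linear_combination ((1) * z ^ 10 + (1) * z ^ 12 + (-1) * z ^ 14 + (-1) * z ^ 17 + (1) * z ^ 18 + (1) * z ^ 19 + (1) * z ^ 20) * three_eq

lemma F_d (z : (ZMod 3)⟦X⟧) : ((1) + (1) * z ^ 3 + (-1) * z ^ 4 + (-1) * z ^ 6 + (-1) * z ^ 8 + (-1) * z ^ 9 + (1) * z ^ 10) * (1 + z ^ 10) + ((-1) * z + (-1) * z ^ 2 + (-1) * z ^ 6 + (1) * z ^ 7 + (1) * z ^ 9) * (-(z ^ 2 * (1 + z ^ 10)) + z ^ 12) + ((1) + (1) * z ^ 2 + (1) * z ^ 4 + (1) * z ^ 5 + (1) * z ^ 9) * z ^ 9 = (1) + (-1) * z ^ 3 + (-1) * z ^ 6 + (-1) * z ^ 9 + (-1) * z ^ 10 + (-1) * z ^ 13 + (-1) * z ^ 16 + (-1) * z ^ 19 + (1) * z ^ 20 := by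
  linear_combination ((1) * z ^ 3 + (1) * z ^ 10 + (1) * z ^ 13) * three_eq

lemma F_e (z : (ZMod 3)⟦X⟧) : ((1) + (-1) * z ^ 3 + (-1) * z ^ 6 + (-1) * z ^ 9 + (-1) * z ^ 10 + (-1) * z ^ 13 + (-1) * z ^ 16 + (-1) * z ^ 19 + (1) * z ^ 20) * (1 + z ^ 10) = ((1) + (-1) * z ^ 3 + (-1) * z ^ 6 + (-1) * z ^ 9 + (1) * z ^ 30) + ((1) * z ^ 12 + (1) * z ^ 15 + (1) * z ^ 18) * z + ((-1) * z ^ 21 + (-1) * z ^ 24 + (-1) * z ^ 27) * z ^ 2 := by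
  linear_combination ((-1) * z ^ 13 + (-1) * z ^ 16 + (-1) * z ^ 19) * three_eq

lemma F_f (z : (ZMod 3)⟦X⟧) : ((1) * z ^ 4 + (1) * z ^ 5 + (1) * z ^ 6) * z ^ 3 + ((-1) * z ^ 7 + (-1) * z ^ 8 + (-1) * z ^ 9) = 0 := by
  linear_combination (0) * three_eq

theorem F_three {F : (ZMod 3)⟦X⟧} (hF : F * ((1) + (3) * z3 + (4) * z3 ^ 2 + (2) * z3 ^ 3 + (1) * z3 ^ 4) = (1) + (-2) * z3 + (4) * z3 ^ 2 + (-3) * z3 ^ 3 + (1) * z3 ^ 4) (n : ℕ) :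
    coeff (27 * n + 18) F = 0 :=
  three_main (a0 := (-1) * z3 ^ 3) (a1 := (1) + (-1) * z3 ^ 3) (a2 := (1) + (1) * z3 + (-1) * z3 ^ 2 + (-1) * z3 ^ 3)
    (m0 := (1) + (1) * z3 ^ 3 + (-1) * z3 ^ 4 + (-1) * z3 ^ 6 + (-1) * z3 ^ 8 + (-1) * z3 ^ 9 + (1) * z3 ^ 10) (m1 := (-1) * z3 + (-1) * z3 ^ 2 + (-1) * z3 ^ 6 + (1) * z3 ^ 7 + (1) * z3 ^ 9) (m2 := (1) + (1) * z3 ^ 2 + (1) * z3 ^ 4 + (1) * z3 ^ 5 + (1) * z3 ^ 9)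
    (l0 := (1) + (-1) * z3 + (-1) * z3 ^ 2 + (-1) * z3 ^ 3 + (1) * z3 ^ 10) (l1 := (1) * z3 ^ 4 + (1) * z3 ^ 5 + (1) * z3 ^ 6) (l2 := (-1) * z3 ^ 7 + (-1) * z3 ^ 8 + (-1) * z3 ^ 9)
    (n1 := (1) + (1) * z3 ^ 2 + (-1) * z3 ^ 4 + (-1) * z3 ^ 7 + (1) * z3 ^ 8 + (1) * z3 ^ 9 + (1) * z3 ^ 10) (n2 := (1) + (-1) * z3 ^ 3 + (-1) * z3 ^ 6 + (-1) * z3 ^ 9 + (-1) * z3 ^ 10 + (-1) * z3 ^ 13 + (-1) * z3 ^ 16 + (-1) * z3 ^ 19 + (1) * z3 ^ 20)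
    (by rw [F_a g3_eq hF]; simp only [map_add, map_mul, map_neg, map_one, map_zero, map_pow, V_z3]; ring)
    (F_b z3)
    (by rw [F_c z3]; simp only [map_add, map_mul, map_neg, map_one, map_zero, map_pow, V_z3]; ring)
    (F_d z3)
    (by rw [F_e z3]; simp only [map_add, map_mul, map_neg, map_one, map_zero, map_pow, V_z3]; ring)
    (F_f z3) n

lemma D_a {F z g : (ZMod 3)⟦X⟧} (hg : g = z * (1 + z ^ 5 - z ^ 10))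
    (hF : F * ((1) + (-2) * z + (4) * z ^ 2 + (-3) * z ^ 3 + (1) * z ^ 4) = (1) + (3) * z + (4) * z ^ 2 + (2) * z ^ 3 + (1) * z ^ 4) :
    F * g = ((1) * z ^ 3) + ((1) + (-1) * z ^ 3 + (-1) * z ^ 6 + (1) * z ^ 9) * z + ((-1) + (-1) * z ^ 9) * z ^ 2 := by
  rw [hg]
  linear_combination (z * ((1) + (3) * z + (4) * z ^ 2 + (2) * z ^ 3 + (1) * z ^ 4) * (1 - z - z ^ 2)) * hF + (4 * z ^ 6 * F - ((-2) * z ^ 2 + (-3) * z ^ 3 + (-2) * z ^ 4 + (5) * z ^ 5 + (12) * z ^ 6 + (13) * z ^ 7 + (10) * z ^ 8 + (5) * z ^ 9 + (2) * z ^ 10)) * three_eq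

lemma D_b (z : (ZMod 3)⟦X⟧) : ((1) + (-1) * z + (-1) * z ^ 2 + (1) * z ^ 3) * (1 + z ^ 10 + z ^ 3 * (z ^ 2 - z ^ 7)) + ((-1) + (-1) * z ^ 3) * (z ^ 2 - z ^ 7) = (1) + (-1) * z + (1) * z ^ 2 + (1) * z ^ 3 + (-1) * z ^ 6 + (1) * z ^ 8 + (1) * z ^ 10 := by
  linear_combination ((-1) * z ^ 2) * three_eq

lemma D_c (z : (ZMod 3)⟦X⟧) : ((1) + (-1) * z + (1) * z ^ 2 + (1) * z ^ 3 + (-1) * z ^ 6 + (1) * z ^ 8 + (1) * z ^ 10) * (1 + z ^ 10) ^ 2 = ((1) + (1) * z ^ 3 + (-1) * z ^ 6 + (-1) * z ^ 12 + (-1) * z ^ 18 + (-1) * z ^ 21 + (1) * z ^ 30) + ((-1) + (-1) * z ^ 12 + (1) * z ^ 15 + (1) * z ^ 21 + (1) * z ^ 27) * z + ((1) + (1) * z ^ 6 + (1) * z ^ 9 + (1) * z ^ 21 + (-1) * z ^ 24) * z ^ 2 := by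
  linear_combination ((1) * z ^ 10 + (-1) * z ^ 11 + (1) * z ^ 12 + (1) * z ^ 13 + (-1) * z ^ 16 + (1) * z ^ 18 + (1) * z ^ 20) * three_eq

lemma D_d (z : (ZMod 3)⟦X⟧) : ((1) + (1) * z + (-1) * z ^ 2 + (-1) * z ^ 4 + (-1) * z ^ 6 + (-1) * z ^ 7 + (1) * z ^ 10) * (1 + z ^ 10) + ((-1) + (-1) * z ^ 4 + (1) * z ^ 5 + (1) * z ^ 7 + (1) * z ^ 9) * (-(z ^ 2 * (1 + z ^ 10)) + z ^ 12) + ((1) + (1) * z ^ 2 + (1) * z ^ 3 + (1) * z ^ 7 + (-1) * z ^ 8) * z ^ 9 = (1) + (1) * z + (-1) * z ^ 4 + (1) * z ^ 7 + (-1) * z ^ 10 + (1) * z ^ 11 + (-1) * z ^ 14 + (1) * z ^ 17 + (1) * z ^ 20 := by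
  linear_combination ((-1) * z ^ 7 + (1) * z ^ 10 + (-1) * z ^ 17) * three_eq

lemma D_e (z : (ZMod 3)⟦X⟧) : ((1) + (1) * z + (-1) * z ^ 4 + (1) * z ^ 7 + (-1) * z ^ 10 + (1) * z ^ 11 + (-1) * z ^ 14 + (1) * z ^ 17 + (1) * z ^ 20) * (1 + z ^ 10) = ((1) + (1) * z ^ 21 + (-1) * z ^ 24 + (1) * z ^ 27 + (1) * z ^ 30) + ((1) + (-1) * z ^ 3 + (1) * z ^ 6) * z + ((-1) * z ^ 9 + (1) * z ^ 12 + (-1) * z ^ 15) * z ^ 2 := by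
  linear_combination ((1) * z ^ 11 + (-1) * z ^ 14 + (1) * z ^ 17) * three_eq

lemma D_f (z : (ZMod 3)⟦X⟧) : ((1) + (-1) * z + (1) * z ^ 2) * z ^ 3 + ((-1) * z ^ 3 + (1) * z ^ 4 + (-1) * z ^ 5) = 0 := by
  linear_combination (0) * three_eq

theorem D_three {F : (ZMod 3)⟦X⟧} (hF : F * ((1) + (-2) * z3 + (4) * z3 ^ 2 + (-3) * z3 ^ 3 + (1) * z3 ^ 4) = (1) + (3) * z3 + (4) * z3 ^ 2 + (2) * z3 ^ 3 + (1) * z3 ^ 4) (n : ℕ) :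
    coeff (27 * n + 18) F = 0 :=
  three_main (a0 := (1) * z3) (a1 := (1) + (-1) * z3 + (-1) * z3 ^ 2 + (1) * z3 ^ 3) (a2 := (-1) + (-1) * z3 ^ 3)
    (m0 := (1) + (1) * z3 + (-1) * z3 ^ 2 + (-1) * z3 ^ 4 + (-1) * z3 ^ 6 + (-1) * z3 ^ 7 + (1) * z3 ^ 10) (m1 := (-1) + (-1) * z3 ^ 4 + (1) * z3 ^ 5 + (1) * z3 ^ 7 + (1) * z3 ^ 9) (m2 := (1) + (1) * z3 ^ 2 + (1) * z3 ^ 3 + (1) * z3 ^ 7 + (-1) * z3 ^ 8)
    (l0 := (1) + (1) * z3 ^ 7 + (-1) * z3 ^ 8 + (1) * z3 ^ 9 + (1) * z3 ^ 10) (l1 := (1) + (-1) * z3 + (1) * z3 ^ 2) (l2 := (-1) * z3 ^ 3 + (1) * z3 ^ 4 + (-1) * z3 ^ 5)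
    (n1 := (1) + (-1) * z3 + (1) * z3 ^ 2 + (1) * z3 ^ 3 + (-1) * z3 ^ 6 + (1) * z3 ^ 8 + (1) * z3 ^ 10) (n2 := (1) + (1) * z3 + (-1) * z3 ^ 4 + (1) * z3 ^ 7 + (-1) * z3 ^ 10 + (1) * z3 ^ 11 + (-1) * z3 ^ 14 + (1) * z3 ^ 17 + (1) * z3 ^ 20)
    (by rw [D_a g3_eq hF]; simp only [map_add, map_mul, map_neg, map_one, map_zero, map_pow, V_z3]; ring)
    (D_b z3)
    (by rw [D_c z3]; simp only [map_add, map_mul, map_neg, map_one, map_zero, map_pow, V_z3]; ring)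
    (D_d z3)
    (by rw [D_e z3]; simp only [map_add, map_mul, map_neg, map_one, map_zero, map_pow, V_z3]; ring)
    (D_f z3) n

end Pool.Agent.K7.H67.RC
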