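import Pool.Agent.K7.H67.RC.Jtp
import Pool.Agent.K7.H67.RC.Ser
import Pool.Agent.K7.H67.RC.Ip

/-! Jacobi's triple product for the theta families. -/

set_option autoImplicit false

namespace Pool.Agent.K7.H67.RC

open Finset Pool.Agent.Y246.Z700 Pool.Agent.Helper308.QS Pool.Agent.V11172.Pd

open PowerSeries in
/-- the theta series with exponents `(k n^2 + (2 a - k) n) / 2` -/
noncomputable def T (s : Bool) (k a : ℕ) (ha : 0 < a) (hk : a < k) : PowerSeries ℤ :=
  (th s k (2 * a - k) (by omega) (by omega) (by omega)).ser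

/-- the sign as a power -/
def eps (s : Bool) : ℤ := if s then -1 else 1

lemma eps_sq (s : Bool) : eps s * eps s = 1 := by
  unfold eps
  split_ifs <;> norm_num

lemma eps_pow (s : Bool) (b n : ℕ) : eps s ^ (b + n) = if s then sg ((b : ℤ) - n) else 1 := by
  unfold eps
  split_ifs with h
  · unfold sg
    split_ifs with h2
    · exact Even.neg_one_pow (by rw [Nat.even_iff]; omega)
    · exact Odd.neg_one_pow (by rw [Nat.odd_iff]; omega)
  · exact one_pow _

section

open PowerSeries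

lemma dvd_T_sub (s : Bool) (k a : ℕ) (ha : 0 < a) (hk : a < k) (n m : ℕ) (hm : 2 * n ≤ m) :
    (PowerSeries.X : PowerSeries ℤ) ^ n ∣ T s k a ha hk -
      ∑ b ∈ range (2 * m + 1), PowerSeries.C (eps s) ^ (b + m) *
        PowerSeries.X ^ (dq k (2 * a - k) ((b : ℤ) - m)) := by
  rw [X_pow_dvd_iff]
  intro d hd
  rw [map_sub, sub_eq_zero]
  unfold T
  rw [Fam.coeff_ser, map_sum]
  have h1 : ∀ b : ℕ, PowerSeries.coeff d (PowerSeries.C (eps s) ^ (b + m) *
      (PowerSeries.X : PowerSeries ℤ) ^ (dq k (2 * a - k) ((b : ℤ) - m))) =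
      if dq k (2 * a - k) ((b : ℤ) - m) = d then (if s then sg ((b : ℤ) - m) else 1) else 0 := by
    intro b
    rw [← map_pow, PowerSeries.coeff_C_mul, PowerSeries.coeff_X_pow, eps_pow]
    simp only [eq_comm (a := d), mul_ite, mul_one, mul_zero]
  rw [sum_congr rfl fun b _ => h1 b, ← sum_filter]
  symm
  refine sum_bij (fun b _ => (b : ℤ) - m) ?_ ?_ ?_ ?_
  · intro b hb
    rw [mem_filter] at hb
    rw [Fam.mem_F]
    exact hb.2
  · intro b _ b' _ h
    have : (b : ℤ) - m = b' - m := h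
    omega
  · intro j hj
    rw [Fam.mem_F] at hj
    have hj' : dq k (2 * a - k) j = d := hj
    have h3 := dq_ge (a := (k : ℤ)) (b := 2 * a - k) (by omega) (by omega) (by omega) j
    rw [hj'] at h3
    have h4 := abs_le.1 h3
    refine ⟨(j + m).toNat, ?_, ?_⟩
    · rw [mem_filter, mem_range]
      have e1 : ((j + m).toNat : ℤ) = j + m := Int.toNat_of_nonneg (by omega)
      refine ⟨by omega, ?_⟩
      rw [e1, add_sub_cancel_right, hj']
    · have e1 : ((j + m).toNat : ℤ) = j + m := Int.toNat_of_nonneg (by omega)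
      rw [e1, add_sub_cancel_right]
  · intro b _
    rfl

end

open PowerSeries in
/-- the factors -/
noncomputable def fac (s : Bool) (k a i : ℕ) : ℤ⟦X⟧ :=
  (1 + C (eps s) * X ^ (k * i + (k - a))) * (1 + C (eps s) * X ^ (k * i + a)) *
    (1 - X ^ (k * i + k))

open PowerSeries in
lemma fac_good (s : Bool) (k a : ℕ) (ha : 0 < a) (hk : a < k) (i : ℕ) :
    (X : ℤ⟦X⟧) ^ (i + 1) ∣ fac s k a i - 1 := by
  have h0 : i ≤ k * i := Nat.le_mul_of_pos_left i (by omega)
  unfold fac
  refine dvd_mul_sub_one (dvd_mul_sub_one ?_ ?_) (good_one_sub (by omega) (by omega) i)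
  · rw [add_sub_cancel_left]
    exact (pow_dvd_pow _ (by omega)).mul_left _
  · rw [add_sub_cancel_left]
    exact (pow_dvd_pow _ (by omega)).mul_left _

open PowerSeries in
theorem T_IP (s : Bool) (k a : ℕ) (ha : 0 < a) (hk : a < k) : IP (fac s k a) (T s k a ha hk) := by
  refine IP.of_le (fac_good s k a ha hk) fun n => ⟨2 * n, by omega, ?_⟩
  set m := 2 * n with hm
  have h := jtp_dvd' (eps s) (eps_sq s) k a m (by omega) hk.le
    (fun j => (k * j ^ 2 + (2 * a - k) * j) / 2)
    (fun j => by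
      have := two_dvd_q (a := (k : ℤ)) (b := 2 * a - k) (by omega) j
      have e : (k : ℤ) * j * (j - 1) + 2 * a * j = k * j ^ 2 + (2 * a - k) * j := by ring
      rw [e]
      show 2 * ((k * j ^ 2 + (2 * a - k) * j) / 2) = _
      omega)
    (fun j => by
      have := q_nonneg (a := (k : ℤ)) (b := 2 * a - k) (by omega) (by omega) j
      show 0 ≤ (k * j ^ 2 + (2 * a - k) * j) / 2
      omega)
  have h2 := map_dvd (Polynomial.coeToPowerSeries.ringHom (R := ℤ)) h
  rw [map_sub, map_mul, map_mul, map_pow, map_prod, map_prod, map_sum] at h2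
  have c0 : Polynomial.coeToPowerSeries.ringHom (R := ℤ) Polynomial.X = X := by simp
  have cC : Polynomial.coeToPowerSeries.ringHom (R := ℤ) (Polynomial.C (eps s)) = C (eps s) := by simp
  have c1 : ∀ e : ℕ, Polynomial.coeToPowerSeries.ringHom (R := ℤ)
      (1 + Polynomial.C (eps s) * Polynomial.X ^ e) = 1 + C (eps s) * X ^ e := by
    intro e
    rw [map_add, map_one, map_mul, map_pow, c0, cC]
  have c2 : Polynomial.coeToPowerSeries.ringHom (R := ℤ) (Polynomial.expand ℤ k (PP (2 * m))) =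
      ∏ i ∈ range (2 * m), (1 - X ^ (k * i + k)) := by
    unfold PP
    rw [map_prod, map_prod]
    refine prod_congr rfl fun i _ => ?_
    rw [map_sub, map_one, map_pow, Polynomial.expand_X, map_sub, map_one, map_pow, map_pow, c0,
      ← pow_mul]
    congr 2
  have c3 : ∀ b : ℕ, Polynomial.coeToPowerSeries.ringHom (R := ℤ)
      (Polynomial.C (eps s) ^ (b + m) * Polynomial.X ^ ((((k : ℤ) * ((b : ℤ) - m) ^ 2 +
        (2 * a - k) * ((b : ℤ) - m)) / 2).toNat)) =
      C (eps s) ^ (b + m) * X ^ (dq k (2 * a - k) ((b : ℤ) - m)) := by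
    intro b
    rw [map_mul, map_pow, map_pow, c0, cC]
    rfl
  rw [c0, c2, sum_congr rfl fun b _ => c3 b] at h2
  simp only [c1] at h2
  have h3 := dvd_T_sub s k a ha hk n m (by omega)
  have h4 : (X : ℤ⟦X⟧) ^ m ∣ ∏ i ∈ range (2 * m), (1 - X ^ (k * i + k)) -
      ∏ i ∈ range m, (1 - X ^ (k * i + k)) :=
    good_tail (f := fun i => 1 - X ^ (k * i + k)) (fun i => good_one_sub (by omega) (by omega) i) (by omega)
  have hnm : n ≤ m := by omega
  have h4' := dvd_trans (pow_dvd_pow (X : ℤ⟦X⟧) hnm) h4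
  have h2' := dvd_trans (pow_dvd_pow (X : ℤ⟦X⟧) (show n ≤ k * m from
    le_trans hnm (Nat.le_mul_of_pos_left m (by omega)))) h2
  unfold fac
  rw [prod_mul_distrib, prod_mul_distrib]
  have e1 : ∀ i, k * (i + 1) - a = k * i + (k - a) := fun i => by
    rw [mul_add, mul_one]
    omega
  simp only [e1] at h2'
  set A1 := ∏ i ∈ range m, (1 + C (eps s) * (X : ℤ⟦X⟧) ^ (k * i + (k - a)))
  set A2 := ∏ i ∈ range m, (1 + C (eps s) * (X : ℤ⟦X⟧) ^ (k * i + a))
  set A3 := ∏ i ∈ range m, (1 - (X : ℤ⟦X⟧) ^ (k * i + k))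
  set A4 := ∏ i ∈ range (2 * m), (1 - (X : ℤ⟦X⟧) ^ (k * i + k))
  set S := ∑ b ∈ range (2 * m + 1), C (eps s) ^ (b + m) * (X : ℤ⟦X⟧) ^ (dq k (2 * a - k) ((b : ℤ) - m))
  have e : T s k a ha hk - A1 * A2 * A3 = (T s k a ha hk - S) - (A1 * A2 * A4 - S) + A1 * A2 * (A4 - A3) := by
    ring
  rw [e]
  exact dvd_add (dvd_sub h3 h2') (h4'.mul_left _)

open PowerSeries in
theorem T_true (k a : ℕ) (ha : 0 < a) (hk : a < k) :
    T true k a ha hk = Q ℤ (k - a) k * Q ℤ a k * Q ℤ k k := by
  refine (T_IP true k a ha hk).unique ((((Q_spec (by omega) (by omega)).mul (Q_spec (by omega) (by omega))).mul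
    (Q_spec (by omega) (by omega))).congr fun i => ?_)
  unfold fac eps
  simp only [if_true, map_neg, map_one]
  ring

open PowerSeries in
theorem T_false (k a : ℕ) (ha : 0 < a) (hk : a < k) :
    T false k a ha hk = Qp ℤ (k - a) k * Qp ℤ a k * Q ℤ k k := by
  refine (T_IP false k a ha hk).unique ((((Qp_spec (by omega) (by omega)).mul (Qp_spec (by omega) (by omega))).mul
    (Q_spec (by omega) (by omega))).congr fun i => ?_)
  unfold fac eps
  simp only [Bool.false_eq_true, if_false, map_one]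
  ring

end Pool.Agent.K7.H67.RC
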