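import Pool.Agent.K7.H67.RC.Chn

/-! The congruences modulo four and eight. -/

set_option autoImplicit false

namespace Pool.Agent.K7.H67.RC

open PowerSeries Finset

/-- the congruences at the exponents `16 n + 12` and `32 n + 28` -/
def Good8 (f : ℤ⟦X⟧) : Prop :=
  ∀ n, (4 : ℤ) ∣ coeff (16 * n + 12) f ∧ (8 : ℤ) ∣ coeff (32 * n + 28) f

lemma Good8.add {f g : ℤ⟦X⟧} (hf : Good8 f) (hg : Good8 g) : Good8 (f + g) := by
  intro n
  rw [map_add, map_add]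
  exact ⟨dvd_add (hf n).1 (hg n).1, dvd_add (hf n).2 (hg n).2⟩

lemma Good8.C_mul {f : ℤ⟦X⟧} (hf : Good8 f) (a : ℤ) : Good8 (C a * f) := by
  intro n
  rw [coeff_C_mul, coeff_C_mul]
  exact ⟨(hf n).1.mul_left _, (hf n).2.mul_left _⟩

lemma Good8.one : Good8 1 := by
  intro n
  rw [coeff_one, coeff_one, if_neg (by omega), if_neg (by omega)]
  exact ⟨dvd_zero _, dvd_zero _⟩

/-- `1 - 11 x^5 - x^10` -/
noncomputable def Dl : ℤ⟦X⟧ := 1 - 11 * x ^ 5 - x ^ 10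

lemma Dl_const : constantCoeff Dl = 1 := by
  unfold Dl
  simp [x_const]

lemma Dl_D0 : Dl * (1 + k) ^ 4 = D0 := by
  unfold Dl D0
  linear_combination (-(11 * (1 + k) ^ 2 + x ^ 5 * (1 + k) ^ 2 + k * (1 - k) ^ 2)) * x5

/-- the functions of class `j` -/
noncomputable def fn (j : ℕ) (a b : ℤ⟦X⟧) : ℤ⟦X⟧ := x ^ j * (a + b * x ^ 5) * iv Dl

lemma Dl_fn (j : ℕ) (a b : ℤ⟦X⟧) : Dl * fn j a b = x ^ j * (a + b * x ^ 5) := by
  unfold fn
  have h := mul_iv Dl_const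
  linear_combination (x ^ j * (a + b * x ^ 5)) * h

lemma fn_spec (j : ℕ) (a b : ℤ⟦X⟧) :
    D0 * fn j a b = x ^ j * (a * (1 + k) ^ 4 + b * (k * (1 - k) ^ 2 * (1 + k) ^ 2)) := by
  rw [← Dl_D0]
  linear_combination (1 + k) ^ 4 * Dl_fn j a b + (x ^ j * b * (1 + k) ^ 2) * x5

lemma spec_of {m : ℤ} (j : ℕ) (a b N : ℤ⟦X⟧) (hN : a * (1 + k) ^ 4 + b * (k * (1 - k) ^ 2 * (1 + k) ^ 2) = N) :
    C m ∣ D0 * fn j a b - x ^ j * N := by
  rw [fn_spec, hN, sub_self]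
  exact dvd_zero _

lemma good_of_lv {f : ℤ⟦X⟧} (h : ∀ n, (4 : ℤ) ∣ coeff (8 * n + 6) (U ℤ 2 f) ∧
    (8 : ℤ) ∣ coeff (16 * n + 14) (U ℤ 2 f)) : Good8 f := by
  intro n
  have h1 := h n
  rw [coeff_U, coeff_U] at h1
  rw [show 16 * n + 12 = 2 * (8 * n + 6) by ring, show 32 * n + 28 = 2 * (16 * n + 14) by ring]
  exact h1

lemma good_G0 : Good8 (fn 0 0 1) := by
  have h := st1_G0 (f := fn 0 0 1) (spec_of 0 0 1 _ (by ring))
  have e : ((-2) * k : ℤ⟦X⟧) = C 2 * ((-1) * k) := by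
    rw [map_ofNat]
    ring
  rw [e, pow_one, pow_one, show (8 : ℤ) = 2 * 4 by norm_num] at h
  obtain ⟨g, hg, h1⟩ := half0 0 (by simp [k_const]) h
  apply good_of_lv
  intro n
  have h2 := fun n => lv_G0 h1 n
  rw [hg, coeff_C_mul, coeff_C_mul]
  have h3 := h2 n
  have h4 := h2 (2 * n + 1)
  rw [show 8 * (2 * n + 1) + 6 = 16 * n + 14 by ring] at h4
  omega

lemma good_F1 : Good8 (fn 1 1 (-3)) := by
  have h := st1_F1 (f := fn 1 1 (-3)) (spec_of 1 1 (-3) _ (by ring))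
  exact good_of_lv fun n => lv_F1 h n

lemma good_D4 : Good8 (fn 4 3 1) := by
  have h := st1_D4 (f := fn 4 3 1) (spec_of 4 3 1 _ (by ring))
  exact good_of_lv fun n => lv_D4 h n

lemma good_D2 : Good8 (fn 2 1 (-3)) := by
  have h := st1_D2 (f := fn 2 1 (-3)) (spec_of 2 1 (-3) _ (by ring))
  exact good_of_lv fun n => lv_D2 h n

lemma good_F3 : Good8 (fn 3 3 1) := by
  have h := st1_F3 (f := fn 3 3 1) (spec_of 3 3 1 _ (by ring))
  rw [pow_one] at h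
  exact good_of_lv fun n => lv_F3 h n

lemma good_D1 : Good8 (fn 1 1 (-8)) := by
  have h := st1_D1 (f := fn 1 1 (-8)) (spec_of 1 1 (-8) _ (by ring))
  have e : ((2) : ℤ⟦X⟧) = C 2 * (1) := by
    rw [map_ofNat]
    ring
  rw [e, pow_one, pow_one, show (8 : ℤ) = 2 * 4 by norm_num] at h
  obtain ⟨g, hg, h1⟩ := half0 3 (by simp [k_const]) h
  apply good_of_lv
  intro n
  have h2 := lv_D1 h1 n
  rw [hg, coeff_C_mul, coeff_C_mul]
  omega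

lemma good_F4 : Good8 (fn 4 8 1) := by
  have h := st1_F4 (f := fn 4 8 1) (spec_of 4 8 1 _ (by ring))
  have e : ((2) * k : ℤ⟦X⟧) = C 2 * k := by
    rw [map_ofNat]
  rw [e, pow_one, pow_one, show (8 : ℤ) = 2 * 4 by norm_num] at h
  obtain ⟨g, hg, h1⟩ := half0 2 (by simp [k_const]) h
  apply good_of_lv
  intro n
  have h2 := lv_F4 h1 n
  rw [hg, coeff_C_mul, coeff_C_mul]
  omega

lemma good_F2 : Good8 (fn 2 3 1) := by
  have h := st1_F2 (f := fn 2 3 1) (spec_of 2 3 1 _ (by ring))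
  have h1 : C (8 : ℤ) ∣ (1 + k) ^ 2 * (C 3 * U ℤ 2 (fn 2 3 1)) - x ^ 1 * ((1) + (-1) * k) := by
    have e : (1 + k) ^ 2 * (C 3 * U ℤ 2 (fn 2 3 1)) - x ^ 1 * ((1) + (-1) * k) =
      C 3 * ((1 + k) ^ 2 * U ℤ 2 (fn 2 3 1) - x ^ 1 * ((3) + (-3) * k)) + C 8 * (x * (1 - k)) := by
      rw [map_ofNat, map_ofNat]
      ring
    rw [e]
    exact dvd_add (h.mul_left _) (dvd_mul_right _ _)
  apply good_of_lv
  intro n
  have h2 := lv_D2 h1 n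
  rw [coeff_C_mul, coeff_C_mul] at h2
  omega

lemma good_D3 : Good8 (fn 3 1 (-3)) := by
  have h := st1_D3 (f := fn 3 1 (-3)) (spec_of 3 1 (-3) _ (by ring))
  have h1 : C (8 : ℤ) ∣ (1 + k) * (C (-3) * U ℤ 2 (fn 3 1 (-3))) - x ^ 4 * ((1)) := by
    have e : (1 + k) * (C (-3) * U ℤ 2 (fn 3 1 (-3))) - x ^ 4 * ((1)) =
      C (-3) * ((1 + k) ^ 1 * U ℤ 2 (fn 3 1 (-3)) - x ^ 4 * ((-3))) + C 8 * (x ^ 4) := by
      rw [map_neg, map_ofNat, map_ofNat]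
      ring
    rw [e]
    exact dvd_add (h.mul_left _) (dvd_mul_right _ _)
  apply good_of_lv
  intro n
  have h2 := lv_F3 h1 n
  rw [coeff_C_mul, coeff_C_mul] at h2
  omega

/-- `R^5(q) / R(q^5)` -/
theorem good_F {F : ℤ⟦X⟧} (hF : F * (1 + 3 * x + 4 * x ^ 2 + 2 * x ^ 3 + x ^ 4) =
    1 - 2 * x + 4 * x ^ 2 - 3 * x ^ 3 + x ^ 4) : Good8 F := by
  have h1 : F = 1 + C (-25) * fn 0 0 1 + C (-5) * fn 1 1 (-3) + C 5 * fn 2 3 1 + C (-10) * fn 3 3 1 +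
      C 5 * fn 4 8 1 := by
    apply mul_left_cancel₀ (ne_of_const Dl_const)
    have e : Dl * F = (1 - 2 * x + 4 * x ^ 2 - 3 * x ^ 3 + x ^ 4) ^ 2 * (1 - x - x ^ 2) := by
      unfold Dl
      linear_combination ((1 - 2 * x + 4 * x ^ 2 - 3 * x ^ 3 + x ^ 4) * (1 - x - x ^ 2)) * hF
    rw [e]
    simp only [map_neg, map_ofNat]
    have g0 := Dl_fn 0 0 1
    have g1 := Dl_fn 1 1 (-3)
    have g2 := Dl_fn 2 3 1
    have g3 := Dl_fn 3 3 1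
    have g4 := Dl_fn 4 8 1
    have gD : Dl = 1 - 11 * x ^ 5 - x ^ 10 := rfl
    linear_combination 25 * g0 + 5 * g1 - 5 * g2 + 10 * g3 - 5 * g4 - gD
  rw [h1]
  exact (((((Good8.one).add (good_G0.C_mul _)).add (good_F1.C_mul _)).add (good_F2.C_mul _)).add
    (good_F3.C_mul _)).add (good_F4.C_mul _)

/-- `R(q^5) / R^5(q)` -/
theorem good_D {F : ℤ⟦X⟧} (hF : F * (1 - 2 * x + 4 * x ^ 2 - 3 * x ^ 3 + x ^ 4) =
    1 + 3 * x + 4 * x ^ 2 + 2 * x ^ 3 + x ^ 4) : Good8 F := by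
  have h1 : F = 1 + C (-25) * fn 0 0 1 + C 5 * fn 1 1 (-8) + C 10 * fn 2 1 (-3) + C 5 * fn 3 1 (-3) +
      C (-5) * fn 4 3 1 := by
    apply mul_left_cancel₀ (ne_of_const Dl_const)
    have e : Dl * F = (1 + 3 * x + 4 * x ^ 2 + 2 * x ^ 3 + x ^ 4) ^ 2 * (1 - x - x ^ 2) := by
      unfold Dl
      linear_combination ((1 + 3 * x + 4 * x ^ 2 + 2 * x ^ 3 + x ^ 4) * (1 - x - x ^ 2)) * hF
    rw [e]
    simp only [map_neg, map_ofNat]
    have g0 := Dl_fn 0 0 1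
    have g1 := Dl_fn 1 1 (-8)
    have g2 := Dl_fn 2 1 (-3)
    have g3 := Dl_fn 3 1 (-3)
    have g4 := Dl_fn 4 3 1
    have gD : Dl = 1 - 11 * x ^ 5 - x ^ 10 := rfl
    linear_combination 25 * g0 - 5 * g1 - 10 * g2 - 5 * g3 + 5 * g4 - gD
  rw [h1]
  exact (((((Good8.one).add (good_G0.C_mul _)).add (good_D1.C_mul _)).add (good_D2.C_mul _)).add
    (good_D3.C_mul _)).add (good_D4.C_mul _)

end Pool.Agent.K7.H67.RC
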